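import Pool.Agent.U745.FM.Core

set_option autoImplicit false

namespace Pool.Agent.U745.FM

variable {Ω : Type} [Field Ω]

/-- the algebraic closure of `k` in `Ω` -/
def alg (k : Subfield Ω) : Subfield Ω := (algebraicClosure k Ω).toSubfield

theorem mem_alg {k : Subfield Ω} {x : Ω} : x ∈ alg k ↔ IsAlgebraic k x := mem_algebraicClosure_iff

theorem mem_sep {k : Subfield Ω} {x : Ω} : x ∈ sep k ↔ IsSeparable k x := mem_separableClosure_iff

theorem le_alg (k : Subfield Ω) : k ≤ alg k := fun x hx =>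
  mem_alg.2 (isAlgebraic_algebraMap (⟨x, hx⟩ : k))

theorem sep_le_alg (k : Subfield Ω) : sep k ≤ alg k := fun _ hx =>
  mem_alg.2 (mem_sep.1 hx).isIntegral.isAlgebraic

theorem alg_mono {k L : Subfield Ω} (h : k ≤ L) {x : Ω} (hx : IsAlgebraic k x) :
    IsAlgebraic L x := by
  let i : Algebra k L := (Subfield.inclusion h).toAlgebra
  have : IsScalarTower k L Ω := IsScalarTower.of_algebraMap_eq fun _ => rfl
  exact hx.tower_top L

theorem alg_of_ring {R : Subring Ω} {L : Subfield Ω} (h : ∀ x ∈ R, x ∈ L) {x : Ω}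
    (hx : IsAlgebraic R x) : IsAlgebraic L x := by
  have hle : R ≤ L.toSubring := h
  let i : Algebra R L := (Subring.inclusion hle).toAlgebra
  have : IsScalarTower R L Ω := IsScalarTower.of_algebraMap_eq fun _ => rfl
  refine hx.extendScalars (R := R) (S := L) ?_
  intro u v huv
  exact Subtype.ext (congrArg (Subtype.val : L → Ω) huv)

theorem alg_trans {k L : Subfield Ω} (h : ∀ y ∈ L, IsAlgebraic k y) {x : Ω}
    (hx : IsAlgebraic L x) : IsAlgebraic k x := by
  have h1 : L ≤ alg k := fun y hy => mem_alg.2 (h y hy)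
  have h2 : IsAlgebraic (alg k) x := alg_mono h1 hx
  let i : Algebra k (alg k) := (Subfield.inclusion (le_alg k)).toAlgebra
  have : IsScalarTower k (alg k) Ω := IsScalarTower.of_algebraMap_eq fun _ => rfl
  have : Algebra.IsAlgebraic k (alg k) := by
    refine ⟨fun y => ?_⟩
    have := mem_alg.1 y.2
    exact (isAlgebraic_algebraMap_iff (algebraMap (alg k) Ω).injective).1 this
  exact h2.restrictScalars k

theorem fieldAdj_alg {k : Subfield Ω} {s : Set Ω} (hs : ∀ x ∈ s, IsAlgebraic k x) :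
    ∀ y ∈ fieldAdj k s, IsAlgebraic k y := by
  intro y hy
  have h : fieldAdj k s ≤ alg k := by
    rw [fieldAdj_le]
    exact ⟨fun x hx => le_alg k hx, fun x hx => mem_alg.2 (hs x hx)⟩
  exact mem_alg.1 (h hy)

theorem exists_pow_sep {k : Subfield Ω} {x : Ω} (hx : IsAlgebraic k x) (q : ℕ) [ExpChar Ω q] :
    ∃ n : ℕ, x ^ q ^ n ∈ sep k := by
  have : ExpChar k q := (algebraMap k Ω).expChar (algebraMap k Ω).injective q
  obtain ⟨g, h1, n, h2⟩ := (minpoly.irreducible hx.isIntegral).hasSeparableContraction q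
  refine ⟨n, mem_sep.2 (h1.of_dvd <| minpoly.dvd k _ ?_)⟩
  simpa only [Polynomial.expand_aeval, minpoly.aeval] using congr_arg (Polynomial.aeval x) h2

theorem pow_inj {q : ℕ} [ExpChar Ω q] {n : ℕ} {x y : Ω} (h : x ^ q ^ n = y ^ q ^ n) : x = y :=
  iterateFrobenius_inj Ω q n h

/-- an automorphism fixing the separable closure of `k` fixes its algebraic closure -/
theorem fixes_alg {k : Subfield Ω} {g : RingAut Ω} (hg : ∀ x ∈ sep k, g x = x) :
    ∀ x ∈ alg k, g x = x := by
  intro x hx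
  obtain ⟨q, hq⟩ := ExpChar.exists Ω
  obtain ⟨n, hn⟩ := exists_pow_sep (mem_alg.1 hx) q
  apply pow_inj (q := q) (n := n)
  rw [← map_pow]
  exact hg _ hn

end Pool.Agent.U745.FM
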