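import Pool.Agent.U745.FM.Spread
import Pool.Agent.U745.FM.Alg

set_option autoImplicit false

namespace Pool.Agent.U745.FM

open Polynomial

variable {Ω : Type} [Field Ω]

/-- the ring `k[y, 1/(y - a), a ∈ S]` -/
def lineRing (k : Subfield Ω) (y : Ω) (S : Finset Ω) : Subring Ω :=
  ringAdj k (insert y ((fun a => (y - a)⁻¹) '' (S : Set Ω)))

theorem mem_lineRing_self (k : Subfield Ω) (y : Ω) (S : Finset Ω) : y ∈ lineRing k y S :=
  subset_ringAdj _ _ (Or.inr (Set.mem_insert _ _))

theorem mem_lineRing_inv {k : Subfield Ω} {y a : Ω} {S : Finset Ω} (ha : a ∈ S) :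
    (y - a)⁻¹ ∈ lineRing k y S :=
  subset_ringAdj _ _ (Or.inr (Set.mem_insert_of_mem _ ⟨a, ha, rfl⟩))

theorem mem_lineRing_base {k : Subfield Ω} {y a : Ω} {S : Finset Ω} (ha : a ∈ k) :
    a ∈ lineRing k y S :=
  subset_ringAdj _ _ (Or.inl ha)

theorem lineRing_fixed {k : Subfield Ω} {y : Ω} {S : Finset Ω} (hS : ∀ a ∈ S, a ∈ k)
    {g : RingAut Ω} (hg : g ∈ Gam k) (hy : g y = y) : ∀ z ∈ lineRing k y S, g z = z := by
  have h : lineRing k y S ≤ (RingHom.eqLocus (g : Ω →+* Ω) (RingHom.id Ω)) := by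
    unfold lineRing
    rw [ringAdj_le]
    refine ⟨fun z hz => hg z hz, ?_⟩
    intro z hz
    rcases Set.mem_insert_iff.1 hz with rfl | ⟨a, ha, rfl⟩
    · exact hy
    · show g (y - a)⁻¹ = (y - a)⁻¹
      rw [map_inv₀, map_sub, hy, hg a (hS a ha)]
  exact h

/-- elements of `k[x]` are values of polynomials -/
theorem exists_poly {k : Subfield Ω} {x a : Ω} (ha : a ∈ ringAdj k {x}) :
    ∃ f : Polynomial k, aeval x f = a := by
  have h : ringAdj k {x} ≤ (aeval x : Polynomial k →ₐ[k] Ω).toRingHom.range := by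
    rw [ringAdj_le]
    refine ⟨fun z hz => ⟨C ⟨z, hz⟩, ?_⟩, fun z hz => ⟨X, ?_⟩⟩
    · show aeval x (C (⟨z, hz⟩ : k)) = z
      rw [aeval_C]
      rfl
    · rw [Set.mem_singleton_iff.1 hz]
      exact aeval_X x
  exact h ha

theorem separable_of_root {F : Subfield Ω} {x : Ω} (G : Polynomial Ω) (hG : ∀ i, G.coeff i ∈ F)
    (h0 : G.eval x = 0) (h1 : G.derivative.eval x ≠ 0) : IsSeparable F x := by
  obtain ⟨G0, hG0⟩ : ∃ G0 : Polynomial F, G0.map (algebraMap F Ω) = G := by
    have : G ∈ Polynomial.lifts (algebraMap F Ω) := by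
      rw [Polynomial.lifts_iff_coeff_lifts]
      intro i
      exact ⟨⟨G.coeff i, hG i⟩, rfl⟩
    exact this
  have hG00 : G0 ≠ 0 := by
    rintro rfl
    rw [Polynomial.map_zero] at hG0
    rw [← hG0] at h1
    simp at h1
  have e0 : aeval x G0 = 0 := by
    rw [← eval_map_algebraMap, hG0]
    exact h0
  have hi : IsIntegral F x := IsAlgebraic.isIntegral ⟨G0, hG00, e0⟩
  obtain ⟨r, hr⟩ := minpoly.dvd F x e0
  have e1 : aeval x (derivative G0) ≠ 0 := by
    rw [← eval_map_algebraMap, ← derivative_map, hG0]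
    exact h1
  have e2 : derivative (minpoly F x) ≠ 0 := by
    intro h2
    apply e1
    rw [hr, derivative_mul, h2, zero_mul, zero_add, map_mul, minpoly.aeval, zero_mul]
  exact (separable_iff_derivative_ne_zero (minpoly.irreducible hi)).2 e2

/-- the trick in characteristic `p` -/
theorem lineP (p : ℕ) [Fact p.Prime] [CharP Ω p] (k : Subfield Ω) (x : Ω)
    (hx : Transcendental k x) (a : Ω) (ha : a ∈ ringAdj k {x}) (ha0 : a ≠ 0) :
    ∃ y ∈ fieldAdj k {x}, Transcendental k y ∧ IsSeparable (fieldAdj k {y}) x ∧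
      IsIntegral (lineRing k y ∅) x ∧
      IsIntegral (lineRing k y ∅) a⁻¹ ∧
      ∀ P : Ideal (integralClosure (lineRing k y ∅) Ω), P.IsPrime → ∀ g : RingAut Ω,
        InInertia (lineRing k y ∅) P g → g ∈ Gam k → g y = y → g x = x := by
  obtain ⟨f0, hf0⟩ := exists_poly ha
  have hf00 : f0 ≠ 0 := by
    rintro rfl
    rw [map_zero] at hf0
    exact ha0 hf0.symm
  set c : k := f0.leadingCoeff with hc
  have hc0 : c ≠ 0 := leadingCoeff_ne_zero.2 hf00
  set f : Polynomial k := C c⁻¹ * f0 with hf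
  have hfm : f.Monic := by
    have h1 : f.leadingCoeff = 1 := by
      rw [hf, leadingCoeff_mul, leadingCoeff_C, ← hc, inv_mul_cancel₀ hc0]
    exact h1
  set b : Ω := aeval x f with hb
  have hba : b = (c : Ω)⁻¹ * a := by
    rw [hb, hf, map_mul, hf0, aeval_C]
    rfl
  have hc0' : (c : Ω) ≠ 0 := fun h0 => hc0 (Subtype.ext h0)
  have hb0 : b ≠ 0 := by
    rw [hba]
    exact mul_ne_zero (inv_ne_zero hc0') ha0
  have hbF : b ∈ fieldAdj k {x} := by
    rw [hba]
    exact mul_mem (le_fieldAdj _ _ (inv_mem c.2)) (ringAdj_sub_fieldAdj _ _ ha)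
  have hxF : x ∈ fieldAdj k {x} := mem_fieldAdj rfl
  have hp : p.Prime := Fact.out
  set y : Ω := x ^ p + x * (b ^ p)⁻¹ + (b ^ (2 * p))⁻¹ with hy
  have hyF : y ∈ fieldAdj k {x} := by
    refine add_mem (add_mem (pow_mem hxF _) (mul_mem hxF (inv_mem (pow_mem hbF _)))) ?_
    exact inv_mem (pow_mem hbF _)
  set R := lineRing k y ∅ with hR
  have hkR : ∀ z : k, (z : Ω) ∈ R := fun z => mem_lineRing_base z.2
  let ι : k →+* R :=
    { toFun := fun z => ⟨z, hkR z⟩
      map_one' := rfl
      map_mul' := fun _ _ => rfl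
      map_zero' := rfl
      map_add' := fun _ _ => rfl }
  let yR : R := ⟨y, mem_lineRing_self _ _ _⟩
  let fR : Polynomial R := f.map ι
  have hfR : fR.Monic := hfm.map ι
  have hfRΩ : fR.map (algebraMap R Ω) = f.map (algebraMap k Ω) := by
    rw [Polynomial.map_map]
    rfl
  let H : Polynomial R := (X ^ p - C yR) * fR ^ (2 * p) + (X * fR ^ p + 1)
  have hRn : Nontrivial R := inferInstance
  have hHm : H.Monic := by
    have h1 : (X ^ p - C yR : Polynomial R).Monic := monic_X_pow_sub_C _ hp.ne_zero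
    have h2 : ((X ^ p - C yR) * fR ^ (2 * p)).Monic := h1.mul (hfR.pow _)
    refine h2.add_of_left ?_
    have h3 : ((X ^ p - C yR) * fR ^ (2 * p)).natDegree = p + 2 * p * fR.natDegree := by
      rw [h1.natDegree_mul (hfR.pow _), hfR.natDegree_pow, natDegree_X_pow_sub_C]
    have h4 : (X * fR ^ p + 1 : Polynomial R).natDegree ≤ 1 + p * fR.natDegree := by
      refine (natDegree_add_le _ _).trans ?_
      rw [natDegree_one]
      refine max_le ?_ (Nat.zero_le _)
      refine natDegree_mul_le.trans ?_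
      rw [natDegree_X, hfR.natDegree_pow]
    apply degree_lt_degree
    rw [h3]
    refine lt_of_le_of_lt h4 ?_
    have := hp.two_le
    nlinarith [Nat.zero_le (p * fR.natDegree)]
  set HΩ : Polynomial Ω := H.map (algebraMap R Ω) with hHΩ
  have hHΩ' : HΩ = (X ^ p - C y) * (f.map (algebraMap k Ω)) ^ (2 * p) +
      (X * (f.map (algebraMap k Ω)) ^ p + 1) := by
    rw [hHΩ]
    simp only [H, Polynomial.map_add, Polynomial.map_mul, Polynomial.map_sub, Polynomial.map_pow,
      Polynomial.map_X, Polynomial.map_C, Polynomial.map_one]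
    rw [hfRΩ]
    rfl
  have hfx : (f.map (algebraMap k Ω)).eval x = b := by
    rw [eval_map_algebraMap]
  have hH0 : HΩ.eval x = 0 := by
    rw [hHΩ']
    simp only [eval_add, eval_mul, eval_sub, eval_pow, eval_X, eval_C, eval_one, hfx]
    rw [hy]
    have h2 : b ^ (2 * p) = b ^ p * b ^ p := by rw [two_mul, pow_add]
    rw [h2]
    have h3 : b ^ p ≠ 0 := pow_ne_zero _ hb0
    field_simp
    ring
  have hH1 : HΩ.derivative.eval x = b ^ p := by
    have hcp : ((p : ℕ) : Polynomial Ω) = 0 := by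
      have := CharP.cast_eq_zero (Polynomial Ω) p
      exact this
    rw [hHΩ']
    have e1 : derivative ((f.map (algebraMap k Ω)) ^ p) = 0 := by
      rw [derivative_pow, CharP.cast_eq_zero Ω p]
      simp
    have e2 : derivative ((f.map (algebraMap k Ω)) ^ (2 * p)) = 0 := by
      rw [derivative_pow]
      have : ((2 * p : ℕ) : Ω) = 0 := by
        rw [Nat.cast_mul, CharP.cast_eq_zero Ω p, mul_zero]
      rw [this]
      simp
    have e3 : derivative (X ^ p : Polynomial Ω) = 0 := by
      rw [derivative_X_pow, CharP.cast_eq_zero Ω p]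
      simp
    rw [derivative_add, derivative_add, derivative_mul, derivative_mul, derivative_sub, e1, e2, e3,
      derivative_C, derivative_X, derivative_one]
    simp [hfx]
  have hxi : IsIntegral R x := by
    refine ⟨H, hHm, ?_⟩
    rw [← eval_map]
    exact hH0
  have hbi : IsIntegral R b⁻¹ := by
    have hx2 : IsIntegral R (x ^ p - y) := (hxi.pow p).sub (isIntegral_mem (mem_lineRing_self _ _ _))
    let xC : integralClosure R Ω := ⟨x, hxi⟩
    let zC : integralClosure R Ω := ⟨x ^ p - y, hx2⟩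
    have h1 : IsIntegral (integralClosure R Ω) b⁻¹ := by
      refine ⟨X ^ (2 * p) + (C xC * X ^ p + C zC), ?_, ?_⟩
      · refine (monic_X_pow (2 * p)).add_of_left ?_
        rw [degree_X_pow]
        refine lt_of_le_of_lt (degree_add_le _ _) ?_
        have hp2 := hp.two_le
        refine max_lt ?_ ?_
        · refine lt_of_le_of_lt (degree_C_mul_X_pow_le p xC) ?_
          exact_mod_cast (by omega : p < 2 * p)
        · refine lt_of_le_of_lt degree_C_le ?_
          exact_mod_cast (by omega : 0 < 2 * p)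
      · simp only [eval₂_add, eval₂_mul, eval₂_pow, eval₂_X, eval₂_C]
        show (b⁻¹) ^ (2 * p) + (x * (b⁻¹) ^ p + (x ^ p - y)) = 0
        rw [hy]
        have h2 : b ^ (2 * p) = b ^ p * b ^ p := by rw [two_mul, pow_add]
        rw [inv_pow, inv_pow, h2]
        ring
    exact isIntegral_trans _ h1
  have hRF : R ≤ (fieldAdj k {y}).toSubring := by
    rw [hR]
    unfold lineRing
    rw [ringAdj_le]
    refine ⟨fun z hz => le_fieldAdj _ _ hz, ?_⟩
    intro z hz
    rcases Set.mem_insert_iff.1 hz with rfl | ⟨a, ha, rfl⟩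
    · exact mem_fieldAdj rfl
    · simp at ha
  refine ⟨y, hyF, ?_, ?_, hxi, ?_, ?_⟩
  · intro hya
    apply hx
    refine alg_trans (fieldAdj_alg (s := {y}) ?_) (alg_of_ring (R := R) ?_ hxi.isAlgebraic)
    · intro z hz
      rw [Set.mem_singleton_iff.1 hz]
      exact hya
    · exact hRF
  · refine separable_of_root HΩ (fun i => ?_) hH0 ?_
    · rw [hHΩ, coeff_map]
      exact hRF (H.coeff i).2
    · rw [hH1]
      exact pow_ne_zero _ hb0
  · have h1 : a⁻¹ = (c : Ω)⁻¹ * b⁻¹ := by
      rw [hba, mul_inv, inv_inv]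
      field_simp
    rw [h1]
    exact (isIntegral_mem (mem_lineRing_base (inv_mem c.2))).mul hbi
  · intro P hP g hg hgk hgy
    have hfix := lineRing_fixed (S := ∅) (by simp) hgk hgy
    refine fixes_of_unit hP hg hxi HΩ ?_ ?_ hH0 ?_ ?_
    · intro i
      rw [hHΩ, coeff_map]
      exact isIntegral_algebraMap
    · intro i
      rw [hHΩ, coeff_map]
      exact hfix _ (H.coeff i).2
    · rw [hH1, ← inv_pow]
      exact hbi.pow p
    · rw [hH1]
      exact pow_ne_zero _ hb0

end Pool.Agent.U745.FM
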