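import Mathlib

set_option autoImplicit false

namespace Pool.Agent.U745.FM

open Polynomial

variable {k : Type} [Field k] [CharZero k]


/-- degree of an algebraic number -/
noncomputable def dg (α : AlgebraicClosure k) : ℕ := (minpoly k α).natDegree

theorem dg_aeval_le (α : AlgebraicClosure k) (h : k[X]) : dg (aeval α h) ≤ dg α := by
  have h1 : IsIntegral k α := Algebra.IsIntegral.isIntegral α
  have h2 : IsIntegral k (aeval α h) := Algebra.IsIntegral.isIntegral _
  unfold dg
  rw [← IntermediateField.adjoin.finrank h1, ← IntermediateField.adjoin.finrank h2]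
  have : FiniteDimensional k (IntermediateField.adjoin k {α}) :=
    IntermediateField.adjoin.finiteDimensional h1
  apply IntermediateField.finrank_le_of_le_right
  rw [IntermediateField.adjoin_simple_le_iff]
  have h3 : α ∈ IntermediateField.adjoin k {α} := IntermediateField.mem_adjoin_simple_self k α
  have h4 : ((aeval (⟨α, h3⟩ : IntermediateField.adjoin k {α}) h : IntermediateField.adjoin k {α}) :
      AlgebraicClosure k) = aeval α h :=
    (Polynomial.aeval_algebraMap_apply (AlgebraicClosure k)
      (⟨α, h3⟩ : IntermediateField.adjoin k {α}) h).symm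
  rw [← h4]
  exact SetLike.coe_mem _

/-- `t` maps `Z` and its critical points to `S` -/
def Bel (Z : Finset (AlgebraicClosure k)) : Prop :=
  ∃ t : k[X], 0 < t.natDegree ∧ ∃ S : Finset k,
    (∀ α ∈ Z, ∃ s ∈ S, aeval α t = algebraMap k (AlgebraicClosure k) s) ∧
    ∀ α : AlgebraicClosure k, aeval α (derivative t) = 0 →
      ∃ s ∈ S, aeval α t = algebraMap k (AlgebraicClosure k) s

theorem bel_base (Z : Finset (AlgebraicClosure k)) (hZ : ∀ α ∈ Z, dg α ≤ 1) : Bel Z := by
  classical
  have h1 : ∀ α ∈ Z, ∃ s : k, algebraMap k (AlgebraicClosure k) s = α := by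
    intro α hα
    have hi : IsIntegral k α := Algebra.IsIntegral.isIntegral α
    have h2 : (minpoly k α).natDegree = 1 :=
      le_antisymm (hZ α hα) (minpoly.natDegree_pos hi)
    exact minpoly.natDegree_eq_one_iff.1 h2
  choose! s hs using h1
  refine ⟨X, by rw [natDegree_X]; exact one_pos, Z.image s, fun α hα => ⟨s α,
    Finset.mem_image_of_mem _ hα, ?_⟩, fun α hα => ?_⟩
  · rw [aeval_X, hs α hα]
  · rw [derivative_X, map_one] at hα
    exact absurd hα one_ne_zero

theorem bel_all (d : ℕ) : ∀ Z : Finset (AlgebraicClosure k), (∀ α ∈ Z, dg α ≤ d + 1) → Bel Z := by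
  classical
  induction d with
  | zero => exact fun Z hZ => bel_base Z hZ
  | succ d ih =>
    have inner : ∀ c : ℕ, ∀ Z : Finset (AlgebraicClosure k), (∀ α ∈ Z, dg α ≤ d + 2) →
        (Z.filter fun α => dg α = d + 2).card ≤ c → Bel Z := by
      intro c
      induction c with
      | zero =>
        intro Z hZ hc
        apply ih
        intro α hα
        have h1 := hZ α hα
        have h2 : dg α ≠ d + 2 := by
          intro h3
          have h4 : α ∈ Z.filter fun α => dg α = d + 2 := Finset.mem_filter.2 ⟨hα, h3⟩
          rw [Finset.card_eq_zero.1 (Nat.le_zero.1 hc)] at h4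
          simp at h4
        omega
      | succ c ihc =>
        intro Z hZ hc
        by_cases hex : ∃ α ∈ Z, dg α = d + 2
        swap
        · apply ih
          intro α hα
          have h1 := hZ α hα
          have h2 : dg α ≠ d + 2 := fun h3 => hex ⟨α, hα, h3⟩
          omega
        obtain ⟨α, hα, hαd⟩ := hex
        have hαi : IsIntegral k α := Algebra.IsIntegral.isIntegral α
        set h : k[X] := minpoly k α with hh
        have hdeg : h.natDegree = d + 2 := hαd
        have hder : derivative h ≠ 0 := by
          intro h0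
          have := derivative_eq_zero.1 h0
          omega
        set Z2 : Finset (AlgebraicClosure k) :=
          ((derivative h).aroots (AlgebraicClosure k)).toFinset with hZ2
        have hZ2m : ∀ γ, γ ∈ Z2 ↔ aeval γ (derivative h) = 0 := by
          intro γ
          rw [hZ2, Multiset.mem_toFinset, mem_aroots]
          exact ⟨fun h => h.2, fun h => ⟨hder, h⟩⟩
        have hZ2d : ∀ γ ∈ Z2, dg γ ≤ d + 1 := by
          intro γ hγ
          have h1 := natDegree_le_of_dvd (minpoly.dvd k γ ((hZ2m γ).1 hγ)) hder
          have h2 := natDegree_derivative_le h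
          unfold dg
          omega
        set Z1 : Finset (AlgebraicClosure k) :=
          (Z ∪ Z2).image fun γ => aeval γ h with hZ1
        have hZ1d : ∀ β ∈ Z1, dg β ≤ d + 2 := by
          intro β hβ
          obtain ⟨γ, hγ, rfl⟩ := Finset.mem_image.1 hβ
          refine (dg_aeval_le γ h).trans ?_
          rcases Finset.mem_union.1 hγ with h1 | h1
          · exact hZ γ h1
          · exact (hZ2d γ h1).trans (by omega)
        have hZ1c : (Z1.filter fun β => dg β = d + 2).card ≤ c := by
          have hsub : (Z1.filter fun β => dg β = d + 2) ⊆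
              ((Z.filter fun γ => dg γ = d + 2).erase α).image fun γ => aeval γ h := by
            intro β hβ
            obtain ⟨hβ1, hβ2⟩ := Finset.mem_filter.1 hβ
            obtain ⟨γ, hγ, rfl⟩ := Finset.mem_image.1 hβ1
            have h3 := dg_aeval_le γ h
            rcases Finset.mem_union.1 hγ with h1 | h1
            · refine Finset.mem_image_of_mem _ (Finset.mem_erase.2 ⟨?_, Finset.mem_filter.2
                ⟨h1, ?_⟩⟩)
              · rintro rfl
                have h4 : aeval γ h = 0 := minpoly.aeval k γ
                rw [h4] at hβ2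
                unfold dg at hβ2
                rw [minpoly.zero, natDegree_X] at hβ2
                omega
              · have := hZ γ h1
                omega
            · have := hZ2d γ h1
              omega
          refine (Finset.card_le_card hsub).trans (Finset.card_image_le.trans ?_)
          rw [Finset.card_erase_of_mem (Finset.mem_filter.2 ⟨hα, hαd⟩)]
          omega
        obtain ⟨t, ht, S, hS1, hS2⟩ := ihc Z1 hZ1d hZ1c
        refine ⟨t.comp h, ?_, S, fun γ hγ => ?_, fun γ hγ => ?_⟩
        · rw [natDegree_comp, hdeg]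
          exact Nat.mul_pos ht (by omega)
        · rw [aeval_comp]
          exact hS1 _ (Finset.mem_image_of_mem _ (Finset.mem_union_left _ hγ))
        · rw [aeval_comp]
          rw [derivative_comp, map_mul, aeval_comp] at hγ
          rcases mul_eq_zero.1 hγ with h1 | h1
          · exact hS1 _ (Finset.mem_image_of_mem _ (Finset.mem_union_right _ ((hZ2m γ).2 h1)))
          · exact hS2 _ h1
    intro Z hZ
    exact inner _ Z hZ le_rfl

omit [CharZero k] in
theorem dvd_pow_of_irreducible {f g : k[X]} (hf : f ≠ 0)
    (h : ∀ q : k[X], Irreducible q → q ∣ f → q ∣ g) : ∃ M : ℕ, f ∣ g ^ M := by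
  revert hf h
  refine WfDvdMonoid.induction_on_irreducible f (fun h _ => absurd rfl h) ?_ ?_
  · intro u hu _ _
    exact ⟨0, by rw [pow_zero]; exact hu.dvd⟩
  · intro a q ha hq ih _ h
    obtain ⟨M, hM⟩ := ih ha fun r hr hra => h r hr (hra.mul_left q)
    refine ⟨M + 1, ?_⟩
    rw [pow_succ']
    exact mul_dvd_mul (h q hq (dvd_mul_right q a)) hM

/-- first half of Belyi's theorem -/
theorem belyi (f : k[X]) (hf : f ≠ 0) : ∃ t : k[X], 0 < t.natDegree ∧ ∃ (S : Finset k) (M : ℕ),
    f * derivative t ∣ (∏ s ∈ S, (t - C s)) ^ M := by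
  classical
  set Z : Finset (AlgebraicClosure k) := (f.aroots (AlgebraicClosure k)).toFinset with hZ
  obtain ⟨d, hd⟩ : ∃ d, ∀ α ∈ Z, dg α ≤ d + 1 := by
    refine ⟨Z.sup dg, fun α hα => (Finset.le_sup (f := dg) hα).trans (Nat.le_succ _)⟩
  obtain ⟨t, ht, S, h1, h2⟩ := bel_all d Z hd
  have hder : derivative t ≠ 0 := by
    intro h0
    have := derivative_eq_zero.1 h0
    omega
  obtain ⟨M, hM⟩ := dvd_pow_of_irreducible (f := f * derivative t) (g := ∏ s ∈ S, (t - C s))
    (mul_ne_zero hf hder) (by
      intro q hq hqd
      obtain ⟨α, hα⟩ := IsAlgClosed.exists_aeval_eq_zero (AlgebraicClosure k) q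
        (degree_pos_of_irreducible hq).ne'
      have hα2 : aeval α (f * derivative t) = 0 := by
        obtain ⟨r, hr⟩ := hqd
        rw [hr, map_mul, hα, zero_mul]
      rw [map_mul] at hα2
      have h3 : ∃ s ∈ S, aeval α t = algebraMap k (AlgebraicClosure k) s := by
        rcases mul_eq_zero.1 hα2 with h4 | h4
        · apply h1
          rw [hZ, Multiset.mem_toFinset, mem_aroots]
          exact ⟨hf, h4⟩
        · exact h2 α h4
      obtain ⟨s, hs, hs2⟩ := h3
      have h5 : aeval α (t - C s) = 0 := by
        rw [map_sub, hs2, aeval_C, sub_self]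
      have h6 : q ∣ t - C s := by
        have h7 := minpoly.dvd k α h5
        have h8 : q ∣ minpoly k α := by
          have h9 : minpoly k α ∣ q := minpoly.dvd k α hα
          exact (minpoly.irreducible (Algebra.IsIntegral.isIntegral α)).dvd_symm hq h9
        exact h8.trans h7
      exact h6.trans (Finset.dvd_prod_of_mem (fun s => t - C s) hs))
  exact ⟨t, ht, S, M, hM⟩

end Pool.Agent.U745.FM
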