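import Pool.Agent.U745.FM.Trick

set_option autoImplicit false

namespace Pool.Agent.U745.FM

open Polynomial Filter

variable {Ω : Type} [Field Ω]

theorem exists_limit {E : Subfield Ω} {ι : Type} (u : Ultrafilter ι) (n : ι → Gam E) (x : Ω)
    (hx : IsAlgebraic E x) : ∃ y : Ω, ∀ᶠ i in (u : Filter ι), (n i).1 x = y := by
  have h1 := finite_orbit (fun _ : Fin 1 => x) (fun _ => hx)
  have h2 : (Set.range fun g : Gam E => g.1 x).Finite := by
    have h3 : (Set.range fun g : Gam E => g.1 x) =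
        (fun f : Fin 1 → Ω => f 0) '' (Set.range fun g : Gam E => fun _ : Fin 1 => g.1 x) := by
      ext y
      constructor
      · rintro ⟨g, rfl⟩
        exact ⟨_, ⟨g, rfl⟩, rfl⟩
      · rintro ⟨_, ⟨g, rfl⟩, rfl⟩
        exact ⟨g, rfl⟩
    rw [h3]
    exact h1.image _
  have h4 : ∀ᶠ i in (u : Filter ι), ∃ y ∈ (Set.range fun g : Gam E => g.1 x), (n i).1 x = y :=
    Eventually.of_forall fun i => ⟨_, ⟨n i, rfl⟩, rfl⟩
  obtain ⟨y, -, hy⟩ := (Ultrafilter.eventually_exists_mem_iff h2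
    (P := fun y i => (n i).1 x = y)).1 h4
  exact ⟨y, hy⟩

/-- limits of automorphisms along an ultrafilter -/
theorem exists_ultralimit [IsAlgClosed Ω] {E : Subfield Ω} {ι : Type} (u : Ultrafilter ι)
    (n : ι → Gam E) : ∃ β : Gam E, ∀ x, IsAlgebraic E x →
      ∀ᶠ i in (u : Filter ι), (n i).1 x = β.1 x := by
  choose! ν hν using fun x (hx : IsAlgebraic E x) => exists_limit u n x hx
  choose! ν' hν' using fun x (hx : IsAlgebraic E x) => exists_limit u (fun i => (n i)⁻¹) x hx
  have halg : ∀ x, IsAlgebraic E x → IsAlgebraic E (ν x) := by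
    intro x hx
    obtain ⟨i, hi⟩ := (hν x hx).exists
    rw [← hi]
    exact gam_alg (n i).2 hx
  have halg' : ∀ x, IsAlgebraic E x → IsAlgebraic E (ν' x) := by
    intro x hx
    obtain ⟨i, hi⟩ := (hν' x hx).exists
    rw [← hi]
    exact gam_alg ((n i)⁻¹).2 hx
  let α : alg E ≃+* alg E :=
    { toFun := fun x => ⟨ν x, mem_alg.2 (halg x (mem_alg.1 x.2))⟩
      invFun := fun x => ⟨ν' x, mem_alg.2 (halg' x (mem_alg.1 x.2))⟩
      left_inv := by
        intro x
        apply Subtype.ext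
        have hx := mem_alg.1 x.2
        obtain ⟨i, h1, h2⟩ := ((hν x hx).and (hν' _ (halg x hx))).exists
        show ν' (ν x) = x
        rw [← h2, ← h1]
        exact RingEquiv.symm_apply_apply (n i).1 _
      right_inv := by
        intro x
        apply Subtype.ext
        have hx := mem_alg.1 x.2
        obtain ⟨i, h1, h2⟩ := ((hν' x hx).and (hν _ (halg' x hx))).exists
        show ν (ν' x) = x
        rw [← h2, ← h1]
        exact RingEquiv.apply_symm_apply (n i).1 _
      map_mul' := by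
        intro x y
        apply Subtype.ext
        have hx := mem_alg.1 x.2
        have hy := mem_alg.1 y.2
        have hxy := mem_alg.1 (x * y).2
        obtain ⟨i, h1, h2, h3⟩ := ((hν _ hx).and ((hν _ hy).and (hν _ hxy))).exists
        show ν (x * y : alg E) = ν x * ν y
        rw [← h1, ← h2, ← h3]
        exact map_mul (n i).1 _ _
      map_add' := by
        intro x y
        apply Subtype.ext
        have hx := mem_alg.1 x.2
        have hy := mem_alg.1 y.2
        have hxy := mem_alg.1 (x + y).2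
        obtain ⟨i, h1, h2, h3⟩ := ((hν _ hx).and ((hν _ hy).and (hν _ hxy))).exists
        show ν (x + y : alg E) = ν x + ν y
        rw [← h1, ← h2, ← h3]
        exact map_add (n i).1 _ _ }
  obtain ⟨β, hβ, -⟩ := extend_aut (alg E) α ∅
    (algebraicIndependent_empty_type_iff.2 (algebraMap (alg E) Ω).injective)
  have hβE : β ∈ Gam E := by
    intro x hx
    have h1 := hβ ⟨x, le_alg E hx⟩
    have hxa : IsAlgebraic E x := mem_alg.1 (le_alg E hx)
    obtain ⟨i, hi⟩ := (hν x hxa).exists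
    rw [show β x = ν x from h1, ← hi]
    exact (n i).2 x hx
  refine ⟨⟨β, hβE⟩, fun x hx => ?_⟩
  have h1 : β x = ν x := hβ ⟨x, mem_alg.2 hx⟩
  show ∀ᶠ i in (u : Filter ι), (n i).1 x = β x
  rw [h1]
  exact hν x hx

/-- homomorphisms of an integral closure to a field which agree on the invariants are conjugate -/
theorem exists_conj [IsAlgClosed Ω] (E : Subfield Ω) (C : Subring Ω)
    (hC : ∀ n ∈ Gam E, ∀ x ∈ C, n x ∈ C) (hCalg : ∀ x ∈ C, IsAlgebraic E x) (κ : Type) [Field κ]
    (Φ₁ Φ₂ : C →+* κ) (h : ∀ t : C, (∀ n ∈ Gam E, n (t : Ω) = t) → Φ₁ t = Φ₂ t) :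
    ∃ n : Gam E, ∀ x : C, Φ₂ x = Φ₁ (act C hC n x) := by
  classical
  have h1 : ∀ T : Finset C, ∃ n : Gam E, ∀ x ∈ T, Φ₂ x = Φ₁ (act C hC n x) := by
    intro T
    obtain ⟨T', hT', hT''⟩ := orbit_trick E C hC (fun i : Fin T.card => ((T.equivFin.symm i) : C))
      (fun i => hCalg _ (Subtype.coe_prop _))
    obtain ⟨n, hn⟩ := hT'' κ Φ₁ Φ₂ fun t ht => h t (hT' t ht)
    refine ⟨n, fun x hx => ?_⟩
    have := hn (T.equivFin ⟨x, hx⟩)
    simpa using this
  choose n hn using h1
  let u : Ultrafilter (Finset C) := Ultrafilter.of atTop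
  obtain ⟨β, hβ⟩ := exists_ultralimit u n
  refine ⟨β, fun x => ?_⟩
  have h2 : ∀ᶠ T in (u : Filter (Finset C)), x ∈ T :=
    (Ultrafilter.of_le atTop) (eventually_ge_atTop ({x} : Finset C) |>.mono fun T hT => by
      exact hT (Finset.mem_singleton_self x))
  obtain ⟨T, h3, h4⟩ := (h2.and (hβ x (hCalg x x.2))).exists
  rw [hn T x h3]
  congr 1
  exact Subtype.ext h4

/-- elements fixed by the Galois group are purely inseparable -/
theorem fixed_insep [IsAlgClosed Ω] {F : Subfield Ω} {e : Ω} (he : IsAlgebraic F e)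
    (h : ∀ n ∈ Gam F, n e = e) (q : ℕ) [ExpChar Ω q] : ∃ m : ℕ, e ^ q ^ m ∈ F := by
  obtain ⟨m, hm⟩ := exists_pow_sep he q
  refine ⟨m, ?_⟩
  let K := separableClosure F Ω
  have hgal : IsGalois F K := inferInstance
  have h1 : (⟨e ^ q ^ m, hm⟩ : K) ∈ (⊥ : IntermediateField F K) := by
    rw [InfiniteGalois.mem_bot_iff_fixed]
    intro f
    obtain ⟨β, hβ, -⟩ := extend_aut (sep F) f.toRingEquiv ∅
      (algebraicIndependent_empty_type_iff.2 (algebraMap (sep F) Ω).injective)
    have hβF : β ∈ Gam F := by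
      intro x hx
      have h2 := hβ ⟨x, (separableClosure F Ω).algebraMap_mem ⟨x, hx⟩⟩
      have h3 := f.commutes ⟨x, hx⟩
      exact h2.trans (congrArg Subtype.val h3)
    apply Subtype.ext
    have h4 := hβ ⟨e ^ q ^ m, hm⟩
    have h5 : β (e ^ q ^ m) = e ^ q ^ m := by
      rw [map_pow, h β hβF]
    exact h4.symm.trans h5
  obtain ⟨y, hy⟩ := IntermediateField.mem_bot.1 h1
  have h2 := congrArg (Subtype.val : K → Ω) hy
  have h3 : (y : Ω) = e ^ q ^ m := h2
  rw [← h3]
  exact y.2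

end Pool.Agent.U745.FM
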