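import Mathlib

set_option autoImplicit false

namespace Pool.Agent.U745.FM

open Filter Topology

variable {Ω : Type} [Field Ω]

/-- automorphisms of `Ω` fixing all elements of `F` -/
def Gam (F : Subfield Ω) : Subgroup (RingAut Ω) where
  carrier := {g | ∀ x ∈ F, g x = x}
  mul_mem' := by
    intro a b ha hb x hx
    show a (b x) = x
    rw [hb x hx, ha x hx]
  one_mem' := fun x _ => rfl
  inv_mem' := by
    intro a ha x hx
    have h := ha x hx
    show a.symm x = x
    rw [RingEquiv.symm_apply_eq]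
    exact h.symm

theorem mem_Gam {F : Subfield Ω} {g : RingAut Ω} : g ∈ Gam F ↔ ∀ x ∈ F, g x = x := Iff.rfl

theorem Gam_mono {F F' : Subfield Ω} (h : F ≤ F') : Gam F' ≤ Gam F := fun _ hg x hx => hg x (h hx)

/-- neighbourhoods of `1` in the Krull topology -/
def nhOne (F : Subfield Ω) : Filter (Gam F) where
  sets := {S | ∃ s : Finset Ω, (∀ x ∈ s, IsAlgebraic F x) ∧
    ∀ g : Gam F, (∀ x ∈ s, g.1 x = x) → g ∈ S}
  univ_sets := ⟨∅, by simp, fun _ _ => Set.mem_univ _⟩
  sets_of_superset := by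
    rintro S T ⟨s, h1, h2⟩ hST
    exact ⟨s, h1, fun g hg => hST (h2 g hg)⟩
  inter_sets := by
    classical
    rintro S T ⟨s, h1, h2⟩ ⟨t, h3, h4⟩
    refine ⟨s ∪ t, ?_, ?_⟩
    · intro x hx
      rcases Finset.mem_union.1 hx with h | h
      · exact h1 x h
      · exact h3 x h
    · intro g hg
      exact ⟨h2 g fun x hx => hg x (Finset.mem_union_left _ hx),
        h4 g fun x hx => hg x (Finset.mem_union_right _ hx)⟩

theorem mem_nhOne {F : Subfield Ω} {S : Set (Gam F)} : S ∈ nhOne F ↔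
    ∃ s : Finset Ω, (∀ x ∈ s, IsAlgebraic F x) ∧ ∀ g : Gam F, (∀ x ∈ s, g.1 x = x) → g ∈ S :=
  Iff.rfl

variable {Λ : Type} [Field Λ]

/-- restriction of a representation to the group of a larger field -/
def res {F F' : Subfield Ω} (h : F ≤ F') {V : Type} [AddCommGroup V] [Module Λ V]
    (ρ : Representation Λ (Gam F) V) : Representation Λ (Gam F') V :=
  ρ.comp (Subgroup.inclusion (Gam_mono h))

theorem res_apply {F F' : Subfield Ω} (h : F ≤ F') {V : Type} [AddCommGroup V] [Module Λ V]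
    (ρ : Representation Λ (Gam F) V) (g : Gam F') :
    res h ρ g = ρ ⟨g.1, Gam_mono h g.2⟩ := rfl

/-- continuity of all matrix coefficients -/
def Cont [TopologicalSpace Λ] {F : Subfield Ω} {V : Type} [AddCommGroup V] [Module Λ V]
    (ρ : Representation Λ (Gam F) V) : Prop :=
  ∀ (v : V) (φ : V →ₗ[Λ] Λ), Tendsto (fun g => φ (ρ g v)) (nhOne F) (𝓝 (φ v))

/-- irreducible -/
def Irr {F : Subfield Ω} {V : Type} [AddCommGroup V] [Module Λ V]
    (ρ : Representation Λ (Gam F) V) : Prop :=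
  (∃ v : V, v ≠ 0) ∧ ∀ W : Submodule Λ V, (∀ g, ∀ w ∈ W, ρ g w ∈ W) → W = ⊥ ∨ W = ⊤

/-- semisimple -/
def Semi {F : Subfield Ω} {V : Type} [AddCommGroup V] [Module Λ V]
    (ρ : Representation Λ (Gam F) V) : Prop :=
  ∀ W : Submodule Λ V, (∀ g, ∀ w ∈ W, ρ g w ∈ W) →
    ∃ W' : Submodule Λ V, (∀ g, ∀ w ∈ W', ρ g w ∈ W') ∧ IsCompl W W'

/-- `f` commutes with the actions -/
def Equi {F : Subfield Ω} {V W : Type} [AddCommGroup V] [Module Λ V] [AddCommGroup W] [Module Λ W]
    (ρ : Representation Λ (Gam F) V) (ρ' : Representation Λ (Gam F) W) (f : V →ₗ[Λ] W) : Prop :=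
  ∀ g v, f (ρ g v) = ρ' g (f v)

/-- the ring `k[s]` -/
def ringAdj (k : Subfield Ω) (s : Set Ω) : Subring Ω := Subring.closure ((k : Set Ω) ∪ s)

/-- the field `k(s)` -/
def fieldAdj (k : Subfield Ω) (s : Set Ω) : Subfield Ω := Subfield.closure ((k : Set Ω) ∪ s)

/-- `g` is in the inertia group at the ideal `P` of the integral closure of `R` in `Ω` -/
def InInertia (R : Subring Ω) (P : Ideal (integralClosure R Ω)) (g : RingAut Ω) : Prop :=
  ∀ y : integralClosure R Ω, ∃ z ∈ P, (z : Ω) = g y - y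

/-- unramified over `R` -/
def Lisse {F : Subfield Ω} {V : Type} [AddCommGroup V] [Module Λ V] (R : Subring Ω)
    (ρ : Representation Λ (Gam F) V) : Prop :=
  ∀ P : Ideal (integralClosure R Ω), P.IsPrime → ∀ g : Gam F, InInertia R P g.1 → ρ g = 1

/-- the elements of `Ω` separable algebraic over `k` -/
def sep (k : Subfield Ω) : Subfield Ω := (separableClosure k Ω).toSubfield

/-- the compositum of `F` and the separable closure of `k` -/
def geo (k F : Subfield Ω) : Subfield Ω := F ⊔ sep k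

theorem le_geo (k F : Subfield Ω) : F ≤ geo k F := le_sup_left

theorem subset_ringAdj (k : Subfield Ω) (s : Set Ω) : (k : Set Ω) ∪ s ⊆ ringAdj k s :=
  Subring.subset_closure

theorem subset_fieldAdj (k : Subfield Ω) (s : Set Ω) : (k : Set Ω) ∪ s ⊆ fieldAdj k s :=
  Subfield.subset_closure

theorem le_fieldAdj (k : Subfield Ω) (s : Set Ω) : k ≤ fieldAdj k s :=
  fun _ hx => subset_fieldAdj k s (Or.inl hx)

theorem mem_fieldAdj {k : Subfield Ω} {s : Set Ω} {x : Ω} (hx : x ∈ s) : x ∈ fieldAdj k s :=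
  subset_fieldAdj k s (Or.inr hx)

theorem fieldAdj_le {k L : Subfield Ω} {s : Set Ω} : fieldAdj k s ≤ L ↔ k ≤ L ∧ s ⊆ L := by
  unfold fieldAdj
  rw [Subfield.closure_le, Set.union_subset_iff]
  exact Iff.rfl

theorem ringAdj_le {k : Subfield Ω} {R : Subring Ω} {s : Set Ω} :
    ringAdj k s ≤ R ↔ (k : Set Ω) ⊆ R ∧ s ⊆ R := by
  unfold ringAdj
  rw [Subring.closure_le, Set.union_subset_iff]

theorem ringAdj_sub_fieldAdj (k : Subfield Ω) (s : Set Ω) :
    (ringAdj k s : Set Ω) ⊆ fieldAdj k s := by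
  have h : ringAdj k s ≤ (fieldAdj k s).toSubring := by
    rw [ringAdj_le]
    exact ⟨fun x hx => le_fieldAdj k s hx, fun x hx => mem_fieldAdj hx⟩
  exact h

/-- an automorphism fixing `k` and `s` fixes `k(s)` -/
theorem mem_Gam_fieldAdj {k : Subfield Ω} {s : Set Ω} {g : RingAut Ω} :
    g ∈ Gam (fieldAdj k s) ↔ g ∈ Gam k ∧ ∀ x ∈ s, g x = x := by
  constructor
  · intro h
    exact ⟨fun x hx => h x (le_fieldAdj k s hx), fun x hx => h x (mem_fieldAdj hx)⟩
  · rintro ⟨h1, h2⟩ x hx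
    have : fieldAdj k s ≤ (RingHom.eqLocusField (g : Ω →+* Ω) (RingHom.id Ω)) := by
      rw [fieldAdj_le]
      exact ⟨fun x hx => h1 x hx, fun x hx => h2 x hx⟩
    exact this hx

end Pool.Agent.U745.FM
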