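import Pool.Agent.U745.FM.Core

set_option autoImplicit false

namespace Pool.Agent.U745.FM

open Polynomial

variable {Ω : Type} [Field Ω]

theorem mem_intCl {R : Subring Ω} {x : Ω} : x ∈ integralClosure R Ω ↔ IsIntegral R x := Iff.rfl

/-- inertia fixes the roots of polynomials with unit derivative -/
theorem fixes_of_unit {R : Subring Ω} {P : Ideal (integralClosure R Ω)} (hP : P.IsPrime)
    {g : RingAut Ω} (hg : InInertia R P g) {x : Ω} (hx : IsIntegral R x) (G : Polynomial Ω)
    (h1 : ∀ i, IsIntegral R (G.coeff i)) (h2 : ∀ i, g (G.coeff i) = G.coeff i)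
    (h3 : G.eval x = 0) (h4 : IsIntegral R (G.derivative.eval x)⁻¹)
    (h5 : G.derivative.eval x ≠ 0) : g x = x := by
  obtain ⟨G0, hG0⟩ : ∃ G0 : Polynomial (integralClosure R Ω),
      G0.map (algebraMap (integralClosure R Ω) Ω) = G := by
    have : G ∈ Polynomial.lifts (algebraMap (integralClosure R Ω) Ω) := by
      rw [Polynomial.lifts_iff_coeff_lifts]
      intro i
      exact ⟨⟨G.coeff i, h1 i⟩, rfl⟩
    exact this
  set x0 : integralClosure R Ω := ⟨x, hx⟩ with hx0
  obtain ⟨z, hz, hz'⟩ := hg x0
  have hev0 : ∀ (H : Polynomial (integralClosure R Ω)) (y : integralClosure R Ω),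
      ((H.eval y : integralClosure R Ω) : Ω) =
        (H.map (algebraMap (integralClosure R Ω) Ω)).eval (y : Ω) := by
    intro H y
    rw [Polynomial.eval_map]
    exact (Polynomial.eval₂_at_apply (algebraMap (integralClosure R Ω) Ω) y).symm
  have hev : ∀ y : integralClosure R Ω, ((G0.eval y : integralClosure R Ω) : Ω) = G.eval (y : Ω) := by
    intro y
    rw [hev0, hG0]
  have hev' : ((G0.derivative.eval x0 : integralClosure R Ω) : Ω) = G.derivative.eval x := by
    rw [hev0, ← Polynomial.derivative_map, hG0]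
  have hgx : g x = ((x0 + z : integralClosure R Ω) : Ω) := by
    have : ((x0 + z : integralClosure R Ω) : Ω) = x + (z : Ω) := rfl
    rw [this, hz']
    show g x = x + (g x - x)
    ring
  have e1 : G0.eval x0 = 0 := by
    apply Subtype.ext
    rw [hev]
    exact h3
  have e2 : G0.eval (x0 + z) = 0 := by
    apply Subtype.ext
    rw [hev, ← hgx]
    show G.eval (g x) = 0
    have h6 : G.map (g : Ω →+* Ω) = G := by
      ext i
      rw [coeff_map]
      exact h2 i
    have h7 : G.eval (g x) = g (G.eval x) := by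
      conv_lhs => rw [← h6]
      rw [Polynomial.eval_map]
      exact (Polynomial.hom_eval₂ G (RingHom.id Ω) (g : Ω →+* Ω) x).symm
    rw [h7, h3, map_zero]
  obtain ⟨k, hk⟩ := Polynomial.binomExpansion G0 x0 z
  rw [e1, e2, zero_add] at hk
  by_cases hz0 : z = 0
  · rw [hgx, hz0, add_zero]
  · exfalso
    have h8 : G0.derivative.eval x0 = - (k * z) := by
      have h9 : z * (G0.derivative.eval x0 + k * z) = 0 := by
        rw [mul_add]
        rw [show z * Polynomial.eval x0 (Polynomial.derivative G0) + z * (k * z) =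
          Polynomial.eval x0 (Polynomial.derivative G0) * z + k * z ^ 2 by ring]
        exact hk.symm
      rcases mul_eq_zero.1 h9 with h | h
      · exact absurd h hz0
      · exact eq_neg_of_add_eq_zero_left h
    have h10 : G0.derivative.eval x0 ∈ P := by
      rw [h8]
      exact P.neg_mem (P.mul_mem_left _ hz)
    apply hP.ne_top
    rw [Ideal.eq_top_iff_one]
    have h11 : (⟨_, h4⟩ : integralClosure R Ω) * G0.derivative.eval x0 = 1 := by
      apply Subtype.ext
      show (G.derivative.eval x)⁻¹ * ((G0.derivative.eval x0 : integralClosure R Ω) : Ω) = 1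
      rw [hev', inv_mul_cancel₀ h5]
    rw [← h11]
    exact P.mul_mem_left _ h10

/-- integrality is transitive -/
theorem integral_trans {R R' : Subring Ω} (h : ∀ x ∈ R, IsIntegral R' x) {x : Ω}
    (hx : IsIntegral R x) : IsIntegral R' x := by
  have hle : ∀ y ∈ R, y ∈ (integralClosure R' Ω).toSubring := fun y hy => h y hy
  have h2 : IsIntegral (integralClosure R' Ω) x := by
    obtain ⟨p, hp1, hp2⟩ := hx
    let f : R →+* (integralClosure R' Ω) :=
      { toFun := fun y => ⟨y, hle y y.2⟩
        map_one' := rfl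
        map_mul' := fun _ _ => rfl
        map_zero' := rfl
        map_add' := fun _ _ => rfl }
    refine ⟨p.map f, hp1.map f, ?_⟩
    rw [Polynomial.eval₂_map]
    exact hp2
  exact isIntegral_trans _ h2

theorem integral_fixed {R : Subring Ω} {g : RingAut Ω} (hR : ∀ x ∈ R, g x = x) {x : Ω}
    (hx : IsIntegral R x) : IsIntegral R (g x) := by
  obtain ⟨p, hp1, hp2⟩ := hx
  refine ⟨p, hp1, ?_⟩
  have h1 : (g : Ω →+* Ω).comp (algebraMap R Ω) = algebraMap R Ω := by
    ext y
    exact hR y y.2
  have h2 := Polynomial.hom_eval₂ p (algebraMap R Ω) (g : Ω →+* Ω) x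
  rw [hp2, map_zero, h1] at h2
  exact h2.symm

/-- restriction of inertia to smaller rings -/
theorem inertia_mono {R R' : Subring Ω} (h : ∀ x ∈ R, IsIntegral R' x) {P : Ideal (integralClosure R' Ω)}
    (hP : P.IsPrime) {g : RingAut Ω} (hg : InInertia R' P g) (hR : ∀ x ∈ R, g x = x) :
    ∃ Q : Ideal (integralClosure R Ω), Q.IsPrime ∧ InInertia R Q g := by
  let f : integralClosure R Ω →+* integralClosure R' Ω :=
    { toFun := fun y => ⟨y, integral_trans h y.2⟩
      map_one' := rfl
      map_mul' := fun _ _ => rfl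
      map_zero' := rfl
      map_add' := fun _ _ => rfl }
  refine ⟨P.comap f, hP.comap f, ?_⟩
  intro y
  obtain ⟨z, hz, hz'⟩ := hg (f y)
  have hgy : g y ∈ integralClosure R Ω := by
    exact integral_fixed hR y.2
  refine ⟨⟨g y, hgy⟩ - y, ?_, rfl⟩
  rw [Ideal.mem_comap]
  have : f (⟨g y, hgy⟩ - y) = z := by
    apply Subtype.ext
    rw [hz']
    rfl
  rw [this]
  exact hz

end Pool.Agent.U745.FM
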