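import Pool.Agent.U745.FM.Alg

set_option autoImplicit false

namespace Pool.Agent.U745.FM

variable {Ω : Type} [Field Ω]

/-- automorphisms of subfields extend, fixing given independent elements -/
theorem extend_aut [IsAlgClosed Ω] (L : Subfield Ω) (α : L ≃+* L) (s : Set Ω)
    (hs : AlgebraicIndepOn L id s) :
    ∃ β : RingAut Ω, (∀ x : L, β x = α x) ∧ ∀ x ∈ s, β x = x := by
  obtain ⟨B, hsB, hB⟩ := exists_isTranscendenceBasis_superset hs
  let v : B → Ω := Subtype.val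
  let A := Algebra.adjoin L (Set.range v)
  let _ : IsAlgClosure A Ω := IsAlgClosed.isAlgClosure_of_transcendence_basis v hB
  let e0 : MvPolynomial B L ≃ₐ[L] A := hB.1.aevalEquiv
  let e : A ≃+* A := (e0.symm.toRingEquiv.trans (MvPolynomial.mapEquiv B α)).trans e0.toRingEquiv
  let β : Ω ≃+* Ω := IsAlgClosure.equivOfEquiv Ω Ω e
  have hβ : ∀ a : A, β (a : Ω) = (e a : Ω) := fun a =>
    IsAlgClosure.equivOfEquiv_algebraMap Ω Ω e a
  have he0 : ∀ p : MvPolynomial B L, ((e0 p : A) : Ω) = MvPolynomial.aeval v p := by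
    intro p
    exact hB.1.algebraMap_aevalEquiv p
  have hee : ∀ p : MvPolynomial B L, e (e0 p) = e0 (MvPolynomial.map (α : L →+* L) p) := by
    intro p
    show e0 (MvPolynomial.mapEquiv B α (e0.symm (e0 p))) = _
    rw [e0.symm_apply_apply]
    rfl
  refine ⟨β, fun x => ?_, fun x hx => ?_⟩
  · have h1 := hβ (e0 (MvPolynomial.C x))
    rw [hee, he0, he0, MvPolynomial.map_C, MvPolynomial.aeval_C, MvPolynomial.aeval_C] at h1
    exact h1
  · have h1 := hβ (e0 (MvPolynomial.X ⟨x, hsB hx⟩))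
    rw [hee, he0, he0, MvPolynomial.map_X, MvPolynomial.aeval_X] at h1
    exact h1

/-- the action of `g` on an invariant subfield -/
def restrictAut (L : Subfield Ω) (g : RingAut Ω) (h1 : ∀ x ∈ L, g x ∈ L)
    (h2 : ∀ x ∈ L, (g⁻¹ : RingAut Ω) x ∈ L) : L ≃+* L where
  toFun x := ⟨g x, h1 x x.2⟩
  invFun x := ⟨(g⁻¹ : RingAut Ω) x, h2 x x.2⟩
  left_inv x := Subtype.ext (RingEquiv.symm_apply_apply g x.1)
  right_inv x := Subtype.ext (RingEquiv.apply_symm_apply g x.1)
  map_mul' _ _ := Subtype.ext (map_mul g _ _)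
  map_add' _ _ := Subtype.ext (map_add g _ _)

theorem gam_alg {k : Subfield Ω} {g : RingAut Ω} (hg : g ∈ Gam k) {x : Ω}
    (hx : IsAlgebraic k x) : IsAlgebraic k (g x) := by
  obtain ⟨p, hp0, hp⟩ := hx
  refine ⟨p, hp0, ?_⟩
  have h3 : (g : Ω →+* Ω).comp (algebraMap k Ω) = algebraMap k Ω := by
    ext y
    exact hg y y.2
  have h4 := Polynomial.hom_eval₂ p (algebraMap k Ω) (g : Ω →+* Ω) x
  rw [h3] at h4
  rw [Polynomial.aeval_def] at hp ⊢
  rw [hp, map_zero] at h4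
  exact h4.symm

/-- automorphisms of the algebraic closure of `k` lift, fixing a transcendental element -/
theorem lift_trans [IsAlgClosed Ω] {k : Subfield Ω} {y : Ω} (hy : Transcendental k y)
    (g : RingAut Ω) (hg : g ∈ Gam k) :
    ∃ β : RingAut Ω, (∀ x ∈ alg k, β x = g x) ∧ β y = y := by
  have h1 : ∀ x ∈ alg k, g x ∈ alg k := fun x hx => mem_alg.2 (gam_alg hg (mem_alg.1 hx))
  have h2 : ∀ x ∈ alg k, (g⁻¹ : RingAut Ω) x ∈ alg k := fun x hx =>
    mem_alg.2 (gam_alg ((Gam k).inv_mem hg) (mem_alg.1 hx))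
  have hy' : Transcendental (alg k) y := fun h =>
    hy (alg_trans (fun z hz => mem_alg.1 hz) h)
  obtain ⟨β, hβ1, hβ2⟩ := extend_aut (alg k) (restrictAut (alg k) g h1 h2) {y}
    ((algebraicIndependent_singleton_iff (R := alg k) (x := fun i : ({y} : Set Ω) => (i : Ω))
      ⟨y, rfl⟩).2 hy')
  exact ⟨β, fun x hx => hβ1 ⟨x, hx⟩, hβ2 y rfl⟩

end Pool.Agent.U745.FM
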