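import Pool.Agent.U745.FM.Induct

set_option autoImplicit false

namespace Pool.Agent.U745.FM

open Filter Topology

variable {Ω : Type} [Field Ω] {Λ : Type} [Field Λ]

/-- the question for semisimple sheaves -/
def Question [TopologicalSpace Λ] (𝒢 : RepClass Ω Λ) (k F : Subfield Ω) : Prop :=
  ∀ (V : Type) [AddCommGroup V] [Module Λ V] [FiniteDimensional Λ V]
    (ρ : Representation Λ (Gam F) V), Semi ρ → Cont ρ → Spread k ρ →
    𝒢 (geo k F) V (res (le_geo k F) ρ)

theorem semi_of_irr {F : Subfield Ω} {V : Type} [AddCommGroup V] [Module Λ V]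
    {ρ : Representation Λ (Gam F) V} (h : Irr ρ) : Semi ρ := by
  intro W hW
  rcases h.2 W hW with rfl | rfl
  · exact ⟨⊤, fun _ _ _ => Submodule.mem_top, isCompl_bot_top⟩
  · refine ⟨⊥, fun g w hw => ?_, isCompl_top_bot⟩
    rw [(Submodule.mem_bot Λ).1 hw, map_zero]
    exact Submodule.zero_mem _

theorem semi_sub {F : Subfield Ω} {V : Type} [AddCommGroup V] [Module Λ V]
    {ρ : Representation Λ (Gam F) V} (h : Semi ρ) (W : Submodule Λ V)
    (hW : ∀ g, ∀ w ∈ W, ρ g w ∈ W) : Semi (subRep ρ W hW) := by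
  intro U hU
  obtain ⟨U', hU', hc⟩ := h (U.map W.subtype) (by
    rintro g _ ⟨w, hw, rfl⟩
    exact ⟨subRep ρ W hW g w, hU g w hw, rfl⟩)
  refine ⟨U'.comap W.subtype, ?_, ?_⟩
  · intro g w hw
    exact hU' g _ hw
  · constructor
    · rw [Submodule.disjoint_def]
      intro w h1 h2
      apply Subtype.ext
      exact (Submodule.disjoint_def.1 hc.disjoint) w ⟨w, h1, rfl⟩ h2
    · rw [codisjoint_iff, eq_top_iff]
      intro w _
      have h1 : (w : V) ∈ U.map W.subtype ⊔ U' := by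
        rw [codisjoint_iff.1 hc.codisjoint]
        exact Submodule.mem_top
      obtain ⟨a, ⟨a', ha', haa⟩, b, hb, hab⟩ := Submodule.mem_sup.1 h1
      have hbW : b ∈ W := by
        have : b = w - a := by rw [← hab]; abel
        rw [this, ← haa]
        exact Submodule.sub_mem _ w.2 a'.2
      refine Submodule.mem_sup.2 ⟨a', ha', ⟨b, hbW⟩, hb, ?_⟩
      apply Subtype.ext
      rw [← hab, ← haa]
      rfl

theorem exists_split [TopologicalSpace Λ] {k F : Subfield Ω} {V : Type} [AddCommGroup V]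
    [Module Λ V] [FiniteDimensional Λ V] (ρ : Representation Λ (Gam F) V) (hV : ∃ v : V, v ≠ 0)
    (hsemi : Semi ρ) (hcont : Cont ρ) (hspread : Spread k ρ) :
    ∃ (A : Type) (_ : AddCommGroup A) (_ : Module Λ A) (_ : FiniteDimensional Λ A)
      (B : Type) (_ : AddCommGroup B) (_ : Module Λ B) (_ : FiniteDimensional Λ B)
      (α : Representation Λ (Gam F) A) (β : Representation Λ (Gam F) B)
      (f : A →ₗ[Λ] V) (g : B →ₗ[Λ] V), Equi α ρ f ∧ Equi β ρ g ∧
      (∀ v, ∃ a b, v = f a + g b) ∧ Irr α ∧ Cont α ∧ Spread k α ∧ Semi β ∧ Cont β ∧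
      Spread k β ∧ Module.finrank Λ B < Module.finrank Λ V := by
  obtain ⟨W, hW, hirr⟩ := exists_irr ρ hV
  obtain ⟨W', hW', hc⟩ := hsemi W hW
  have hsp : ∀ (U : Submodule Λ V) (hU : ∀ g, ∀ w ∈ U, ρ g w ∈ U), Spread k (subRep ρ U hU) := by
    intro U hU
    obtain ⟨s, hs, hl⟩ := hspread
    exact ⟨s, hs, lisse_sub U.subtype (Submodule.injective_subtype U) (fun g v => rfl) hl⟩
  have hco : ∀ (U : Submodule Λ V) (hU : ∀ g, ∀ w ∈ U, ρ g w ∈ U), Cont (subRep ρ U hU) := by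
    intro U hU
    exact cont_sub U.subtype (Submodule.injective_subtype U) (fun g v => rfl) hcont
  have hlt : Module.finrank Λ W' < Module.finrank Λ V := by
    apply Submodule.finrank_lt
    intro htop
    have hbot : W = ⊥ := by
      have := hc.disjoint
      rw [htop, disjoint_top] at this
      exact this
    obtain ⟨w, hw⟩ := hirr.1
    apply hw
    apply Subtype.ext
    have h2 : ∀ z : V, z ∈ W → z = 0 := by
      intro z hz
      rw [hbot] at hz
      exact (Submodule.mem_bot Λ).1 hz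
    exact h2 w w.2
  refine ⟨W, inferInstance, inferInstance, inferInstance, W', inferInstance, inferInstance,
    inferInstance, subRep ρ W hW, subRep ρ W' hW', W.subtype, W'.subtype, fun _ _ => rfl,
    fun _ _ => rfl, ?_, hirr, hco W hW, hsp W hW, semi_sub hsemi W' hW', hco W' hW', hsp W' hW',
    hlt⟩
  intro v
  have h4 : v ∈ W ⊔ W' := by
    rw [codisjoint_iff.1 hc.codisjoint]
    exact Submodule.mem_top
  obtain ⟨a, ha, b, hb, hab⟩ := Submodule.mem_sup.1 h4
  exact ⟨⟨a, ha⟩, ⟨b, hb⟩, hab.symm⟩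

theorem glue [TopologicalSpace Λ] (𝒢 : RepClass Ω Λ) (h𝒢 : Known 𝒢)
    {k F : Subfield Ω} (hk : FG k) (hF : FG F) (hkF : k ≤ F) {V A B : Type} [AddCommGroup V]
    [Module Λ V] [AddCommGroup A] [Module Λ A] [AddCommGroup B] [Module Λ B]
    (ρ : Representation Λ (Gam F) V) (α : Representation Λ (Gam F) A)
    (β : Representation Λ (Gam F) B) (f : A →ₗ[Λ] V) (g : B →ₗ[Λ] V) (hf : Equi α ρ f)
    (hg : Equi β ρ g) (h : ∀ v, ∃ a b, v = f a + g b)
    (h1 : 𝒢 (geo k F) A (res (le_geo k F) α)) (h2 : 𝒢 (geo k F) B (res (le_geo k F) β)) :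
    𝒢 (geo k F) V (res (le_geo k F) ρ) := by
  have h3 := h𝒢.prod k F A B _ _ hk hF hkF h1 h2
  refine h𝒢.quot (geo k F) (A × B) V _ _ (LinearMap.coprod f g) ?_ ?_ h3
  · intro v
    obtain ⟨a, b, hab⟩ := h v
    refine ⟨(a, b), ?_⟩
    rw [hab]
    rfl
  · rintro γ ⟨a, b⟩
    have e1 := hf ⟨γ.1, Gam_mono (le_geo k F) γ.2⟩ a
    have e2 := hg ⟨γ.1, Gam_mono (le_geo k F) γ.2⟩ b
    refine (congrArg₂ (· + ·) e1 e2).trans ?_
    exact ((ρ ⟨γ.1, Gam_mono (le_geo k F) γ.2⟩).map_add (f a) (g b)).symm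

theorem claim_semi [TopologicalSpace Λ] (𝒢 : RepClass Ω Λ) (h𝒢 : Known 𝒢)
    {k F : Subfield Ω} (hk : FG k) (hF : FG F) (hkF : k ≤ F) (h : Claim 𝒢 k F) :
    Question 𝒢 k F := by
  have key : ∀ n : ℕ, ∀ (V : Type) [AddCommGroup V] [Module Λ V] [FiniteDimensional Λ V]
      (ρ : Representation Λ (Gam F) V), Module.finrank Λ V < n → Semi ρ → Cont ρ → Spread k ρ →
      𝒢 (geo k F) V (res (le_geo k F) ρ) := by
    intro n
    induction n with
    | zero =>
      intro V _ _ _ ρ hn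
      exact absurd hn (Nat.not_lt_zero _)
    | succ n ih =>
      intro V _ _ _ ρ hn hsemi hcont hspread
      by_cases hV : ∃ v : V, v ≠ 0
      · obtain ⟨A, a1, a2, a3, B, b1, b2, b3, α, β, f, g, hf, hg, hfg, h1, h2, h3, h4, h5, h6,
          h7⟩ := exists_split ρ hV hsemi hcont hspread
        exact glue 𝒢 h𝒢 hk hF hkF ρ α β f g hf hg hfg (h A α h1 h2 h3)
          (ih B β (lt_of_lt_of_le h7 (Nat.lt_succ_iff.1 hn)) h4 h5 h6)
      · have h1 : ∀ v : V, v = 0 := fun v => by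
          by_contra h
          exact hV ⟨v, h⟩
        refine h𝒢.triv _ _ _ fun g => ?_
        apply LinearMap.ext
        intro v
        exact (h1 _).trans (h1 _).symm
  intro V _ _ _ ρ h1 h2 h3
  exact key _ V ρ (Nat.lt_succ_self _) h1 h2 h3

theorem isFF_le {k F : Subfield Ω} {n : ℕ} (h : IsFF k F n) : k ≤ F := by
  obtain ⟨t, θ, -, -, rfl⟩ := h
  exact le_fieldAdj _ _

theorem isFF_FG {k F : Subfield Ω} {n : ℕ} (hk : FG k) (h : IsFF k F n) : FG F := by
  classical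
  obtain ⟨t, θ, -, -, rfl⟩ := h
  have h1 := fg_fieldAdj hk (insert θ (Finset.univ.image t))
  have h2 : ((insert θ (Finset.univ.image t) : Finset Ω) : Set Ω) = insert θ (Set.range t) := by
    simp
  rwa [h2] at h1

theorem res_res {F F' F'' : Subfield Ω} (h : F ≤ F') (h' : F' ≤ F'') {V : Type}
    [AddCommGroup V] [Module Λ V] (ρ : Representation Λ (Gam F) V) :
    res h' (res h ρ) = res (h.trans h') ρ := rfl

theorem question_line [TopologicalSpace Λ] (𝒢 : RepClass Ω Λ) (h𝒢 : Known 𝒢)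
    {k k1 F : Subfield Ω} (hk : k ≤ k1) (h : Question 𝒢 k F) (V : Type) [AddCommGroup V]
    [Module Λ V] [FiniteDimensional Λ V] (ρ : Representation Λ (Gam F) V) (h1 : Irr ρ)
    (h2 : Cont ρ) (h3 : Spread k ρ) : 𝒢 (geo k1 F) V (res (le_geo k1 F) ρ) := by
  have h4 := h V ρ (semi_of_irr h1) h2 h3
  have h5 := h𝒢.restr _ _ (geo_mono hk le_rfl) V _ h4
  rwa [res_res] at h5

theorem isFF_line {k : Subfield Ω} {i : ℕ} {t : Fin i → Ω} (ht : AlgebraicIndependent k t) {y : Ω}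
    (hy : Transcendental (fieldAdj k (Set.range t)) y) :
    IsFF k (fieldAdj (fieldAdj k (Set.range t)) {y}) (i + 1) := by
  have ht' : (fun j : Fin i => (Fin.snoc t y : Fin (i + 1) → Ω) j.castSucc) = t := by
    funext j
    exact Fin.snoc_castSucc (α := fun _ => Ω) y t j
  have hl' : (Fin.snoc t y : Fin (i + 1) → Ω) (Fin.last i) = y :=
    Fin.snoc_last (α := fun _ => Ω) y t
  have hr : Set.range (Fin.snoc t y : Fin (i + 1) → Ω) = insert y (Set.range t) := by
    ext z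
    constructor
    · rintro ⟨j, rfl⟩
      refine Fin.lastCases ?_ (fun l => ?_) j
      · rw [hl']
        exact Set.mem_insert _ _
      · exact Set.mem_insert_of_mem _ ⟨l, (congrFun ht' l).symm⟩
    · rintro (rfl | ⟨l, rfl⟩)
      · exact ⟨_, hl'⟩
      · exact ⟨_, congrFun ht' l⟩
  refine ⟨Fin.snoc t y, 1, ?_, ?_, ?_⟩
  · rw [indep_last, ht', hl']
    exact ⟨ht, hy⟩
  · exact isSeparable_algebraMap (F := fieldAdj k _) (K := Ω) 1
  · rw [fieldAdj_fieldAdj, hr, Set.union_singleton]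
    refine le_antisymm (fieldAdj_mono (Set.subset_insert _ _)) ?_
    rw [fieldAdj_le]
    refine ⟨le_fieldAdj _ _, ?_⟩
    rintro z (rfl | hz)
    · exact one_mem _
    · exact mem_fieldAdj hz

/-- the main theorem -/
theorem main [IsAlgClosed Ω] [TopologicalSpace Λ] [IsTopologicalRing Λ] [T2Space Λ]
    (𝒢 : RepClass Ω Λ) (h𝒢 : Known 𝒢) (k : Subfield Ω) (hk : FG k) (n : ℕ) :
    (∀ m ≤ n, ∀ F : Subfield Ω, IsFF k F m → Question 𝒢 k F) ↔
      ∀ i < n, ∀ t : Fin i → Ω, AlgebraicIndependent k t →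
        Lines 𝒢 k (fieldAdj k (Set.range t)) := by
  constructor
  · intro h i hi t ht y hy S hS hS' V _ _ _ ρ hirr hcont hl hsp
    exact question_line 𝒢 h𝒢 (le_fieldAdj _ _) (h (i + 1) hi _ (isFF_line ht hy)) V ρ hirr hcont
      hsp
  · intro h m hm F hF
    exact claim_semi 𝒢 h𝒢 hk (isFF_FG hk hF) (isFF_le hF)
      (induct 𝒢 h𝒢 k hk m (fun i hi => h i (lt_of_lt_of_le hi hm)) F hF)

end Pool.Agent.U745.FM
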