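import Pool.Agent.U745.FM.Final

set_option autoImplicit false

namespace Pool.Agent.U745.FM

open Filter Topology

variable {Ω : Type} [Field Ω] {Λ : Type} [Field Λ]

/-- the question for lines over `k` -/
def LineQ [TopologicalSpace Λ] (𝒢 : RepClass Ω Λ) (k : Subfield Ω) : Prop :=
  ∀ (y : Ω), Transcendental k y → ∀ S : Finset Ω, (∀ a ∈ S, a ∈ k) → (¬ CharZero Ω → S = ∅) →
  ∀ (V : Type) [AddCommGroup V] [Module Λ V] [FiniteDimensional Λ V]
    (ρ : Representation Λ (Gam (fieldAdj k {y})) V), Semi ρ → Cont ρ →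
    Lisse (lineRing k y S) ρ → 𝒢 (geo k (fieldAdj k {y})) V (res (le_geo k _) ρ)

theorem spread_line [TopologicalSpace Λ] {k : Subfield Ω} {y : Ω} {S : Finset Ω}
    (hS : ∀ a ∈ S, a ∈ k) {V : Type} [AddCommGroup V] [Module Λ V]
    {ρ : Representation Λ (Gam (fieldAdj k {y})) V} (h : Lisse (lineRing k y S) ρ) :
    Spread k ρ := by
  classical
  have hc : ((insert y (S.image fun a => (y - a)⁻¹) : Finset Ω) : Set Ω) =
      insert y ((fun a => (y - a)⁻¹) '' (S : Set Ω)) := by
    simp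
  refine ⟨insert y (S.image fun a => (y - a)⁻¹), ?_, ?_⟩
  · rw [hc]
    refine le_antisymm (fieldAdj_mono ?_) ?_
    · intro z hz
      rw [Set.mem_singleton_iff.1 hz]
      exact Set.mem_insert _ _
    · rw [fieldAdj_le]
      refine ⟨le_fieldAdj _ _, ?_⟩
      rintro z (rfl | ⟨a, ha, rfl⟩)
      · exact mem_fieldAdj rfl
      · show _ ∈ fieldAdj k {y}
        exact inv_mem (sub_mem (mem_fieldAdj rfl) (le_fieldAdj _ _ (hS a ha)))
  · rw [hc]
    exact h

theorem main_all [IsAlgClosed Ω] [TopologicalSpace Λ] [IsTopologicalRing Λ] [T2Space Λ]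
    (𝒢 : RepClass Ω Λ) (h𝒢 : Known 𝒢) :
    (∀ k : Subfield Ω, FG k → ∀ (n : ℕ) (F : Subfield Ω), IsFF k F n → Question 𝒢 k F) ↔
      ∀ k : Subfield Ω, FG k → LineQ 𝒢 k := by
  constructor
  · intro h k hk y hy S hS hS' V _ _ _ ρ hsemi hcont hl
    have ht : AlgebraicIndependent k (Fin.elim0 : Fin 0 → Ω) :=
      algebraicIndependent_empty_type_iff.2 (algebraMap k Ω).injective
    have hr : fieldAdj k (Set.range (Fin.elim0 : Fin 0 → Ω)) = k := by
      rw [Set.range_eq_empty, fieldAdj_empty]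
    have h1 := isFF_line ht (y := y) (by rwa [hr])
    rw [hr] at h1
    exact h k hk _ _ h1 V ρ hsemi hcont (spread_line hS hl)
  · intro h k hk n F hF
    classical
    refine (main 𝒢 h𝒢 k hk n).2 ?_ n le_rfl F hF
    intro i _ t _ y hy S hS hS' V _ _ _ ρ hirr hcont hl _
    have hFG : FG (fieldAdj k (Set.range t)) := by
      have h1 := fg_fieldAdj hk (Finset.univ.image t)
      have h2 : ((Finset.univ.image t : Finset Ω) : Set Ω) = Set.range t := by simp
      rwa [h2] at h1
    exact h _ hFG y hy S hS hS' V ρ (semi_of_irr hirr) hcont hl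

end Pool.Agent.U745.FM
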