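import Pool.Agent.U745.FM.Spread
import Pool.Agent.U745.FM.Alg

set_option autoImplicit false

namespace Pool.Agent.U745.FM

open Filter Topology

variable {Ω : Type} [Field Ω] {Λ : Type} [Field Λ]

/-- restriction of a representation to an invariant subspace -/
def subRep {F : Subfield Ω} {V : Type} [AddCommGroup V] [Module Λ V]
    (ρ : Representation Λ (Gam F) V) (W : Submodule Λ V) (hW : ∀ g, ∀ w ∈ W, ρ g w ∈ W) :
    Representation Λ (Gam F) W where
  toFun g := (ρ g).restrict (hW g)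
  map_one' := by
    ext w
    simp
  map_mul' g h := by
    ext w
    simp

theorem subRep_apply {F : Subfield Ω} {V : Type} [AddCommGroup V] [Module Λ V]
    (ρ : Representation Λ (Gam F) V) (W : Submodule Λ V) (hW : ∀ g, ∀ w ∈ W, ρ g w ∈ W)
    (g : Gam F) (w : W) : ((subRep ρ W hW g w : W) : V) = ρ g w := rfl

/-- a nonzero finite dimensional representation has an irreducible subrepresentation -/
theorem exists_irr {F : Subfield Ω} {V : Type} [AddCommGroup V] [Module Λ V]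
    [FiniteDimensional Λ V] (ρ : Representation Λ (Gam F) V) (hV : ∃ v : V, v ≠ 0) :
    ∃ (W : Submodule Λ V) (hW : ∀ g, ∀ w ∈ W, ρ g w ∈ W), Irr (subRep ρ W hW) := by
  let P : Submodule Λ V → Prop := fun W => W ≠ ⊥ ∧ ∀ g, ∀ w ∈ W, ρ g w ∈ W
  have h0 : P ⊤ := by
    refine ⟨?_, fun _ _ _ => Submodule.mem_top⟩
    obtain ⟨v, hv⟩ := hV
    intro h
    apply hv
    have : v ∈ (⊤ : Submodule Λ V) := Submodule.mem_top
    rw [h] at this
    exact (Submodule.mem_bot Λ).1 this
  obtain ⟨W, hW, hmin⟩ := WellFounded.has_min (wellFounded_lt (α := Submodule Λ V)) {W | P W} ⟨⊤, h0⟩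
  refine ⟨W, hW.2, ?_, ?_⟩
  · obtain ⟨w, hw, hw0⟩ := Submodule.exists_mem_ne_zero_of_ne_bot hW.1
    exact ⟨⟨w, hw⟩, fun h => hw0 (congrArg Subtype.val h)⟩
  · intro U hU
    by_cases hU0 : U = ⊥
    · exact Or.inl hU0
    · right
      have h1 : P (U.map W.subtype) := by
        refine ⟨?_, ?_⟩
        · intro h
          apply hU0
          rw [eq_bot_iff]
          intro u hu
          have h3 : W.subtype u ∈ U.map W.subtype := ⟨u, hu, rfl⟩
          rw [h] at h3
          exact (Submodule.mem_bot Λ).2 (Subtype.ext ((Submodule.mem_bot Λ).1 h3))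
        · rintro g _ ⟨u, hu, rfl⟩
          exact ⟨subRep ρ W hW.2 g u, hU g u hu, rfl⟩
      have h2 : U.map W.subtype = W := by
        by_contra hne
        exact hmin _ h1 (lt_of_le_of_ne (Submodule.map_subtype_le W U) hne)
      rw [eq_top_iff]
      rintro w -
      have hw : (w : V) ∈ U.map W.subtype := by
        rw [h2]
        exact w.2
      obtain ⟨u, hu, hu2⟩ := hw
      have : u = w := Subtype.ext hu2
      rw [← this]
      exact hu

/-- the inclusion of groups -/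
def incl {F0 F : Subfield Ω} (h : F0 ≤ F) (g : Gam F) : Gam F0 := ⟨g.1, Gam_mono h g.2⟩

theorem finite_cosets {F0 : Subfield Ω} (s : Finset Ω) (hs : ∀ x ∈ s, IsAlgebraic F0 x) :
    ∃ D : Finset (Gam F0), ∀ g : Gam F0, ∃ d ∈ D,
      g.1 * d.1⁻¹ ∈ Gam (fieldAdj F0 (s : Set Ω)) := by
  classical
  let Φ : Gam F0 → (s → Ω) := fun g x => (g.1)⁻¹ x
  have hfin : (Set.range Φ).Finite := by
    have h1 : Set.range Φ ⊆ Set.pi Set.univ fun x : s => ((minpoly F0 (x : Ω)).aroots Ω).toFinset := by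
      rintro _ ⟨g, rfl⟩ x -
      have hx := (hs x x.2).isIntegral
      rw [Finset.mem_coe, Multiset.mem_toFinset, Polynomial.mem_aroots]
      refine ⟨minpoly.ne_zero hx, ?_⟩
      have h2 := minpoly.aeval F0 (x : Ω)
      have h3 : (((g.1)⁻¹ : RingAut Ω) : Ω →+* Ω).comp (algebraMap F0 Ω) = algebraMap F0 Ω := by
        ext y
        exact ((Gam F0).inv_mem g.2) y y.2
      have h4 := Polynomial.hom_eval₂ (minpoly F0 (x : Ω)) (algebraMap F0 Ω)
        (((g.1)⁻¹ : RingAut Ω) : Ω →+* Ω) x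
      rw [h3] at h4
      rw [Polynomial.aeval_def] at h2 ⊢
      rw [h2, map_zero] at h4
      exact h4.symm
    exact (Set.Finite.pi fun x => Finset.finite_toSet _).subset h1
  have h5 : ∀ f ∈ Set.range Φ, ∃ g, Φ g = f := fun f hf => hf
  choose! ψ hψ using h5
  refine ⟨hfin.toFinset.image ψ, fun g => ⟨ψ (Φ g), Finset.mem_image_of_mem _
    (hfin.mem_toFinset.2 ⟨g, rfl⟩), ?_⟩⟩
  have h6 := hψ (Φ g) ⟨g, rfl⟩
  rw [mem_Gam_fieldAdj]
  refine ⟨(Gam F0).mul_mem g.2 ((Gam F0).inv_mem (ψ (Φ g)).2), fun x hx => ?_⟩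
  have h7 : ((ψ (Φ g)).1)⁻¹ x = (g.1)⁻¹ x := congrFun h6 ⟨x, hx⟩
  show g.1 (((ψ (Φ g)).1)⁻¹ x) = x
  rw [h7]
  exact RingEquiv.apply_symm_apply g.1 x

/-- the coinduced module -/
def coind {F0 F : Subfield Ω} (h : F0 ≤ F) {V : Type} [AddCommGroup V] [Module Λ V]
    (ρ : Representation Λ (Gam F) V) : Submodule Λ (Gam F0 → V) where
  carrier := {f | ∀ (a : Gam F) (g : Gam F0), f (incl h a * g) = ρ a (f g)}
  add_mem' := by
    intro f f' hf hf' a g
    rw [Pi.add_apply, Pi.add_apply, hf, hf', map_add]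
  zero_mem' := by
    intro a g
    rw [Pi.zero_apply, Pi.zero_apply, map_zero]
  smul_mem' := by
    intro c f hf a g
    rw [Pi.smul_apply, Pi.smul_apply, hf, map_smul]

/-- its action -/
def coindRep {F0 F : Subfield Ω} (h : F0 ≤ F) {V : Type} [AddCommGroup V] [Module Λ V]
    (ρ : Representation Λ (Gam F) V) : Representation Λ (Gam F0) (coind h ρ) where
  toFun x :=
    { toFun := fun f => ⟨fun g => f.1 (g * x), fun a g => by
        show f.1 (incl h a * g * x) = ρ a (f.1 (g * x))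
        rw [mul_assoc]
        exact f.2 a (g * x)⟩
      map_add' := fun _ _ => rfl
      map_smul' := fun _ _ => rfl }
  map_one' := by
    ext f g
    show f.1 (g * 1) = f.1 g
    rw [mul_one]
  map_mul' x y := by
    ext f g
    show f.1 (g * (x * y)) = f.1 (g * x * y)
    rw [mul_assoc]

/-- the restriction to representatives -/
def coindVal {F0 F : Subfield Ω} (h : F0 ≤ F) {V : Type} [AddCommGroup V] [Module Λ V]
    (ρ : Representation Λ (Gam F) V) (D : Finset (Gam F0)) : coind h ρ →ₗ[Λ] (D → V) where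
  toFun f d := f.1 d
  map_add' _ _ := rfl
  map_smul' _ _ := rfl

theorem coindVal_inj {F0 F : Subfield Ω} (h : F0 ≤ F) {V : Type} [AddCommGroup V] [Module Λ V]
    (ρ : Representation Λ (Gam F) V) (D : Finset (Gam F0))
    (hD : ∀ g : Gam F0, ∃ d ∈ D, g.1 * d.1⁻¹ ∈ Gam F) : Function.Injective (coindVal h ρ D) := by
  rw [← LinearMap.ker_eq_bot, LinearMap.ker_eq_bot']
  intro f hf
  apply Subtype.ext
  funext g
  obtain ⟨d, hd, hgd⟩ := hD g
  have h1 : g = incl h ⟨g.1 * d.1⁻¹, hgd⟩ * d := by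
    apply Subtype.ext
    show g.1 = g.1 * d.1⁻¹ * d.1
    rw [inv_mul_cancel_right]
  have h2 : f.1 d = 0 := congrFun hf ⟨d, hd⟩
  rw [h1, f.2, h2, map_zero]
  rfl

theorem conj_eventually {F0 F : Subfield Ω} (s : Finset Ω) (hs : ∀ x ∈ s, IsAlgebraic F0 x)
    (hF : F = fieldAdj F0 (s : Set Ω)) (d : Gam F0) (S : Set (Gam F)) (hS : S ∈ nhOne F) :
    ∀ᶠ g in nhOne F0, ∃ hm : d.1 * g.1 * d.1⁻¹ ∈ Gam F, (⟨_, hm⟩ : Gam F) ∈ S := by
  classical
  obtain ⟨t, ht, htS⟩ := mem_nhOne.1 hS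
  have hFalg : ∀ y ∈ F, IsAlgebraic F0 y := by
    rw [hF]
    exact fieldAdj_alg hs
  have hfixalg : ∀ x, IsAlgebraic F0 x → IsAlgebraic F0 ((d.1)⁻¹ x) := by
    intro x hx
    obtain ⟨p, hp0, hp⟩ := hx
    refine ⟨p, hp0, ?_⟩
    have h3 : (((d.1)⁻¹ : RingAut Ω) : Ω →+* Ω).comp (algebraMap F0 Ω) = algebraMap F0 Ω := by
      ext y
      exact ((Gam F0).inv_mem d.2) y y.2
    have h4 := Polynomial.hom_eval₂ p (algebraMap F0 Ω) (((d.1)⁻¹ : RingAut Ω) : Ω →+* Ω) x
    rw [h3] at h4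
    rw [Polynomial.aeval_def] at hp ⊢
    rw [hp, map_zero] at h4
    exact h4.symm
  show _ ∈ nhOne F0
  rw [mem_nhOne]
  refine ⟨(s ∪ t).image fun x => (d.1)⁻¹ x, ?_, ?_⟩
  · intro y hy
    obtain ⟨x, hx, rfl⟩ := Finset.mem_image.1 hy
    rcases Finset.mem_union.1 hx with h | h
    · exact hfixalg x (hs x h)
    · exact hfixalg x (alg_trans hFalg (ht x h))
  · intro g hg
    have h1 : ∀ x ∈ s ∪ t, (d.1 * g.1 * d.1⁻¹) x = x := by
      intro x hx
      have h2 := hg _ (Finset.mem_image_of_mem _ hx)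
      show d.1 (g.1 ((d.1)⁻¹ x)) = x
      rw [h2]
      exact RingEquiv.apply_symm_apply d.1 x
    have hm : d.1 * g.1 * d.1⁻¹ ∈ Gam F := by
      rw [hF, mem_Gam_fieldAdj]
      refine ⟨(Gam F0).mul_mem ((Gam F0).mul_mem d.2 g.2) ((Gam F0).inv_mem d.2), fun x hx => ?_⟩
      exact h1 x (Finset.mem_union_left _ hx)
    exact ⟨hm, htS _ fun x hx => h1 x (Finset.mem_union_right _ hx)⟩

/-- conjugation of inertia -/
theorem inertia_conj {R : Subring Ω} {P : Ideal (integralClosure R Ω)} (hP : P.IsPrime)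
    {g : RingAut Ω} (hg : InInertia R P g) (d : RingAut Ω) (hd : ∀ x ∈ R, d x = x) :
    ∃ Q : Ideal (integralClosure R Ω), Q.IsPrime ∧ InInertia R Q (d * g * d⁻¹) := by
  have hd' : ∀ x ∈ R, (d⁻¹ : RingAut Ω) x = x := by
    intro x hx
    show d.symm x = x
    rw [RingEquiv.symm_apply_eq]
    exact (hd x hx).symm
  let f : integralClosure R Ω →+* integralClosure R Ω :=
    { toFun := fun y => ⟨(d⁻¹ : RingAut Ω) y, integral_fixed hd' y.2⟩
      map_one' := Subtype.ext (map_one (d⁻¹ : RingAut Ω))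
      map_mul' := fun _ _ => Subtype.ext (map_mul (d⁻¹ : RingAut Ω) _ _)
      map_zero' := Subtype.ext (map_zero (d⁻¹ : RingAut Ω))
      map_add' := fun _ _ => Subtype.ext (map_add (d⁻¹ : RingAut Ω) _ _) }
  refine ⟨P.comap f, hP.comap f, fun y => ?_⟩
  obtain ⟨z, hz, hz'⟩ := hg (f y)
  refine ⟨⟨d z, integral_fixed hd z.2⟩, ?_, ?_⟩
  · rw [Ideal.mem_comap]
    have : f ⟨d z, integral_fixed hd z.2⟩ = z := by
      apply Subtype.ext
      show d.symm (d z) = z
      exact RingEquiv.symm_apply_apply d z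
    rw [this]
    exact hz
  · show d z = (d * g * d⁻¹) y - y
    rw [hz', map_sub]
    show d (g ((d⁻¹ : RingAut Ω) y)) - d ((d⁻¹ : RingAut Ω) y) = d (g ((d⁻¹ : RingAut Ω) y)) - y
    congr 1
    exact RingEquiv.apply_symm_apply d y

/-- an irreducible representation of the group of `F` is a quotient of the restriction of an
irreducible representation of the group of `F0` -/
theorem exists_induced [TopologicalSpace Λ] [IsTopologicalRing Λ] {F0 F : Subfield Ω}
    (s : Finset Ω) (hs : ∀ x ∈ s, IsAlgebraic F0 x)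
    (hF : F = fieldAdj F0 (s : Set Ω)) (h : F0 ≤ F) {V : Type} [AddCommGroup V] [Module Λ V]
    [FiniteDimensional Λ V] (ρ : Representation Λ (Gam F) V) (hρ : Irr ρ) :
    ∃ (W : Type) (_ : AddCommGroup W) (_ : Module Λ W) (_ : FiniteDimensional Λ W)
      (σ : Representation Λ (Gam F0) W), Irr σ ∧
      (∃ f : W →ₗ[Λ] V, Function.Surjective f ∧ Equi (res h σ) ρ f) ∧
      (Cont ρ → Cont σ) ∧
      ∀ R R0 : Subring Ω, (∀ x ∈ R, x ∈ F) → (∀ x ∈ R0, x ∈ F0) → (∀ x ∈ R, IsIntegral R0 x) →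
        (∀ P : Ideal (integralClosure R0 Ω), P.IsPrime → ∀ g : RingAut Ω, InInertia R0 P g →
          g ∈ Gam F0 → g ∈ Gam F) → Lisse R ρ → Lisse R0 σ := by
  classical
  obtain ⟨D, hD0⟩ := finite_cosets s hs
  have hD : ∀ g : Gam F0, ∃ d ∈ D, g.1 * d.1⁻¹ ∈ Gam F := by
    rw [hF]
    exact hD0
  have hinj := coindVal_inj h ρ D hD
  have hfd : FiniteDimensional Λ (coind h ρ) := FiniteDimensional.of_injective _ hinj
  have hne : ∃ v : coind h ρ, v ≠ 0 := by
    obtain ⟨v, hv⟩ := hρ.1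
    refine ⟨⟨fun g => if hg : g.1 ∈ Gam F then ρ ⟨g.1, hg⟩ v else 0, ?_⟩, ?_⟩
    · intro a g
      show (if hg : (incl h a * g).1 ∈ Gam F then ρ ⟨(incl h a * g).1, hg⟩ v else 0) =
        ρ a (if hg : g.1 ∈ Gam F then ρ ⟨g.1, hg⟩ v else 0)
      by_cases hg : g.1 ∈ Gam F
      · have hg2 : (incl h a * g).1 ∈ Gam F := (Gam F).mul_mem a.2 hg
        rw [dif_pos hg, dif_pos hg2]
        have : (⟨(incl h a * g).1, hg2⟩ : Gam F) = a * ⟨g.1, hg⟩ := rfl
        rw [this, map_mul]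
        rfl
      · have hg2 : (incl h a * g).1 ∉ Gam F := by
          intro h3
          apply hg
          have h4 := (Gam F).mul_mem ((Gam F).inv_mem a.2) h3
          have h5 : (a.1)⁻¹ * (incl h a * g).1 = g.1 := by
            show (a.1)⁻¹ * (a.1 * g.1) = g.1
            rw [inv_mul_cancel_left]
          rwa [h5] at h4
        rw [dif_neg hg, dif_neg hg2, map_zero]
    · intro h0
      apply hv
      have h1 := congrFun (congrArg Subtype.val h0) (1 : Gam F0)
      have h2 : (1 : Gam F0).1 ∈ Gam F := (Gam F).one_mem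
      simp only [dif_pos h2] at h1
      have h3 : (⟨(1 : Gam F0).1, h2⟩ : Gam F) = 1 := rfl
      rw [h3, map_one] at h1
      exact h1
  obtain ⟨W, hW, hirr⟩ := exists_irr (coindRep h ρ) hne
  refine ⟨W, inferInstance, inferInstance, inferInstance, subRep (coindRep h ρ) W hW, hirr,
    ?_, ?_, ?_⟩
  · let f : W →ₗ[Λ] V :=
      { toFun := fun w => w.1.1 1
        map_add' := fun _ _ => rfl
        map_smul' := fun _ _ => rfl }
    have hf : Equi (V := W) (W := V) (res h (subRep (coindRep h ρ) W hW)) ρ f := by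
      intro a w
      show w.1.1 (1 * incl h a) = ρ a (w.1.1 1)
      rw [one_mul, ← mul_one (incl h a)]
      exact w.1.2 a 1
    refine ⟨f, ?_, hf⟩
    rw [← LinearMap.range_eq_top]
    have h1 := hρ.2 (LinearMap.range f) (by
      rintro g _ ⟨w, rfl⟩
      exact ⟨_, hf g w⟩)
    rcases h1 with h1 | h1
    · exfalso
      obtain ⟨w, hw⟩ := hirr.1
      apply hw
      apply Subtype.ext
      apply Subtype.ext
      funext g
      have h2 : f (subRep (coindRep h ρ) W hW g w) = 0 := by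
        have h3 : f (subRep (coindRep h ρ) W hW g w) ∈ LinearMap.range f := ⟨_, rfl⟩
        rw [h1] at h3
        exact (Submodule.mem_bot Λ).1 h3
      have h4 : f (subRep (coindRep h ρ) W hW g w) = w.1.1 (1 * g) := rfl
      rw [h4, one_mul] at h2
      rw [h2]
      rfl
    · exact h1
  · intro hc w φ
    let ι : W →ₗ[Λ] (D → V) := (coindVal h ρ D).comp W.subtype
    have hinj2 : Function.Injective ι := hinj.comp Subtype.val_injective
    have hker : LinearMap.ker ι = ⊥ := by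
      rw [eq_bot_iff]
      intro w hw
      have h1 : ι w = ι 0 := by
        rw [map_zero]
        exact hw
      rw [hinj2 h1]
      exact Submodule.zero_mem _
    obtain ⟨r, hr⟩ := @LinearMap.exists_leftInverse_of_injective Λ W (D → V) _ _ _ _ _ ι hker
    set ψ : (D → V) →ₗ[Λ] Λ := φ.comp r with hψ
    have hφ : ∀ u : W, φ u = ∑ d : D, ψ (Pi.single d (u.1.1 d)) := by
      intro u
      rw [← map_sum, Finset.univ_sum_single]
      have h1 : r (ι u) = u := LinearMap.congr_fun hr u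
      conv_lhs => rw [← h1]
      rfl
    have hgoal : Tendsto (fun g => ∑ d : D, ψ (Pi.single d
        ((subRep (coindRep h ρ) W hW g w).1.1 d))) (nhOne F0)
        (𝓝 (∑ d : D, ψ (Pi.single d (w.1.1 d)))) := by
      refine tendsto_finsetSum _ fun d _ => ?_
      set ψd : V →ₗ[Λ] Λ := ψ.comp (LinearMap.single Λ (fun _ => V) d) with hψd
      have h1 := hc (w.1.1 d) ψd
      intro U hU
      have h2 := conj_eventually s hs hF d.1 _ (h1 hU)
      refine h2.mono fun g hg => ?_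
      obtain ⟨hm, hg2⟩ := hg
      have h3 : (subRep (coindRep h ρ) W hW g w).1.1 d = ρ ⟨_, hm⟩ (w.1.1 d) := by
        show w.1.1 (d.1 * g) = _
        have e1 : incl h ⟨_, hm⟩ * d.1 = d.1 * g := by
          apply Subtype.ext
          show d.1.1 * g.1 * d.1.1⁻¹ * d.1.1 = d.1.1 * g.1
          rw [inv_mul_cancel_right]
        rw [← w.1.2 ⟨_, hm⟩ d.1, e1]
      show ψ (Pi.single d ((subRep (coindRep h ρ) W hW g w).1.1 d)) ∈ U
      rw [h3]
      exact hg2
    rw [hφ w]
    refine hgoal.congr fun g => ?_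
    rw [hφ]
  · intro R R0 hR hR0 hint hin hl P hP g hg
    apply LinearMap.ext
    intro w
    apply Subtype.ext
    apply Subtype.ext
    funext g'
    show w.1.1 (g' * g) = w.1.1 g'
    obtain ⟨Q, hQ, hQg⟩ := inertia_conj hP hg g'.1 (fun x hx => g'.2 x (hR0 x hx))
    have hm : g'.1 * g.1 * g'.1⁻¹ ∈ Gam F := hin Q hQ _ hQg
      ((Gam F0).mul_mem ((Gam F0).mul_mem g'.2 g.2) ((Gam F0).inv_mem g'.2))
    obtain ⟨Q', hQ', hQg'⟩ := inertia_mono hint hQ hQg (fun x hx => hm x (hR x hx))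
    have h1 := hl Q' hQ' ⟨_, hm⟩ hQg'
    have h2 := w.1.2 ⟨_, hm⟩ g'
    rw [h1] at h2
    have h3 : incl h ⟨_, hm⟩ * g' = g' * g := by
      apply Subtype.ext
      show g'.1 * g.1 * g'.1⁻¹ * g'.1 = g'.1 * g.1
      rw [inv_mul_cancel_right]
    rw [h3] at h2
    exact h2

end Pool.Agent.U745.FM
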