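import Pool.Agent.U745.FM.Main

set_option autoImplicit false

namespace Pool.Agent.U745.FM

open Filter Topology

variable {Ω : Type} [Field Ω] {Λ : Type} [Field Λ]

theorem trans_adj {k : Subfield Ω} {s : Set Ω} {x : Ω} :
    Transcendental (Algebra.adjoin k s) x ↔ Transcendental (fieldAdj k s) x := by
  have hsub : ∀ z ∈ ringAdj k s, z ∈ Algebra.adjoin k s := by
    have h1 : ringAdj k s ≤ (Algebra.adjoin k s).toSubring := by
      rw [ringAdj_le]
      refine ⟨fun z hz => ?_, fun z hz => Algebra.subset_adjoin hz⟩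
      exact (Algebra.adjoin k s).algebraMap_mem ⟨z, hz⟩
    exact h1
  have hsub' : ∀ z ∈ Algebra.adjoin k s, z ∈ fieldAdj k s := by
    intro z hz
    induction hz using Algebra.adjoin_induction with
    | mem x hx => exact mem_fieldAdj hx
    | algebraMap r => exact le_fieldAdj _ _ r.2
    | add x y _ _ hx hy => exact add_mem hx hy
    | mul x y _ _ hx hy => exact mul_mem hx hy
  unfold Transcendental
  rw [not_iff_not]
  constructor
  · intro h
    let A : Subring Ω := (Algebra.adjoin k s).toSubring
    have h1 : IsAlgebraic A x := h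
    exact alg_of_ring (R := A) hsub' h1
  · intro h
    have h1 : IsAlgebraic (ringAdj k s) x := isAlgebraic_of_frac (fracOf_adj k s) h
    let A : Subring Ω := (Algebra.adjoin k s).toSubring
    have hle : ringAdj k s ≤ A := hsub
    let i : Algebra (ringAdj k s) A := (Subring.inclusion hle).toAlgebra
    have : IsScalarTower (ringAdj k s) A Ω := IsScalarTower.of_algebraMap_eq fun _ => rfl
    have h2 : IsAlgebraic A x := by
      refine h1.extendScalars (R := ringAdj k s) (S := A) ?_
      intro u v huv
      exact Subtype.ext (congrArg (Subtype.val : A → Ω) huv)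
    exact h2

theorem indep_last {k : Subfield Ω} {n : ℕ} (t : Fin (n + 1) → Ω) :
    AlgebraicIndependent k t ↔ AlgebraicIndependent k (fun i : Fin n => t i.castSucc) ∧
      Transcendental (fieldAdj k (Set.range fun i : Fin n => t i.castSucc)) (t (Fin.last n)) := by
  rw [← trans_adj, ← AlgebraicIndependent.option_iff,
    ← algebraicIndependent_equiv (finSuccEquivLast (n := n))]
  have h : ((fun o : Option (Fin n) => o.elim (t (Fin.last n)) fun i : Fin n => t i.castSucc) ∘
      (finSuccEquivLast (n := n))) = t := by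
    funext j
    refine Fin.lastCases ?_ (fun i => ?_) j
    · simp
    · simp
  rw [h]

theorem cont_fix [TopologicalSpace Λ] [T2Space Λ] {F : Subfield Ω} {V : Type} [AddCommGroup V]
    [Module Λ V] [FiniteDimensional Λ V] {ρ : Representation Λ (Gam F) V} (h : Cont ρ)
    (g : Gam F) (hg : ∀ x ∈ alg F, g.1 x = x) : ρ g = 1 := by
  have hpure : pure g ≤ nhOne F := by
    intro S hS
    obtain ⟨s, hs, hs'⟩ := mem_nhOne.1 hS
    exact hs' g fun x hx => hg x (mem_alg.2 (hs x hx))
  apply LinearMap.ext
  intro v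
  have h1 : ∀ φ : V →ₗ[Λ] Λ, φ (ρ g v) = φ v := by
    intro φ
    have h2 : Tendsto (fun g => φ (ρ g v)) (pure g) (𝓝 (φ v)) := (h v φ).mono_left hpure
    have h3 : Tendsto (fun g => φ (ρ g v)) (pure g) (𝓝 (φ (ρ g v))) :=
      tendsto_pure_nhds _ _
    exact tendsto_nhds_unique h3 h2
  have h4 : ∀ φ : Module.Dual Λ V, φ (ρ g v - v) = 0 := by
    intro φ
    rw [map_sub, h1 φ, sub_self]
  exact sub_eq_zero.1 ((Module.forall_dual_apply_eq_zero_iff Λ _).1 h4)

theorem fieldAdj_empty (k : Subfield Ω) : fieldAdj k ∅ = k := by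
  unfold fieldAdj
  rw [Set.union_empty, Subfield.closure_eq]

/-- reduction of irreducible sheaves to lines -/
theorem induct [IsAlgClosed Ω] [TopologicalSpace Λ] [IsTopologicalRing Λ] [T2Space Λ]
    (𝒢 : RepClass Ω Λ) (h𝒢 : Known 𝒢) (k : Subfield Ω) (hk : FG k) (n : ℕ)
    (hlines : ∀ i < n, ∀ t : Fin i → Ω, AlgebraicIndependent k t →
      Lines 𝒢 k (fieldAdj k (Set.range t))) :
    ∀ F : Subfield Ω, IsFF k F n → Claim 𝒢 k F := by
  classical
  induction n with
  | zero =>
    rintro F ⟨t, θ, ht, hθ, rfl⟩ V _ _ _ ρ hirr hcont -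
    refine h𝒢.triv _ _ _ ?_
    intro g
    have hr : Set.range t = ∅ := Set.range_eq_empty _
    have hk0 : fieldAdj k (Set.range t) = k := by rw [hr, fieldAdj_empty]
    rw [hk0] at hθ
    have hFalg : ∀ z ∈ fieldAdj k (insert θ (Set.range t)), IsAlgebraic k z := by
      refine fieldAdj_alg ?_
      intro z hz
      rw [hr] at hz
      rcases hz with rfl | hz
      · exact hθ.isIntegral.isAlgebraic
      · exact hz.elim
    show ρ ⟨g.1, _⟩ = 1
    refine cont_fix hcont _ ?_
    intro z hz
    have hz' : z ∈ alg k := mem_alg.2 (alg_trans hFalg (mem_alg.1 hz))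
    refine fixes_alg (k := k) ?_ z hz'
    intro w hw
    exact g.2 w ((show sep k ≤ geo k _ from le_sup_right) hw)
  | succ n ih =>
    rintro F ⟨t, θ, ht, hθ, rfl⟩
    obtain ⟨ht', hx⟩ := (indep_last t).1 ht
    set t' : Fin n → Ω := fun i => t i.castSucc with ht'def
    set u : Finset Ω := Finset.univ.image t' with hu
    have hur : (u : Set Ω) = Set.range t' := by
      rw [hu]
      simp
    set x := t (Fin.last n) with hxdef
    have hrange : Set.range t = insert x (Set.range t') := by
      ext z
      constructor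
      · rintro ⟨j, rfl⟩
        refine Fin.lastCases ?_ (fun i => ?_) j
        · exact Set.mem_insert _ _
        · exact Set.mem_insert_of_mem _ ⟨i, rfl⟩
      · rintro (rfl | ⟨i, rfl⟩)
        · exact ⟨_, rfl⟩
        · exact ⟨_, rfl⟩
    have hclaim : Claim 𝒢 k (fieldAdj k (u : Set Ω)) := by
      refine ih (fun i hi => hlines i (Nat.lt_succ_of_lt hi)) _ ⟨t', 1, ht', ?_, ?_⟩
      · exact isSeparable_algebraMap (F := fieldAdj k (Set.range t')) (K := Ω) 1
      · rw [hur]
        refine le_antisymm (fieldAdj_mono (Set.subset_insert _ _)) ?_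
        rw [fieldAdj_le]
        refine ⟨le_fieldAdj _ _, ?_⟩
        rintro z (rfl | hz)
        · exact one_mem _
        · exact mem_fieldAdj hz
    have hl : Lines 𝒢 k (fieldAdj k (u : Set Ω)) := by
      rw [hur]
      exact hlines n (Nat.lt_succ_self n) t' ht'
    have hx' : Transcendental (fieldAdj k (u : Set Ω)) x := by
      rw [hur]
      exact hx
    have hθ' : IsSeparable (fieldAdj (fieldAdj k (u : Set Ω)) {x}) θ := by
      rw [fieldAdj_fieldAdj, hur, Set.union_singleton, ← hrange]
      exact hθ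
    have h := step 𝒢 h𝒢 k hk u x θ hx' hθ' hl hclaim
    have hF : fieldAdj (fieldAdj k (u : Set Ω)) {x, θ} = fieldAdj k (insert θ (Set.range t)) := by
      rw [fieldAdj_fieldAdj, hur, hrange]
      congr 1
      ext z
      simp only [Set.mem_union, Set.mem_insert_iff, Set.mem_singleton_iff]
      tauto
    rw [hF] at h
    exact h

end Pool.Agent.U745.FM
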