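import Pool.Agent.U745.FM.Conj

set_option autoImplicit false

namespace Pool.Agent.U745.FM

open Polynomial Filter

variable {Ω : Type} [Field Ω]

/-- extension of homomorphisms to integral extensions -/
theorem extend_hom {B : Subring Ω} {κ : Type} [Field κ] [IsAlgClosed κ] (φ : B →+* κ) :
    ∃ Φ : integralClosure B Ω →+* κ, ∀ z : B, Φ (algebraMap B (integralClosure B Ω) z) = φ z := by
  let S := integralClosure B Ω
  have hint : Algebra.IsIntegral B S := inferInstance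
  let P : Ideal B := RingHom.ker φ
  have hP : P.IsPrime := RingHom.ker_isPrime φ
  obtain ⟨Q, hQ, hQP⟩ := Ideal.exists_ideal_over_prime_of_isIntegral_of_isDomain (S := S) P (by
    intro x hx
    have h1 : algebraMap B S x = 0 := hx
    have h2 : (x : Ω) = 0 := congrArg (Subtype.val : S → Ω) h1
    have h3 : x = 0 := Subtype.ext h2
    rw [h3]
    exact P.zero_mem)
  let ψ : B ⧸ P →+* κ := Ideal.Quotient.lift P φ (fun a ha => ha)
  have hψ : Function.Injective ψ := by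
    rw [injective_iff_map_eq_zero]
    intro a ha
    obtain ⟨b, rfl⟩ := Ideal.Quotient.mk_surjective a
    rw [Ideal.Quotient.eq_zero_iff_mem]
    exact ha
  let j : B ⧸ P →+* S ⧸ Q := Ideal.quotientMap Q (algebraMap B S) (le_of_eq hQP.symm)
  have hjm : ∀ z, j (Ideal.Quotient.mk P z) = Ideal.Quotient.mk Q (algebraMap B S z) := fun z => rfl
  have hj : Function.Injective j := Ideal.quotientMap_injective' (le_of_eq hQP)
  let i1 : Algebra (B ⧸ P) κ := ψ.toAlgebra
  let i2 : Algebra (B ⧸ P) (S ⧸ Q) := j.toAlgebra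
  have hd1 : IsDomain (B ⧸ P) := Ideal.Quotient.isDomain P
  have hd2 : IsDomain (S ⧸ Q) := Ideal.Quotient.isDomain Q
  have hf1 : FaithfulSMul (B ⧸ P) κ := (faithfulSMul_iff_algebraMap_injective _ _).2 hψ
  have hf2 : FaithfulSMul (B ⧸ P) (S ⧸ Q) := (faithfulSMul_iff_algebraMap_injective _ _).2 hj
  have hi : Algebra.IsIntegral (B ⧸ P) (S ⧸ Q) := by
    refine ⟨fun x => ?_⟩
    obtain ⟨s, rfl⟩ := Ideal.Quotient.mk_surjective x
    obtain ⟨p, hp1, hp2⟩ := hint.isIntegral s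
    refine ⟨p.map (Ideal.Quotient.mk P), hp1.map _, ?_⟩
    rw [eval₂_map]
    have h1 : (algebraMap (B ⧸ P) (S ⧸ Q)).comp (Ideal.Quotient.mk P) =
        (Ideal.Quotient.mk Q).comp (algebraMap B S) := by
      exact RingHom.ext hjm
    rw [h1, ← Polynomial.hom_eval₂, hp2, map_zero]
  have ht1 : Module.IsTorsionFree (B ⧸ P) κ := inferInstance
  have ht2 : Module.IsTorsionFree (B ⧸ P) (S ⧸ Q) := inferInstance
  let L : (S ⧸ Q) →ₐ[B ⧸ P] κ := IsAlgClosed.lift
  refine ⟨(L : (S ⧸ Q) →+* κ).comp (Ideal.Quotient.mk Q), fun z => ?_⟩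
  have h1 : Ideal.Quotient.mk Q (algebraMap B S z) = algebraMap (B ⧸ P) (S ⧸ Q)
      (Ideal.Quotient.mk P z) := (hjm z).symm
  show L (Ideal.Quotient.mk Q (algebraMap B S z)) = φ z
  rw [h1, L.commutes]
  rfl

theorem isFractionRing_of_frac {R : Subring Ω} {F : Subfield Ω} (h : FracOf R F) :
    let _ : Algebra R F := (Subring.inclusion (show R ≤ F.toSubring from h.1)).toAlgebra
    IsFractionRing R F := by
  intro i
  refine ⟨?_, ?_, ?_⟩
  · rintro ⟨y, hy⟩
    rw [isUnit_iff_ne_zero]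
    intro h0
    have h1 : (y : Ω) = 0 := congrArg Subtype.val h0
    exact (nonZeroDivisors.ne_zero hy) (Subtype.ext h1)
  · intro z
    obtain ⟨a, ha, b, hb, hb0, hz⟩ := h.2 z z.2
    refine ⟨⟨⟨a, ha⟩, ⟨⟨b, hb⟩, ?_⟩⟩, ?_⟩
    · exact mem_nonZeroDivisors_of_ne_zero fun h0 => hb0 (congrArg Subtype.val h0)
    · apply Subtype.ext
      show (z : Ω) * b = a
      rw [hz]
      field_simp
  · intro y z hyz
    refine ⟨1, ?_⟩
    have h1 : (y : Ω) = z := congrArg (Subtype.val : F → Ω) hyz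
    rw [Subtype.ext h1]

/-- elements of the field of fractions integral over a normal ring -/
theorem mem_of_normal {R : Subring Ω} {F : Subfield Ω} (h : FracOf R F)
    [hR : IsIntegrallyClosed R] {z : Ω} (hz : z ∈ F) (hi : IsIntegral R z) : z ∈ R := by
  let i : Algebra R F := (Subring.inclusion (show R ≤ F.toSubring from h.1)).toAlgebra
  have i2 : IsScalarTower R F Ω := IsScalarTower.of_algebraMap_eq fun _ => rfl
  have i3 : IsFractionRing R F := isFractionRing_of_frac h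
  have h1 : IsIntegral R (⟨z, hz⟩ : F) := by
    have h2 : IsIntegral R (algebraMap F Ω ⟨z, hz⟩) := hi
    exact (isIntegral_algebraMap_iff (algebraMap F Ω).injective).1 h2
  obtain ⟨y, hy⟩ := (isIntegrallyClosed_iff (K := F)).1 hR h1
  have h3 : (y : Ω) = z := congrArg (Subtype.val : F → Ω) hy
  rw [← h3]
  exact y.2

/-- the lifting lemma for inertia -/
theorem lift_key [IsAlgClosed Ω] {B : Subring Ω} {E : Subfield Ω} (hBE : FracOf B E)
    [hB : IsIntegrallyClosed B] {κ : Type} [Field κ] [IsAlgClosed κ] (q : ℕ) [ExpChar Ω q]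
    [ExpChar κ q] (φ : B →+* κ) (β : RingAut Ω) (hβ : ∀ z ∈ B, β z ∈ B)
    (hφ : ∀ z : B, φ ⟨β z, hβ z z.2⟩ = φ z) :
    ∃ (n : Gam E) (Φ : integralClosure B Ω →+* κ), ∀ x y : integralClosure B Ω,
      (y : Ω) = β (n.1⁻¹ x) → Φ y = Φ x := by
  obtain ⟨Φ, hΦ⟩ := extend_hom φ
  let C : Subring Ω := (integralClosure B Ω).toSubring
  have hC : ∀ n ∈ Gam E, ∀ x ∈ C, n x ∈ C := by
    intro n hn x hx
    exact integral_fixed (fun z hz => hn z (hBE.1 z hz)) hx
  have hCalg : ∀ x ∈ C, IsAlgebraic E x := by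
    intro x hx
    have h1 : IsIntegral B x := hx
    exact alg_of_ring (fun z hz => hBE.1 z hz) h1.isAlgebraic
  have hβC : ∀ x ∈ C, β x ∈ C := by
    intro x hx
    obtain ⟨p, hp1, hp2⟩ := (show IsIntegral B x from hx)
    let γ : B →+* B :=
      { toFun := fun z => ⟨β z, hβ z z.2⟩
        map_one' := Subtype.ext (map_one β)
        map_mul' := fun _ _ => Subtype.ext (map_mul β _ _)
        map_zero' := Subtype.ext (map_zero β)
        map_add' := fun _ _ => Subtype.ext (map_add β _ _) }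
    refine ⟨p.map γ, hp1.map γ, ?_⟩
    rw [eval₂_map]
    have h1 : (algebraMap B Ω).comp γ = (β : Ω →+* Ω).comp (algebraMap B Ω) := by
      ext z
      rfl
    rw [h1]
    have h2 := Polynomial.hom_eval₂ p (algebraMap B Ω) (β : Ω →+* Ω) x
    rw [hp2, map_zero] at h2
    exact h2.symm
  let Φ₁ : C →+* κ := Φ
  let βC : C →+* C :=
    { toFun := fun z => ⟨β z, hβC z z.2⟩
      map_one' := Subtype.ext (map_one β)
      map_mul' := fun _ _ => Subtype.ext (map_mul β _ _)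
      map_zero' := Subtype.ext (map_zero β)
      map_add' := fun _ _ => Subtype.ext (map_add β _ _) }
  let Φ₂ : C →+* κ := Φ₁.comp βC
  obtain ⟨n, hn⟩ := exists_conj E C hC hCalg κ Φ₁ Φ₂ (by
    intro t ht
    obtain ⟨m, hm⟩ := fixed_insep (hCalg t t.2) ht q
    have h1 : (t : Ω) ^ q ^ m ∈ B := mem_of_normal hBE hm
      ((show IsIntegral B (t : Ω) from t.2).pow _)
    apply pow_inj (Ω := κ) (q := q) (n := m)
    rw [← map_pow, ← map_pow]
    have h2 : t ^ q ^ m = algebraMap B (integralClosure B Ω) ⟨(t : Ω) ^ q ^ m, h1⟩ :=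
      Subtype.ext rfl
    have h3 : βC (t ^ q ^ m) = algebraMap B (integralClosure B Ω)
        ⟨β ((t : Ω) ^ q ^ m), hβ _ h1⟩ := Subtype.ext rfl
    have h4 : Φ₁ (t ^ q ^ m) = φ ⟨(t : Ω) ^ q ^ m, h1⟩ := by
      rw [h2]
      exact hΦ _
    have h5 : Φ₂ (t ^ q ^ m) = φ ⟨β ((t : Ω) ^ q ^ m), hβ _ h1⟩ := by
      show Φ₁ (βC (t ^ q ^ m)) = _
      rw [h3]
      exact hΦ _
    rw [h4, h5]
    exact (hφ ⟨(t : Ω) ^ q ^ m, h1⟩).symm)
  refine ⟨n, Φ, fun x y hy => ?_⟩
  have hx' : (n.1⁻¹ : RingAut Ω) x ∈ C := hC _ ((Gam E).inv_mem n.2) x x.2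
  have h1 := hn ⟨_, hx'⟩
  have h2 : βC ⟨_, hx'⟩ = y := Subtype.ext hy.symm
  have h3 : act C hC n ⟨_, hx'⟩ = x := Subtype.ext (RingEquiv.apply_symm_apply n.1 _)
  have h4 : Φ₂ ⟨_, hx'⟩ = Φ₁ (βC ⟨_, hx'⟩) := rfl
  rw [h4, h2, h3] at h1
  exact h1

end Pool.Agent.U745.FM
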