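import Pool.Agent.U745.FM.LineP
import Pool.Agent.U745.FM.Belyi

set_option autoImplicit false

namespace Pool.Agent.U745.FM

open Polynomial

variable {Ω : Type} [Field Ω]

theorem integral_aeval {R : Subring Ω} {k : Subfield Ω} (hk : ∀ z ∈ k, z ∈ R) {x : Ω}
    (hx : IsIntegral R x) (f : Polynomial k) : IsIntegral R (aeval x f) := by
  rw [aeval_eq_sum_range]
  refine IsIntegral.sum _ fun i _ => ?_
  have : f.coeff i • x ^ i = (f.coeff i : Ω) * x ^ i := rfl
  rw [this]
  exact (isIntegral_mem (hk _ (f.coeff i).2)).mul (hx.pow i)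

/-- the map in characteristic `0` -/
theorem line0 [CharZero Ω] (k : Subfield Ω) (x : Ω)
    (hx : Transcendental k x) (a : Ω) (ha : a ∈ ringAdj k {x}) (ha0 : a ≠ 0) :
    ∃ y ∈ fieldAdj k {x}, ∃ S : Finset Ω, (∀ s ∈ S, s ∈ k) ∧ Transcendental k y ∧
      IsSeparable (fieldAdj k {y}) x ∧
      IsIntegral (lineRing k y S) x ∧ IsIntegral (lineRing k y S) a⁻¹ ∧
      ∀ P : Ideal (integralClosure (lineRing k y S) Ω), P.IsPrime → ∀ g : RingAut Ω,
        InInertia (lineRing k y S) P g → g ∈ Gam k → g y = y → g x = x := by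
  classical
  obtain ⟨f, hf⟩ := exists_poly ha
  have hf0 : f ≠ 0 := by
    rintro rfl
    rw [map_zero] at hf
    exact ha0 hf.symm
  have hck : CharZero k := by
    refine ⟨fun m n hmn => ?_⟩
    have := congrArg (Subtype.val : k → Ω) hmn
    have h2 : (m : Ω) = n := this
    exact_mod_cast h2
  obtain ⟨t, ht, S0, M, g0, hg0⟩ := belyi f hf0
  set y : Ω := aeval x t with hy
  set S : Finset Ω := S0.image (fun s : k => (s : Ω)) with hS
  have hSk : ∀ s ∈ S, s ∈ k := by
    intro s hs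
    obtain ⟨s0, -, rfl⟩ := Finset.mem_image.1 hs
    exact s0.2
  have ht00 : t ≠ 0 := by
    rintro rfl
    simp at ht
  have hyt : Transcendental k y :=
    hx.aeval t ht.ne' (mem_nonZeroDivisors_of_ne_zero (leadingCoeff_ne_zero.2 ht00))
  have hxF : x ∈ fieldAdj k {x} := mem_fieldAdj rfl
  have hyF : y ∈ fieldAdj k {x} := by
    rw [hy, aeval_eq_sum_range]
    refine sum_mem fun i _ => ?_
    exact mul_mem (le_fieldAdj _ _ (t.coeff i).2) (pow_mem hxF i)
  set R := lineRing k y S with hR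
  have hkR : ∀ z ∈ k, z ∈ R := fun z hz => mem_lineRing_base hz
  have hxi : IsIntegral R x := by
    let ι : k →+* R :=
      { toFun := fun z => ⟨z, hkR z z.2⟩
        map_one' := rfl
        map_mul' := fun _ _ => rfl
        map_zero' := rfl
        map_add' := fun _ _ => rfl }
    let yR : R := ⟨y, mem_lineRing_self _ _ _⟩
    have ht0 : t ≠ 0 := by
      rintro rfl
      simp at ht
    have hc0 : t.leadingCoeff ≠ 0 := leadingCoeff_ne_zero.2 ht0
    set t1 : Polynomial k := C t.leadingCoeff⁻¹ * t with ht1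
    have ht1m : t1.Monic := by
      have h1 : t1.leadingCoeff = 1 := by
        rw [ht1, leadingCoeff_mul, leadingCoeff_C, inv_mul_cancel₀ hc0]
      exact h1
    have ht1d : 0 < t1.degree := by
      rw [ht1, degree_mul, degree_C (inv_ne_zero hc0), zero_add]
      exact natDegree_pos_iff_degree_pos.1 ht
    refine ⟨t1.map ι - C (ι t.leadingCoeff⁻¹ * yR), ?_, ?_⟩
    · refine (ht1m.map ι).sub_of_left ?_
      rw [ht1m.degree_map ι]
      exact lt_of_le_of_lt degree_C_le ht1d
    · rw [eval₂_sub, eval₂_map, eval₂_C]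
      have h1 : eval₂ ((algebraMap R Ω).comp ι) x t1 = aeval x t1 := rfl
      rw [h1, ht1, map_mul, aeval_C]
      show (t.leadingCoeff⁻¹ : k) * aeval x t - (t.leadingCoeff⁻¹ : k) * y = 0
      rw [← hy, sub_self]
  have hprod : a * aeval x (derivative t) * aeval x g0 = (∏ s ∈ S0, (y - (s : Ω))) ^ M := by
    have h1 := congrArg (aeval x) hg0
    rw [map_pow, map_prod, map_mul, map_mul, hf] at h1
    rw [← h1]
    congr 1
    refine Finset.prod_congr rfl fun s _ => ?_
    rw [map_sub, aeval_C]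
    rfl
  have hys : ∀ s ∈ S0, y - (s : Ω) ≠ 0 := by
    intro s _ h0
    apply hyt
    rw [sub_eq_zero.1 h0]
    exact isAlgebraic_algebraMap s
  have hD0 : (∏ s ∈ S0, (y - (s : Ω))) ^ M ≠ 0 := pow_ne_zero _ (Finset.prod_ne_zero_iff.2 hys)
  have hDi : IsIntegral R ((∏ s ∈ S0, (y - (s : Ω))) ^ M)⁻¹ := by
    rw [← inv_pow, ← Finset.prod_inv_distrib]
    refine IsIntegral.pow (IsIntegral.prod _ fun s hs => ?_) M
    exact isIntegral_mem (mem_lineRing_inv (Finset.mem_image_of_mem _ hs))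
  have hai : IsIntegral R a := by
    rw [← hf]
    exact integral_aeval hkR hxi f
  have hdi : IsIntegral R (aeval x (derivative t)) := integral_aeval hkR hxi _
  have hgi : IsIntegral R (aeval x g0) := integral_aeval hkR hxi _
  have hd0 : aeval x (derivative t) ≠ 0 := by
    intro h0
    rw [h0, mul_zero, zero_mul] at hprod
    exact hD0 hprod.symm
  have hg00 : aeval x g0 ≠ 0 := by
    intro h0
    rw [h0, mul_zero] at hprod
    exact hD0 hprod.symm
  have hev : ∀ u : Polynomial k, (u.map (algebraMap k Ω)).eval x = aeval x u := fun u =>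
      eval_map_algebraMap u x
  have hderiv : (t.map (algebraMap k Ω) - C y).derivative.eval x = aeval x (derivative t) := by
    rw [derivative_sub, derivative_C, sub_zero, derivative_map, hev]
  refine ⟨y, hyF, S, hSk, hyt, ?_, hxi, ?_, ?_⟩
  · refine separable_of_root (t.map (algebraMap k Ω) - C y) (fun i => ?_) ?_ ?_
    · rw [coeff_sub, coeff_map, coeff_C]
      refine sub_mem (le_fieldAdj _ _ (t.coeff i).2) ?_
      split_ifs
      · exact mem_fieldAdj rfl
      · exact zero_mem _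
    · rw [eval_sub, eval_C, hev, hy, sub_self]
    · rw [hderiv]
      exact hd0
  · have h1 : a⁻¹ = aeval x (derivative t) * aeval x g0 * ((∏ s ∈ S0, (y - (s : Ω))) ^ M)⁻¹ := by
      rw [← hprod]
      field_simp
    rw [h1]
    exact (hdi.mul hgi).mul hDi
  · intro P hP g hg hgk hgy
    have hfix := lineRing_fixed (S := S) hSk hgk hgy
    have hcoef : ∀ i, (t.map (algebraMap k Ω) - C y).coeff i ∈ R := by
      intro i
      rw [coeff_sub, coeff_map, coeff_C]
      refine R.sub_mem (hkR _ (t.coeff i).2) ?_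
      split_ifs
      · exact mem_lineRing_self _ _ _
      · exact R.zero_mem
    refine fixes_of_unit hP hg hxi (t.map (algebraMap k Ω) - C y) (fun i => isIntegral_mem (hcoef i))
      (fun i => hfix _ (hcoef i)) ?_ ?_ ?_
    · rw [eval_sub, eval_C, hev, hy, sub_self]
    · rw [hderiv]
      have h1 : (aeval x (derivative t))⁻¹ = a * aeval x g0 *
          ((∏ s ∈ S0, (y - (s : Ω))) ^ M)⁻¹ := by
        rw [← hprod]
        field_simp
      rw [h1]
      exact (hai.mul hgi).mul hDi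
    · rw [hderiv]
      exact hd0

/-- both characteristics -/
theorem line_all (k : Subfield Ω) (x : Ω)
    (hx : Transcendental k x) (a : Ω) (ha : a ∈ ringAdj k {x}) (ha0 : a ≠ 0) :
    ∃ y ∈ fieldAdj k {x}, ∃ S : Finset Ω, (∀ s ∈ S, s ∈ k) ∧ (¬ CharZero Ω → S = ∅) ∧
      Transcendental k y ∧ IsSeparable (fieldAdj k {y}) x ∧
      IsIntegral (lineRing k y S) x ∧ IsIntegral (lineRing k y S) a⁻¹ ∧
      ∀ P : Ideal (integralClosure (lineRing k y S) Ω), P.IsPrime → ∀ g : RingAut Ω,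
        InInertia (lineRing k y S) P g → g ∈ Gam k → g y = y → g x = x := by
  by_cases hc : CharZero Ω
  · obtain ⟨y, h1, S, h2, h3, h4⟩ := line0 k x hx a ha ha0
    exact ⟨y, h1, S, h2, fun h => absurd hc h, h3, h4⟩
  · obtain ⟨p, hp⟩ := CharP.exists Ω
    have hp0 : p ≠ 0 := by
      rintro rfl
      exact hc (CharP.charP_to_charZero Ω)
    have : Fact p.Prime := ⟨(CharP.char_is_prime_or_zero Ω p).resolve_right hp0⟩
    obtain ⟨y, h1, h2, h3⟩ := lineP p k x hx a ha ha0
    exact ⟨y, h1, ∅, by simp, fun _ => rfl, h2, h3⟩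

theorem ringAdj_integral {k : Subfield Ω} {R : Subring Ω} {s : Set Ω} (hk : ∀ z ∈ k, z ∈ R)
    (hs : ∀ z ∈ s, IsIntegral R z) : ∀ z ∈ ringAdj k s, IsIntegral R z := by
  have h : ringAdj k s ≤ (integralClosure R Ω).toSubring := by
    rw [ringAdj_le]
    exact ⟨fun z hz => isIntegral_mem (hk z hz), fun z hz => hs z hz⟩
  exact h

/-- a curve is, generically, unramified over the line -/
theorem curve_line (k : Subfield Ω) (x : Ω) (hx : Transcendental k x) (θ : Ω)
    (hθ : IsSeparable (fieldAdj k {x}) θ) (s : Finset Ω)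
    (hs : ∀ z ∈ s, IsAlgebraic (fieldAdj k {x}) z) :
    ∃ y ∈ fieldAdj k {x}, ∃ S : Finset Ω, (∀ s ∈ S, s ∈ k) ∧ (¬ CharZero Ω → S = ∅) ∧
      Transcendental k y ∧ IsSeparable (fieldAdj k {y}) x ∧
      (∀ z ∈ s, IsIntegral (lineRing k y S) z) ∧ IsIntegral (lineRing k y S) x ∧
      IsIntegral (lineRing k y S) θ ∧
      ∀ P : Ideal (integralClosure (lineRing k y S) Ω), P.IsPrime → ∀ g : RingAut Ω,
        InInertia (lineRing k y S) P g → g ∈ Gam k → g y = y → g x = x ∧ g θ = θ := by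
  obtain ⟨a, ha, ha0, h⟩ := spread_one (fracOf_adj k {x}) s hs θ hθ
  obtain ⟨y, hy, S, hSk, hS, hyt, hsep, hxi, hai, hP⟩ := line_all k x hx a ha ha0
  have hk : ∀ z ∈ k, z ∈ lineRing k y S := fun z hz => mem_lineRing_base hz
  obtain ⟨h1, h2, h3⟩ := h (lineRing k y S) (ringAdj_integral hk (by
    intro z hz
    rw [Set.mem_singleton_iff.1 hz]
    exact hxi)) hai
  refine ⟨y, hy, S, hSk, hS, hyt, hsep, h1, hxi, h2, fun P hPp g hg hgk hgy => ?_⟩
  have h4 := hP P hPp g hg hgk hgy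
  refine ⟨h4, h3 P hPp g hg (mem_Gam_fieldAdj.2 ⟨hgk, ?_⟩)⟩
  intro z hz
  rw [Set.mem_singleton_iff.1 hz]
  exact h4

/-- spreading out: two generators, arbitrary model -/
theorem curve_model {R : Subring Ω} {F0 : Subfield Ω} (hRF : FracOf R F0) (k : Subfield Ω)
    (hk : ∀ z ∈ k, z ∈ R) (u : Set Ω) (x θ : Ω) (hF : fieldAdj F0 {x} = fieldAdj k (insert x u))
    (hu : ∀ z ∈ u, z ∈ R)
    (hx : IsSeparable F0 x)
    (hθ : IsSeparable (fieldAdj F0 {x}) θ) (s : Finset Ω)
    (hs : ∀ z ∈ s, IsAlgebraic (fieldAdj F0 {x}) z) :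
    ∃ a ∈ R, a ≠ 0 ∧ ∀ R' : Subring Ω, (∀ y ∈ R, IsIntegral R' y) → IsIntegral R' a⁻¹ →
      (∀ y ∈ s, IsIntegral R' y) ∧
      ∀ P : Ideal (integralClosure R' Ω), P.IsPrime → ∀ g : RingAut Ω, InInertia R' P g →
        g ∈ Gam F0 → g x = x ∧ g θ = θ := by
  classical
  obtain ⟨b, hb, hb0, h⟩ := spread_one (R := ringAdj k (insert x u)) (F := fieldAdj F0 {x})
    (by rw [hF]; exact fracOf_adj k _) s hs θ hθ
  have hbF : b ∈ fieldAdj F0 {x} := by
    rw [hF]
    exact ringAdj_sub_fieldAdj _ _ hb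
  have hbalg : IsAlgebraic F0 b⁻¹ := by
    refine fieldAdj_alg (s := {x}) ?_ _ (inv_mem hbF)
    intro z hz
    rw [Set.mem_singleton_iff.1 hz]
    exact hx.isIntegral.isAlgebraic
  obtain ⟨a, ha, ha0, h'⟩ := spread_one hRF {b⁻¹} (by
    intro z hz
    rw [Finset.mem_singleton.1 hz]
    exact hbalg) x hx
  refine ⟨a, ha, ha0, fun R' hR' ha' => ?_⟩
  obtain ⟨h1, h2, h3⟩ := h' R' hR' ha'
  have hbi : IsIntegral R' b⁻¹ := h1 _ (Finset.mem_singleton_self _)
  have hint : ∀ y ∈ ringAdj k (insert x u), IsIntegral R' y := by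
    have hle : ringAdj k (insert x u) ≤ (integralClosure R' Ω).toSubring := by
      rw [ringAdj_le]
      refine ⟨fun z hz => hR' z (hk z hz), fun z hz => ?_⟩
      rcases Set.mem_insert_iff.1 hz with rfl | hz
      · exact h2
      · exact hR' z (hu z hz)
    exact hle
  obtain ⟨h4, h5, h6⟩ := h R' hint hbi
  refine ⟨h4, fun P hP g hg hgF => ?_⟩
  have h7 := h3 P hP g hg hgF
  refine ⟨h7, h6 P hP g hg (mem_Gam_fieldAdj.2 ⟨hgF, ?_⟩)⟩
  intro z hz
  rw [Set.mem_singleton_iff.1 hz]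
  exact h7

end Pool.Agent.U745.FM
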