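import Pool.Agent.U745.FM.Lift
import Pool.Agent.U745.FM.Line0

set_option autoImplicit false

namespace Pool.Agent.U745.FM

open Polynomial Filter

variable {Ω : Type} [Field Ω]

theorem fieldAdj_fieldAdj (k : Subfield Ω) (s t : Set Ω) :
    fieldAdj (fieldAdj k s) t = fieldAdj k (s ∪ t) := by
  apply le_antisymm
  · rw [fieldAdj_le, fieldAdj_le]
    exact ⟨⟨le_fieldAdj _ _, fun x hx => mem_fieldAdj (Or.inl hx)⟩,
      fun x hx => mem_fieldAdj (Or.inr hx)⟩
  · rw [fieldAdj_le]
    refine ⟨(le_fieldAdj _ _).trans (le_fieldAdj _ _), ?_⟩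
    rintro x (hx | hx)
    · exact le_fieldAdj _ _ (mem_fieldAdj hx)
    · exact mem_fieldAdj hx

/-- elements of `k[u, y]` are values of polynomials -/
theorem exists_poly' {k : Subfield Ω} {u : Set Ω} {y a : Ω} (ha : a ∈ ringAdj k (insert y u)) :
    ∃ f : Polynomial (ringAdj k u), aeval y f = a := by
  have h : ringAdj k (insert y u) ≤
      (aeval y : Polynomial (ringAdj k u) →ₐ[ringAdj k u] Ω).toRingHom.range := by
    rw [ringAdj_le]
    refine ⟨fun z hz => ⟨C ⟨z, subset_ringAdj k u (Or.inl hz)⟩, ?_⟩, fun z hz => ?_⟩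
    · show aeval y (C (⟨z, _⟩ : ringAdj k u)) = z
      rw [aeval_C]
      rfl
    · rcases Set.mem_insert_iff.1 hz with rfl | hz
      · exact ⟨X, aeval_X z⟩
      · refine ⟨C ⟨z, subset_ringAdj k u (Or.inr hz)⟩, ?_⟩
        show aeval y (C (⟨z, _⟩ : ringAdj k u)) = z
        rw [aeval_C]
        rfl
  exact h ha

theorem ringAdj_mono {k : Subfield Ω} {s t : Set Ω} (h : s ⊆ t) : ringAdj k s ≤ ringAdj k t := by
  rw [ringAdj_le]
  exact ⟨fun x hx => subset_ringAdj k t (Or.inl hx), fun x hx => subset_ringAdj k t (Or.inr (h hx))⟩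

theorem normal_intCl (A : Subring Ω) : IsIntegrallyClosed (integralClosure A Ω) := by
  let C := integralClosure A Ω
  let i1 : Algebra (FractionRing C) Ω := FractionRing.liftAlgebra C Ω
  have i2 : IsScalarTower C (FractionRing C) Ω := FractionRing.isScalarTower_liftAlgebra C Ω
  rw [isIntegrallyClosed_iff (FractionRing C)]
  intro x hx
  have h1 : IsIntegral C (algebraMap (FractionRing C) Ω x) := hx.map (IsScalarTower.toAlgHom C (FractionRing C) Ω)
  have h2 : IsIntegral A (algebraMap (FractionRing C) Ω x) := isIntegral_trans _ h1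
  refine ⟨⟨_, h2⟩, ?_⟩
  apply (algebraMap (FractionRing C) Ω).injective
  rw [← IsScalarTower.algebraMap_apply]
  rfl

/-- localization and transport of structure -/
theorem loc_data {D : Type} [CommRing D] [IsDomain D] [hD : IsIntegrallyClosed D] (b0 : D)
    (ev : D →+* Ω) (hev : Function.Injective ev) (hb0 : ev b0 ≠ 0) {κ : Type} [Field κ]
    (φ0 : D →+* κ) (hφ0 : φ0 b0 ≠ 0) (β : RingAut Ω) (γ : D →+* D)
    (h1 : ∀ p, β (ev p) = ev (γ p)) (h2 : γ b0 = b0) (h3 : ∀ p, φ0 (γ p) = φ0 p) :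
    ∃ B : Subring Ω, IsIntegrallyClosed B ∧ (∀ p, ev p ∈ B) ∧ (ev b0)⁻¹ ∈ B ∧
      (∀ x ∈ B, ∃ (p : D) (N : ℕ), x * ev b0 ^ N = ev p) ∧
      ∃ (φ : B →+* κ) (hβ : ∀ z ∈ B, β z ∈ B), ∀ z : B, φ ⟨β z, hβ z z.2⟩ = φ z := by
  have hevu : IsUnit (ev b0) := isUnit_iff_ne_zero.2 hb0
  have hφu : IsUnit (φ0 b0) := isUnit_iff_ne_zero.2 hφ0
  let L := Localization.Away b0
  let e : L →+* Ω := IsLocalization.Away.lift b0 hevu
  have he : ∀ p, e (algebraMap D L p) = ev p := fun p => IsLocalization.Away.lift_eq b0 hevu p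
  have hspec : ∀ w : L, ∃ (p : D) (N : ℕ), w * algebraMap D L b0 ^ N = algebraMap D L p := by
    intro w
    obtain ⟨N, p, h⟩ := IsLocalization.Away.surj b0 w
    exact ⟨p, N, h⟩
  have heinj : Function.Injective e := by
    rw [injective_iff_map_eq_zero]
    intro w hw
    obtain ⟨p, N, h⟩ := hspec w
    have h4 := congrArg e h
    rw [map_mul, hw, zero_mul, he] at h4
    have h5 : p = 0 := hev (by rw [map_zero]; exact h4.symm)
    rw [h5, map_zero] at h
    have h6 : IsUnit (algebraMap D L b0 ^ N) := (IsLocalization.Away.algebraMap_isUnit b0).pow N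
    exact (h6.mul_left_eq_zero).1 h
  have hb0ne : b0 ≠ 0 := by
    rintro rfl
    rw [map_zero] at hb0
    exact hb0 rfl
  have hnL : IsIntegrallyClosed L := isIntegrallyClosed_of_isLocalization L (Submonoid.powers b0)
    (powers_le_nonZeroDivisors_of_noZeroDivisors hb0ne)
  let B : Subring Ω := e.range
  let eB : L ≃+* B := RingEquiv.ofBijective e.rangeRestrict
    ⟨fun x x' hxx => heinj (congrArg (Subtype.val : B → Ω) hxx), e.rangeRestrict_surjective⟩
  have heB : ∀ w, ((eB w : B) : Ω) = e w := fun w => rfl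
  have hnB : IsIntegrallyClosed B := IsIntegrallyClosed.of_equiv eB
  have hγu : IsUnit (((algebraMap D L).comp γ) b0) := by
    show IsUnit (algebraMap D L (γ b0))
    rw [h2]
    exact IsLocalization.Away.algebraMap_isUnit b0
  let γL : L →+* L := IsLocalization.Away.lift b0 hγu
  have hγL : ∀ p, γL (algebraMap D L p) = algebraMap D L (γ p) := fun p =>
    IsLocalization.Away.lift_eq b0 hγu p
  have hcomm : (β : Ω →+* Ω).comp e = e.comp γL := by
    apply IsLocalization.ringHom_ext (Submonoid.powers b0)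
    ext p
    show β (e (algebraMap D L p)) = e (γL (algebraMap D L p))
    rw [he, hγL, he, h1]
  let φL : L →+* κ := IsLocalization.Away.lift b0 hφu
  have hφL : ∀ p, φL (algebraMap D L p) = φ0 p := fun p => IsLocalization.Away.lift_eq b0 hφu p
  have hφcomm : φL.comp γL = φL := by
    apply IsLocalization.ringHom_ext (Submonoid.powers b0)
    ext p
    show φL (γL (algebraMap D L p)) = φL (algebraMap D L p)
    rw [hγL, hφL, hφL, h3]
  refine ⟨B, hnB, fun p => ⟨algebraMap D L p, he p⟩, ?_, ?_, φL.comp (eB.symm : B →+* L), ?_, ?_⟩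
  · refine ⟨IsLocalization.Away.invSelf b0, ?_⟩
    have h4 : e (algebraMap D L b0) * e (IsLocalization.Away.invSelf b0) = 1 := by
      rw [← map_mul, IsLocalization.Away.mul_invSelf, map_one]
    rw [he] at h4
    exact eq_inv_of_mul_eq_one_right h4
  · rintro x ⟨w, rfl⟩
    obtain ⟨p, N, h⟩ := hspec w
    refine ⟨p, N, ?_⟩
    have h4 := congrArg e h
    rw [map_mul, map_pow, he, he] at h4
    exact h4
  · rintro x ⟨w, rfl⟩
    exact ⟨γL w, (RingHom.congr_fun hcomm w).symm⟩
  · rintro ⟨x, w, rfl⟩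
    have h4 : eB.symm ⟨e w, w, rfl⟩ = w := by
      rw [RingEquiv.symm_apply_eq]
      exact Subtype.ext rfl
    have h5 : ∀ hm, eB.symm ⟨β (e w), hm⟩ = γL w := by
      intro hm
      rw [RingEquiv.symm_apply_eq]
      exact Subtype.ext (RingHom.congr_fun hcomm w)
    show φL (eB.symm ⟨β (e w), _⟩) = φL (eB.symm ⟨e w, _⟩)
    rw [h4, h5]
    exact RingHom.congr_fun hφcomm w

/-- fraction fields of rings containing the integral closure and `y` -/
theorem frac_of_contains {A : Subring Ω} {k1 : Subfield Ω} (hA : FracOf A k1) (y : Ω)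
    (B : Subring Ω) (h1 : ∀ x, IsIntegral A x → x ∈ B) (h2 : y ∈ B)
    (h3 : ∀ x ∈ B, x ∈ fieldAdj (alg k1) {y}) : FracOf B (fieldAdj (alg k1) {y}) := by
  classical
  refine ⟨h3, fun x hx => ?_⟩
  obtain ⟨a, ha, d, hd, hd0, hxad⟩ := (fracOf_adj (alg k1) {y}).2 x hx
  have hclear : ∀ a ∈ ringAdj (alg k1) {y}, ∃ a' : Ω, a' ≠ 0 ∧ a' ∈ B ∧ a' * a ∈ B := by
    intro a ha
    obtain ⟨p, hp⟩ := exists_poly ha
    obtain ⟨a', ha', ha'0, hcoef⟩ := exists_denom hA
      (p.support.image fun i => ((p.coeff i : alg k1) : Ω)) (by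
        intro z hz
        obtain ⟨i, -, rfl⟩ := Finset.mem_image.1 hz
        exact mem_alg.1 (p.coeff i).2)
    have hcoef' : ∀ i, a' * ((p.coeff i : alg k1) : Ω) ∈ B := by
      intro i
      by_cases h0 : p.coeff i = 0
      · rw [h0]
        show a' * 0 ∈ B
        rw [mul_zero]
        exact B.zero_mem
      · exact h1 _ (hcoef _ (Finset.mem_image_of_mem _ (mem_support_iff.2 h0)))
    refine ⟨a', ha'0, h1 _ (isIntegral_mem ha'), ?_⟩
    rw [← hp, aeval_eq_sum_range, Finset.mul_sum]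
    refine B.sum_mem fun i _ => ?_
    have : a' * (p.coeff i • y ^ i) = a' * ((p.coeff i : alg k1) : Ω) * y ^ i := by
      show a' * (((p.coeff i : alg k1) : Ω) * y ^ i) = _
      ring
    rw [this]
    exact B.mul_mem (hcoef' i) (B.pow_mem h2 i)
  obtain ⟨a1, ha10, ha1B, ha1⟩ := hclear a ha
  obtain ⟨d1, hd10, hd1B, hd1⟩ := hclear d hd
  refine ⟨(a1 * a) * d1, B.mul_mem ha1 hd1B, (d1 * d) * a1, B.mul_mem hd1 ha1B,
    mul_ne_zero (mul_ne_zero hd10 hd0) ha10, ?_⟩
  rw [hxad]
  field_simp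

end Pool.Agent.U745.FM
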