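import Pool.Agent.U745.FM.LiftI

set_option autoImplicit false

namespace Pool.Agent.U745.FM

open Polynomial Filter

variable {Ω : Type} [Field Ω]

/-- evaluation at `y` -/
noncomputable def evC (A : Subring Ω) (y : Ω) : Polynomial (integralClosure A Ω) →+* Ω :=
  eval₂RingHom (algebraMap (integralClosure A Ω) Ω) y

theorem evC_C (A : Subring Ω) (y : Ω) (c : integralClosure A Ω) : evC A y (C c) = c := by
  show eval₂ (algebraMap (integralClosure A Ω) Ω) y (C c) = c
  rw [eval₂_C]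
  rfl

theorem evC_X (A : Subring Ω) (y : Ω) : evC A y X = y := by
  show eval₂ (algebraMap (integralClosure A Ω) Ω) y X = y
  rw [eval₂_X]

theorem evC_inj {A : Subring Ω} {k1 : Subfield Ω} (hA : ∀ x ∈ A, x ∈ k1) {y : Ω}
    (hy : Transcendental k1 y) : Function.Injective (evC A y) := by
  have hC1alg : ∀ x : integralClosure A Ω, (x : Ω) ∈ alg k1 := fun x =>
    mem_alg.2 (alg_of_ring hA (show IsIntegral A (x : Ω) from x.2).isAlgebraic)
  have hy' : Transcendental (alg k1) y := fun h => hy (alg_trans (fun z hz => mem_alg.1 hz) h)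
  rw [injective_iff_map_eq_zero]
  intro p hp
  let ι : integralClosure A Ω →+* alg k1 :=
    { toFun := fun x => ⟨x, hC1alg x⟩
      map_one' := rfl
      map_mul' := fun _ _ => rfl
      map_zero' := rfl
      map_add' := fun _ _ => rfl }
  have h1 : aeval y (p.map ι) = 0 := by
    rw [aeval_def, eval₂_map]
    exact hp
  have h2 : p.map ι = 0 := by
    by_contra h3
    exact hy' ⟨_, h3, h1⟩
  have h3 : Function.Injective ι := fun x x' hxx =>
    Subtype.ext (congrArg (Subtype.val : alg k1 → Ω) hxx)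
  exact (Polynomial.map_eq_zero_iff h3).1 h2

/-- the action of an automorphism fixing `A` on the integral closure -/
def actC {A : Subring Ω} (g : RingAut Ω) (hg : ∀ x ∈ A, g x = x) :
    integralClosure A Ω →+* integralClosure A Ω where
  toFun x := ⟨g x, integral_fixed hg x.2⟩
  map_one' := Subtype.ext (map_one g)
  map_mul' _ _ := Subtype.ext (map_mul g _ _)
  map_zero' := Subtype.ext (map_zero g)
  map_add' _ _ := Subtype.ext (map_add g _ _)

theorem evC_map {A : Subring Ω} {g β : RingAut Ω} (hg : ∀ x ∈ A, g x = x) {y : Ω}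
    (h : ∀ x, IsIntegral A x → β x = g x) (hy : β y = y) (p : Polynomial (integralClosure A Ω)) :
    β (evC A y p) = evC A y (p.map (actC g hg)) := by
  have h1 := Polynomial.hom_eval₂ p (algebraMap (integralClosure A Ω) Ω) (β : Ω →+* Ω) y
  have h2 : (β : Ω →+* Ω) y = y := hy
  rw [h2] at h1
  show β (eval₂ (algebraMap (integralClosure A Ω) Ω) y p) =
    eval₂ (algebraMap (integralClosure A Ω) Ω) y (p.map (actC g hg))
  rw [eval₂_map]
  have h3 : (β : Ω →+* Ω).comp (algebraMap (integralClosure A Ω) Ω) =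
      (algebraMap (integralClosure A Ω) Ω).comp (actC g hg) := by
    ext x
    exact h x x.2
  rw [← h3]
  exact h1

theorem generic_abs {R : Type} [CommRing R] (P : Ideal R) (hP : P.IsPrime) (γ : R →+* R)
    (hγ : ∀ x, γ x - x ∈ P) (b0 : Polynomial R) (hb0 : ∃ i, b0.coeff i ∉ P) {k : Type} [Field k]
    (ι : k →+* R) (q : ℕ) [ExpChar k q] :
    ∃ (κ : Type) (_ : Field κ) (_ : IsAlgClosed κ) (_ : ExpChar κ q)
      (φ0 : Polynomial R →+* κ), φ0 b0 ≠ 0 ∧ ∀ p, φ0 (p.map γ) = φ0 p := by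
  have hdom : IsDomain (R ⧸ P) := Ideal.Quotient.isDomain P
  let F1 := FractionRing (Polynomial (R ⧸ P))
  let κ := AlgebraicClosure F1
  let φ0 : Polynomial R →+* κ :=
    (algebraMap F1 κ).comp ((algebraMap (Polynomial (R ⧸ P)) F1).comp
      (mapRingHom (Ideal.Quotient.mk P)))
  have hφ : ∀ p, φ0 p = 0 → p.map (Ideal.Quotient.mk P) = 0 := by
    intro p h
    have h1 : algebraMap (Polynomial (R ⧸ P)) F1 (p.map (Ideal.Quotient.mk P)) = 0 :=
      (map_eq_zero_iff _ (algebraMap F1 κ).injective).1 h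
    exact (map_eq_zero_iff _ (IsFractionRing.injective (Polynomial (R ⧸ P)) F1)).1 h1
  have hchar : ExpChar κ q := by
    let f : k →+* κ := (φ0.comp Polynomial.C).comp ι
    exact expChar_of_injective_ringHom f.injective q
  refine ⟨κ, inferInstance, inferInstance, hchar, φ0, ?_, ?_⟩
  · intro h
    obtain ⟨i, hi⟩ := hb0
    have h1 := congrArg (fun r : Polynomial (R ⧸ P) => r.coeff i) (hφ b0 h)
    simp only [coeff_map, coeff_zero] at h1
    exact hi (Ideal.Quotient.eq_zero_iff_mem.1 h1)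
  · intro p
    show (algebraMap F1 κ) ((algebraMap (Polynomial (R ⧸ P)) F1)
        ((p.map γ).map (Ideal.Quotient.mk P))) =
      (algebraMap F1 κ) ((algebraMap (Polynomial (R ⧸ P)) F1) (p.map (Ideal.Quotient.mk P)))
    have h1 : (Ideal.Quotient.mk P).comp γ = Ideal.Quotient.mk P := by
      ext x
      show Ideal.Quotient.mk P (γ x) = Ideal.Quotient.mk P x
      rw [Ideal.Quotient.eq]
      exact hγ x
    rw [Polynomial.map_map, h1]

/-- the homomorphism of the generic fibre -/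
theorem generic_hom {A : Subring Ω} (P : Ideal (integralClosure A Ω)) (hP : P.IsPrime)
    (g : RingAut Ω) (hg : ∀ x ∈ A, g x = x) (hgI : InInertia A P g)
    (b0 : Polynomial (integralClosure A Ω)) (hb0 : ∃ i, b0.coeff i ∉ P) (k : Subfield Ω)
    (hk : ∀ x ∈ k, x ∈ A) (q : ℕ) [ExpChar Ω q] :
    ∃ (κ : Type) (_ : Field κ) (_ : IsAlgClosed κ) (_ : ExpChar κ q)
      (φ0 : Polynomial (integralClosure A Ω) →+* κ), φ0 b0 ≠ 0 ∧
      ∀ p, φ0 (p.map (actC g hg)) = φ0 p := by
  have : ExpChar k q := (algebraMap k Ω).expChar (algebraMap k Ω).injective q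
  let ι : k →+* integralClosure A Ω :=
    { toFun := fun x => ⟨x, isIntegral_mem (hk x x.2)⟩
      map_one' := rfl
      map_mul' := fun _ _ => rfl
      map_zero' := rfl
      map_add' := fun _ _ => rfl }
  refine generic_abs P hP (actC g hg) ?_ b0 hb0 ι q
  intro x
  obtain ⟨z, hz, hz'⟩ := hgI x
  have h2 : actC g hg x - x = z := Subtype.ext hz'.symm
  rw [h2]
  exact hz

/-- lifting of an inertia element of the base to the generic fibre -/
theorem lift_generic [IsAlgClosed Ω] {A : Subring Ω} {k1 : Subfield Ω} (hA : FracOf A k1) {y : Ω}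
    (hy : Transcendental k1 y) (P : Ideal (integralClosure A Ω)) (hP : P.IsPrime)
    (g : RingAut Ω) (hgk : g ∈ Gam k1) (hgI : InInertia A P g)
    (b0 : Polynomial (integralClosure A Ω)) (hb0 : ∃ i, b0.coeff i ∉ P)
    (hb0g : ∀ i, g (b0.coeff i : Ω) = b0.coeff i) (k : Subfield Ω) (hk : ∀ x ∈ k, x ∈ A) :
    ∃ B : Subring Ω, (∀ x, IsIntegral A x → x ∈ B) ∧ y ∈ B ∧ (evC A y b0)⁻¹ ∈ B ∧
      ∃ h ∈ Gam (fieldAdj k1 {y}), (∀ x ∈ alg k1, h x = g x) ∧
      ∃ (κ : Type) (_ : Field κ) (Φ : integralClosure B Ω →+* κ),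
        ∀ x z : integralClosure B Ω, (z : Ω) = h x → Φ z = Φ x := by
  obtain ⟨q, hq⟩ := ExpChar.exists Ω
  have hgA : ∀ x ∈ A, g x = x := fun x hx => hgk x (hA.1 x hx)
  obtain ⟨κ, i1, i2, i3, φ0, hφ0, hφg⟩ := generic_hom P hP g hgA hgI b0 hb0 k hk q
  obtain ⟨β, hβ1, hβ2⟩ := lift_trans hy g hgk
  have hnC : IsIntegrallyClosed (integralClosure A Ω) := normal_intCl A
  have hb0ne : b0 ≠ 0 := by
    rintro rfl
    rw [map_zero] at hφ0
    exact hφ0 rfl
  have hinj := evC_inj hA.1 hy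
  have hCalg : ∀ x, IsIntegral A x → x ∈ alg k1 := fun x hx =>
    mem_alg.2 (alg_of_ring hA.1 hx.isAlgebraic)
  have hmap : b0.map (actC g hgA) = b0 := by
    ext i
    rw [coeff_map]
    exact hb0g i
  obtain ⟨B, hnB, hB1, hB2, hB3, φ, hβB, hφβ⟩ := loc_data b0 (evC A y) hinj
    (fun h => hb0ne (hinj (by rw [h, map_zero]))) φ0 hφ0 β (mapRingHom (actC g hgA))
    (fun p => evC_map hgA (fun x hx => hβ1 x (hCalg x hx)) hβ2 p) hmap hφg
  have hBint : ∀ x, IsIntegral A x → x ∈ B := by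
    intro x hx
    have h1 := hB1 (C ⟨x, hx⟩)
    rwa [evC_C] at h1
  have hyB : y ∈ B := by
    have h1 := hB1 X
    rwa [evC_X] at h1
  set E := fieldAdj (alg k1) {y} with hE
  have hk1E : alg k1 ≤ E := le_fieldAdj _ _
  have hyE : y ∈ E := mem_fieldAdj rfl
  have hevE : ∀ p, evC A y p ∈ E := by
    intro p
    show eval₂ (algebraMap (integralClosure A Ω) Ω) y p ∈ E
    rw [eval₂_eq_sum_range]
    exact sum_mem fun i _ => mul_mem (hk1E (hCalg _ (p.coeff i).2)) (pow_mem hyE i)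
  have hBE : FracOf B E := by
    refine frac_of_contains hA y B hBint hyB ?_
    intro x hx
    obtain ⟨p, N, hp⟩ := hB3 x hx
    have hne : evC A y b0 ^ N ≠ 0 := pow_ne_zero _ (fun h => hb0ne (hinj (by rw [h, map_zero])))
    rw [eq_div_of_mul_eq hne hp]
    exact div_mem (hevE p) (pow_mem (hevE b0) N)
  obtain ⟨n, Φ, hΦ⟩ := lift_key hBE q φ β hβB hφβ
  refine ⟨B, hBint, hyB, hB2, β * n.1⁻¹, ?_, ?_, κ, i1, Φ, fun x z hz => hΦ x z hz⟩
  · rw [mem_Gam_fieldAdj]
    constructor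
    · intro x hx
      have h1 : (n.1⁻¹ : RingAut Ω) x = x := ((Gam E).inv_mem n.2) x (hk1E (le_alg k1 hx))
      show β ((n.1⁻¹ : RingAut Ω) x) = x
      rw [h1, hβ1 x (le_alg k1 hx)]
      exact hgk x hx
    · intro x hx
      rw [Set.mem_singleton_iff.1 hx]
      have h1 : (n.1⁻¹ : RingAut Ω) y = y := ((Gam E).inv_mem n.2) y hyE
      show β ((n.1⁻¹ : RingAut Ω) y) = y
      rw [h1, hβ2]
  · intro x hx
    have h1 : (n.1⁻¹ : RingAut Ω) x = x := ((Gam E).inv_mem n.2) x (hk1E hx)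
    show β ((n.1⁻¹ : RingAut Ω) x) = g x
    rw [h1, hβ1 x hx]

end Pool.Agent.U745.FM
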