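import Pool.Agent.U745.FM.LiftJ

set_option autoImplicit false

namespace Pool.Agent.U745.FM

open Polynomial Filter

variable {Ω : Type} [Field Ω]

/-- choice of the denominator -/
theorem exists_model_denom (k : Subfield Ω) (u : Finset Ω) (y : Ω) (s0 : Finset Ω)
    (hs0 : ∀ z ∈ s0, z ∈ fieldAdj (fieldAdj k (u : Set Ω)) {y}) :
    ∃ (c : Ω) (_ : c ≠ 0) (_ : c ∈ ringAdj k (u : Set Ω)) (b00 : Polynomial (ringAdj k (u : Set Ω))),
      (∃ i, ((b00.coeff i : ringAdj k (u : Set Ω)) : Ω) = c) ∧ aeval y b00 ≠ 0 ∧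
      ∀ z ∈ s0, IsIntegral (ringAdj k (insert y (u : Set Ω))) (aeval y b00 * z) := by
  have hfrac : FracOf (ringAdj k (insert y (u : Set Ω))) (fieldAdj (fieldAdj k (u : Set Ω)) {y}) := by
    rw [fieldAdj_fieldAdj, Set.union_singleton]
    exact fracOf_adj k _
  obtain ⟨b, hb, hb0, hbs⟩ := exists_denom hfrac s0 fun z hz =>
    isAlgebraic_algebraMap (⟨z, hs0 z hz⟩ : fieldAdj (fieldAdj k (u : Set Ω)) {y})
  obtain ⟨b00, rfl⟩ := exists_poly' hb
  have hb00' : b00 ≠ 0 := by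
    rintro rfl
    rw [map_zero] at hb0
    exact hb0 rfl
  have hc0 : b00.leadingCoeff ≠ 0 := leadingCoeff_ne_zero.2 hb00'
  exact ⟨b00.leadingCoeff, fun h => hc0 (Subtype.ext h), b00.leadingCoeff.2, b00,
    ⟨_, rfl⟩, hb0, hbs⟩

/-- inertia elements of a suitable model of `k1` lift to inertia elements of the given model of
`k1(y)` -/
theorem lift_inertia [IsAlgClosed Ω] (k : Subfield Ω) (u : Finset Ω) (y : Ω)
    (hy : Transcendental (fieldAdj k (u : Set Ω)) y) (s0 : Finset Ω)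
    (hs0 : ∀ z ∈ s0, z ∈ fieldAdj (fieldAdj k (u : Set Ω)) {y}) :
    ∃ s1 : Finset Ω, fieldAdj k (s1 : Set Ω) = fieldAdj k (u : Set Ω) ∧
      ∀ P : Ideal (integralClosure (ringAdj k (s1 : Set Ω)) Ω), P.IsPrime →
      ∀ g ∈ Gam (fieldAdj k (u : Set Ω)), InInertia (ringAdj k (s1 : Set Ω)) P g →
      ∃ h ∈ Gam (fieldAdj (fieldAdj k (u : Set Ω)) {y}),
        (∀ x ∈ alg (fieldAdj k (u : Set Ω)), h x = g x) ∧
        ∃ Q : Ideal (integralClosure (ringAdj k (s0 : Set Ω)) Ω), Q.IsPrime ∧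
          InInertia (ringAdj k (s0 : Set Ω)) Q h := by
  classical
  obtain ⟨c, hc0, hc, b00, ⟨i0, hi0⟩, hb0, hbs⟩ := exists_model_denom k u y s0 hs0
  refine ⟨insert c⁻¹ u, ?_, ?_⟩
  · apply le_antisymm
    · rw [fieldAdj_le]
      refine ⟨le_fieldAdj _ _, ?_⟩
      intro x hx
      rcases Finset.mem_insert.1 (Finset.mem_coe.1 hx) with rfl | hx
      · exact inv_mem (ringAdj_sub_fieldAdj k _ hc)
      · exact mem_fieldAdj hx
    · rw [fieldAdj_le]
      exact ⟨le_fieldAdj _ _, fun x hx =>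
        mem_fieldAdj (Finset.mem_coe.2 (Finset.mem_insert_of_mem hx))⟩
  intro P hP g hg hgI
  have hs1k : fieldAdj k ((insert c⁻¹ u : Finset Ω) : Set Ω) = fieldAdj k (u : Set Ω) := by
    apply le_antisymm
    · rw [fieldAdj_le]
      refine ⟨le_fieldAdj _ _, ?_⟩
      intro x hx
      rcases Finset.mem_insert.1 (Finset.mem_coe.1 hx) with rfl | hx
      · exact inv_mem (ringAdj_sub_fieldAdj k _ hc)
      · exact mem_fieldAdj hx
    · rw [fieldAdj_le]
      exact ⟨le_fieldAdj _ _, fun x hx =>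
        mem_fieldAdj (Finset.mem_coe.2 (Finset.mem_insert_of_mem hx))⟩
  have hFrac : FracOf (ringAdj k ((insert c⁻¹ u : Finset Ω) : Set Ω)) (fieldAdj k (u : Set Ω)) := by
    have h := fracOf_adj k ((insert c⁻¹ u : Finset Ω) : Set Ω)
    rwa [hs1k] at h
  have hcinv : c⁻¹ ∈ ringAdj k ((insert c⁻¹ u : Finset Ω) : Set Ω) :=
    subset_ringAdj _ _ (Or.inr (Finset.mem_coe.2 (Finset.mem_insert_self _ _)))
  have hmono : ringAdj k (u : Set Ω) ≤ ringAdj k ((insert c⁻¹ u : Finset Ω) : Set Ω) :=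
    ringAdj_mono fun x hx => Finset.mem_coe.2 (Finset.mem_insert_of_mem hx)
  generalize hA1 : ringAdj k ((insert c⁻¹ u : Finset Ω) : Set Ω) = A1 at *
  have hkA1 : ∀ x ∈ k, x ∈ A1 := fun x hx => hmono (subset_ringAdj _ _ (Or.inl hx))
  let ι0 : ringAdj k (u : Set Ω) →+* integralClosure A1 Ω :=
    { toFun := fun x => ⟨x, isIntegral_mem (hmono x.2)⟩
      map_one' := rfl
      map_mul' := fun _ _ => rfl
      map_zero' := rfl
      map_add' := fun _ _ => rfl }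
  have hevι : evC A1 y (b00.map ι0) = aeval y b00 := by
    show eval₂ (algebraMap (integralClosure A1 Ω) Ω) y (b00.map ι0) = aeval y b00
    rw [eval₂_map, aeval_def]
    rfl
  obtain ⟨B, hB1, hB2, hB3, h, hhK, hhg, κ, i1, Φ, hΦ⟩ := lift_generic hFrac hy P hP g hg hgI
    (b00.map ι0) ⟨i0, by
      intro hmem
      rw [coeff_map] at hmem
      apply hP.ne_top
      rw [Ideal.eq_top_iff_one]
      have h1 : (⟨c⁻¹, isIntegral_mem hcinv⟩ : integralClosure A1 Ω) * ι0 (b00.coeff i0) = 1 := by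
        apply Subtype.ext
        show c⁻¹ * ((b00.coeff i0 : ringAdj k (u : Set Ω)) : Ω) = 1
        rw [hi0, inv_mul_cancel₀ hc0]
      rw [← h1]
      exact P.mul_mem_left _ hmem⟩ (by
      intro i
      rw [coeff_map]
      exact hg _ (ringAdj_sub_fieldAdj k _ (b00.coeff i).2)) k hkA1
  rw [hevι] at hB3
  have hkB : ∀ x ∈ k, x ∈ B := fun x hx => hB1 x (isIntegral_mem (hkA1 x hx))
  have huB : ∀ x ∈ ringAdj k (insert y (u : Set Ω)), x ∈ B := by
    have hle : ringAdj k (insert y (u : Set Ω)) ≤ B := by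
      rw [ringAdj_le]
      refine ⟨fun x hx => hkB x hx, fun x hx => ?_⟩
      rcases Set.mem_insert_iff.1 hx with rfl | hx
      · exact hB2
      · exact hB1 x (isIntegral_mem (hmono (subset_ringAdj _ _ (Or.inr hx))))
    exact hle
  have hint : ∀ x ∈ ringAdj k (s0 : Set Ω), IsIntegral B x := by
    refine ringAdj_integral hkB fun z hz => ?_
    have h1 := integral_trans (fun x hx => isIntegral_mem (huB x hx)) (hbs z hz)
    have h2 : z = (aeval y b00)⁻¹ * (aeval y b00 * z) := by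
      field_simp
    rw [h2]
    exact (isIntegral_mem hB3).mul h1
  have hfix : ∀ x ∈ ringAdj k (s0 : Set Ω), h x = x := by
    intro x hx
    have hle : fieldAdj k (s0 : Set Ω) ≤ fieldAdj (fieldAdj k (u : Set Ω)) {y} := by
      rw [fieldAdj_le]
      exact ⟨(le_fieldAdj _ _).trans (le_fieldAdj _ _), fun z hz => hs0 z hz⟩
    exact hhK x (hle (ringAdj_sub_fieldAdj k _ hx))
  let j : integralClosure (ringAdj k (s0 : Set Ω)) Ω →+* integralClosure B Ω :=
    { toFun := fun x => ⟨x, integral_trans hint x.2⟩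
      map_one' := rfl
      map_mul' := fun _ _ => rfl
      map_zero' := rfl
      map_add' := fun _ _ => rfl }
  refine ⟨h, hhK, hhg, RingHom.ker (Φ.comp j), RingHom.ker_isPrime _, fun x => ?_⟩
  refine ⟨⟨h x, integral_fixed hfix x.2⟩ - x, ?_, rfl⟩
  rw [RingHom.mem_ker, map_sub, sub_eq_zero]
  exact hΦ (j x) (j ⟨h x, integral_fixed hfix x.2⟩) rfl

/-- finite data in a compositum -/
theorem mem_sup_fin {F L : Subfield Ω} {x : Ω} (hx : x ∈ F ⊔ L) :
    ∃ s : Finset Ω, (∀ z ∈ s, z ∈ L) ∧ x ∈ fieldAdj F (s : Set Ω) := by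
  classical
  have h1 : F ⊔ L = Subfield.closure ((F : Set Ω) ∪ L) := by
    rw [Subfield.closure_union, Subfield.closure_eq, Subfield.closure_eq]
  rw [h1] at hx
  have hmono : ∀ s t : Finset Ω, s ⊆ t → fieldAdj F (s : Set Ω) ≤ fieldAdj F (t : Set Ω) := by
    intro s t hst
    rw [fieldAdj_le]
    exact ⟨le_fieldAdj _ _, fun z hz => mem_fieldAdj (Finset.coe_subset.2 hst hz)⟩
  induction hx using Subfield.closure_induction with
  | mem x hx =>
    rcases hx with hx | hx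
    · exact ⟨∅, by simp, le_fieldAdj _ _ hx⟩
    · exact ⟨{x}, by simpa using hx, mem_fieldAdj (by simp)⟩
  | one => exact ⟨∅, by simp, one_mem _⟩
  | add x y _ _ hx hy =>
    obtain ⟨s, hs, hx⟩ := hx
    obtain ⟨t, ht, hy⟩ := hy
    refine ⟨s ∪ t, fun z hz => (Finset.mem_union.1 hz).elim (hs z) (ht z), ?_⟩
    exact add_mem (hmono s _ Finset.subset_union_left hx) (hmono t _ Finset.subset_union_right hy)
  | neg x _ hx =>
    obtain ⟨s, hs, hx⟩ := hx
    exact ⟨s, hs, neg_mem hx⟩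
  | inv x _ hx =>
    obtain ⟨s, hs, hx⟩ := hx
    exact ⟨s, hs, inv_mem hx⟩
  | mul x y _ _ hx hy =>
    obtain ⟨s, hs, hx⟩ := hx
    obtain ⟨t, ht, hy⟩ := hy
    refine ⟨s ∪ t, fun z hz => (Finset.mem_union.1 hz).elim (hs z) (ht z), ?_⟩
    exact mul_mem (hmono s _ Finset.subset_union_left hx) (hmono t _ Finset.subset_union_right hy)

/-- lifts of automorphisms close to `1` can be chosen close to `1` -/
theorem lift_cont [IsAlgClosed Ω] {k : Subfield Ω} {y : Ω} (hy : Transcendental k y)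
    (S : Finset Ω) (hS : ∀ x ∈ S, IsAlgebraic (fieldAdj k {y}) x) :
    ∃ S' : Finset Ω, (∀ x ∈ S', IsAlgebraic k x) ∧ ∀ g ∈ Gam k, (∀ x ∈ S', g x = x) →
      ∃ h ∈ Gam (fieldAdj k {y}), (∀ x ∈ S, h x = x) ∧ ∀ x ∈ alg k, h x = g x := by
  classical
  set K0 := fieldAdj k {y} with hK0
  set E := K0 ⊔ alg k with hE
  obtain ⟨q, hq⟩ := ExpChar.exists Ω
  have hGE : Gam E ≤ Gam K0 := Gam_mono le_sup_left
  let C : Subring Ω := (alg K0).toSubring
  have hC : ∀ n ∈ Gam E, ∀ x ∈ C, n x ∈ C := fun n hn x hx =>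
    mem_alg.2 (gam_alg (hGE hn) (mem_alg.1 hx))
  have hSC : ∀ x ∈ S, x ∈ C := fun x hx => mem_alg.2 (hS x hx)
  obtain ⟨T, hT1, hT2⟩ := orbit_trick E C hC
    (fun i : Fin S.card => (⟨(S.equivFin.symm i : Ω), hSC _ (S.equivFin.symm i).2⟩ : C))
    (fun i => alg_mono le_sup_left (hS _ (S.equivFin.symm i).2))
  have hT3 : ∀ t : C, ∃ (m : ℕ) (s : Finset Ω), t ∈ T → (∀ z ∈ s, z ∈ alg k) ∧
      (t : Ω) ^ q ^ m ∈ fieldAdj K0 (s : Set Ω) := by
    intro t
    by_cases ht : t ∈ T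
    · obtain ⟨m, hm⟩ := fixed_insep (F := E) (alg_mono le_sup_left (mem_alg.1 t.2)) (hT1 t ht) q
      obtain ⟨s, hs1, hs2⟩ := mem_sup_fin hm
      exact ⟨m, s, fun _ => ⟨hs1, hs2⟩⟩
    · exact ⟨0, ∅, fun h => absurd h ht⟩
  choose m s hms using hT3
  refine ⟨T.biUnion s, ?_, ?_⟩
  · intro x hx
    obtain ⟨t, ht, hxt⟩ := Finset.mem_biUnion.1 hx
    exact mem_alg.1 ((hms t ht).1 x hxt)
  · intro g hg hgS
    obtain ⟨β, hβ1, hβ2⟩ := lift_trans hy g hg
    have hβK0 : β ∈ Gam K0 := by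
      rw [hK0, mem_Gam_fieldAdj]
      refine ⟨fun x hx => ?_, fun x hx => ?_⟩
      · rw [hβ1 x (le_alg k hx)]
        exact hg x hx
      · rw [Set.mem_singleton_iff.1 hx]
        exact hβ2
    let Φ₁ : C →+* Ω := C.subtype
    let Φ₂ : C →+* Ω := (β : Ω →+* Ω).comp C.subtype
    obtain ⟨n, hn⟩ := hT2 Ω Φ₁ Φ₂ (by
      intro t ht
      show (t : Ω) = β t
      obtain ⟨h1, h2⟩ := hms t ht
      have h3 : β ∈ Gam (fieldAdj K0 (s t : Set Ω)) := by
        rw [mem_Gam_fieldAdj]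
        refine ⟨hβK0, fun x hx => ?_⟩
        rw [hβ1 x (h1 x hx)]
        exact hgS x (Finset.mem_biUnion.2 ⟨t, ht, hx⟩)
      apply pow_inj (q := q) (n := m t)
      rw [← map_pow]
      exact (h3 _ h2).symm)
    have hnE : n.1 ∈ Gam E := n.2
    refine ⟨n.1⁻¹ * β, (Gam K0).mul_mem ((Gam K0).inv_mem (hGE n.2)) hβK0, ?_, ?_⟩
    · intro x hx
      have h1 := hn (S.equivFin ⟨x, hx⟩)
      have h2 : β x = n.1 x := by
        have h3 : S.equivFin.symm (S.equivFin ⟨x, hx⟩) = ⟨x, hx⟩ := S.equivFin.symm_apply_apply _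
        have h4 : β (S.equivFin.symm (S.equivFin ⟨x, hx⟩) : Ω) =
            n.1 (S.equivFin.symm (S.equivFin ⟨x, hx⟩) : Ω) := h1
        rw [h3] at h4
        exact h4
      show (n.1⁻¹ : RingAut Ω) (β x) = x
      rw [h2]
      exact RingEquiv.symm_apply_apply n.1 x
    · intro x hx
      show (n.1⁻¹ : RingAut Ω) (β x) = g x
      rw [hβ1 x hx]
      exact ((Gam E).inv_mem n.2) (g x)
        ((le_sup_right : alg k ≤ E) (mem_alg.2 (gam_alg hg (mem_alg.1 hx))))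

end Pool.Agent.U745.FM
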