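import Pool.Agent.U745.FM.Piece

set_option autoImplicit false

namespace Pool.Agent.U745.FM

open Filter Topology

variable {Ω : Type} [Field Ω] {Λ : Type} [Field Λ]

/-- finitely generated fields -/
def FG (F : Subfield Ω) : Prop := ∃ s : Finset Ω, F = Subfield.closure (s : Set Ω)

variable (Ω Λ) in
/-- classes of representations -/
abbrev RepClass : Type 1 := ∀ (F : Subfield Ω) (V : Type) [AddCommGroup V] [Module Λ V],
  Representation Λ (Gam F) V → Prop

/-- known properties of the class of representations which come from geometry -/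
structure Known [TopologicalSpace Λ] (𝒢 : RepClass Ω Λ) : Prop where
  triv : ∀ (F : Subfield Ω) (V : Type) [AddCommGroup V] [Module Λ V] [FiniteDimensional Λ V]
    (ρ : Representation Λ (Gam F) V), (∀ g, ρ g = 1) → 𝒢 F V ρ
  sub : ∀ (F : Subfield Ω) (V W : Type) [AddCommGroup V] [Module Λ V] [AddCommGroup W]
    [Module Λ W] (ρ : Representation Λ (Gam F) V) (ρ' : Representation Λ (Gam F) W)
    (f : V →ₗ[Λ] W), Function.Injective f → Equi ρ ρ' f → 𝒢 F W ρ' → 𝒢 F V ρ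
  quot : ∀ (F : Subfield Ω) (V W : Type) [AddCommGroup V] [Module Λ V] [AddCommGroup W]
    [Module Λ W] (ρ : Representation Λ (Gam F) V) (ρ' : Representation Λ (Gam F) W)
    (f : V →ₗ[Λ] W), Function.Surjective f → Equi ρ ρ' f → 𝒢 F V ρ → 𝒢 F W ρ'
  prod : ∀ (k F : Subfield Ω) (V W : Type) [AddCommGroup V] [Module Λ V] [AddCommGroup W]
    [Module Λ W] (ρ : Representation Λ (Gam (geo k F)) V)
    (ρ' : Representation Λ (Gam (geo k F)) W), FG k → FG F → k ≤ F →
    𝒢 (geo k F) V ρ → 𝒢 (geo k F) W ρ' → 𝒢 (geo k F) (V × W) (ρ.prod ρ')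
  hom : ∀ (k F : Subfield Ω) (V W : Type) [AddCommGroup V] [Module Λ V] [AddCommGroup W]
    [Module Λ W] (ρ : Representation Λ (Gam (geo k F)) V)
    (ρ' : Representation Λ (Gam (geo k F)) W), FG k → FG F → k ≤ F →
    𝒢 (geo k F) V ρ → 𝒢 (geo k F) W ρ' → 𝒢 (geo k F) (V →ₗ[Λ] W) (ρ.linHom ρ')
  restr : ∀ (F F' : Subfield Ω) (h : F ≤ F') (V : Type) [AddCommGroup V] [Module Λ V]
    (ρ : Representation Λ (Gam F) V), 𝒢 F V ρ → 𝒢 F' V (res h ρ)
  arith : ∀ (k F : Subfield Ω) (V : Type) [AddCommGroup V] [Module Λ V]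
    (ρ : Representation Λ (Gam F) V), FG k → FG F → k ≤ F → 𝒢 F V ρ →
    FiniteDimensional Λ V ∧ Cont ρ ∧
      ∃ s : Finset Ω, F = fieldAdj k (s : Set Ω) ∧ Lisse (ringAdj k (s : Set Ω)) ρ
  desc : ∀ (k F : Subfield Ω) (V : Type) [AddCommGroup V] [Module Λ V]
    (ρ : Representation Λ (Gam (geo k F)) V), FG k → FG F → k ≤ F → 𝒢 (geo k F) V ρ →
    ∃ (W : Type) (_ : AddCommGroup W) (_ : Module Λ W) (ρ' : Representation Λ (Gam F) W),
      𝒢 F W ρ' ∧ ∃ f : V →ₗ[Λ] W, Function.Injective f ∧ Equi ρ (res (le_geo k F) ρ') f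

/-- `ρ` is lisse on some model of `F` over `k` -/
def Spread [TopologicalSpace Λ] (k : Subfield Ω) {F : Subfield Ω} {V : Type} [AddCommGroup V]
    [Module Λ V] (ρ : Representation Λ (Gam F) V) : Prop :=
  ∃ s : Finset Ω, F = fieldAdj k (s : Set Ω) ∧ Lisse (ringAdj k (s : Set Ω)) ρ

/-- `F` is separably generated of transcendence degree `n` over `k` -/
def IsFF (k F : Subfield Ω) (n : ℕ) : Prop :=
  ∃ (t : Fin n → Ω) (θ : Ω), AlgebraicIndependent k t ∧
    IsSeparable (fieldAdj k (Set.range t)) θ ∧ F = fieldAdj k (insert θ (Set.range t))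

/-- the claim for irreducible sheaves, in dimension `n` -/
def Claim [TopologicalSpace Λ] (𝒢 : RepClass Ω Λ) (k F : Subfield Ω) : Prop :=
  ∀ (V : Type) [AddCommGroup V] [Module Λ V] [FiniteDimensional Λ V]
    (ρ : Representation Λ (Gam F) V), Irr ρ → Cont ρ → Spread k ρ →
    𝒢 (geo k F) V (res (le_geo k F) ρ)

/-- the claim for lines over `k1` and sheaves which extend to a model over `k` -/
def Lines [TopologicalSpace Λ] (𝒢 : RepClass Ω Λ) (k k1 : Subfield Ω) : Prop :=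
  ∀ (y : Ω), Transcendental k1 y → ∀ S : Finset Ω, (∀ a ∈ S, a ∈ k1) → (¬ CharZero Ω → S = ∅) →
  ∀ (V : Type) [AddCommGroup V] [Module Λ V] [FiniteDimensional Λ V]
    (ρ : Representation Λ (Gam (fieldAdj k1 {y})) V), Irr ρ → Cont ρ →
    Lisse (lineRing k1 y S) ρ → Spread k ρ → 𝒢 (geo k1 (fieldAdj k1 {y})) V (res (le_geo k1 _) ρ)

theorem fg_fieldAdj {k : Subfield Ω} (hk : FG k) (s : Finset Ω) : FG (fieldAdj k (s : Set Ω)) := by
  classical
  obtain ⟨t, rfl⟩ := hk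
  refine ⟨t ∪ s, ?_⟩
  unfold fieldAdj
  rw [Finset.coe_union, Subfield.closure_union, Subfield.closure_union, Subfield.closure_eq]

theorem geo_mono {k k1 K0 F : Subfield Ω} (h1 : k ≤ k1) (h2 : K0 ≤ F) : geo k K0 ≤ geo k1 F := by
  unfold geo
  refine sup_le (h2.trans le_sup_left) (le_trans ?_ le_sup_right)
  intro x hx
  have hx' : IsSeparable k x := mem_sep.1 hx
  let i : Algebra k k1 := (Subfield.inclusion h1).toAlgebra
  have : IsScalarTower k k1 Ω := IsScalarTower.of_algebraMap_eq fun _ => rfl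
  exact mem_sep.2 (hx'.tower_top k1)

theorem fieldAdj_mono {k : Subfield Ω} {s t : Set Ω} (h : s ⊆ t) : fieldAdj k s ≤ fieldAdj k t := by
  rw [fieldAdj_le]
  exact ⟨le_fieldAdj _ _, fun x hx => mem_fieldAdj (h hx)⟩

/-- from the geometric generic fibre to the algebraic closure of the base field -/
theorem core_step [IsAlgClosed Ω] [TopologicalSpace Λ] [IsTopologicalRing Λ] (𝒢 : RepClass Ω Λ)
    (h𝒢 : Known 𝒢) (k : Subfield Ω) (hk : FG k) (u : Finset Ω) (k1 K0 : Subfield Ω)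
    (hk1 : k1 = fieldAdj k (u : Set Ω)) (y : Ω) (hyt : Transcendental k1 y)
    (hK0 : K0 = fieldAdj k1 {y}) (hclaim : Claim 𝒢 k k1) (W : Type) [AddCommGroup W] [Module Λ W]
    [FiniteDimensional Λ W] (σ : Representation Λ (Gam K0) W) (hσirr : Irr σ) (hσc : Cont σ)
    (s0 : Finset Ω) (hs0K : ∀ z ∈ s0, z ∈ K0) (hs0l : Lisse (ringAdj k (s0 : Set Ω)) σ)
    (hgeo1 : 𝒢 (geo k1 K0) W (res (le_geo k1 K0) σ)) :
    𝒢 (geo k K0) W (res (le_geo k K0) σ) := by
  classical
  have hFGk1 : FG k1 := by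
    rw [hk1]
    exact fg_fieldAdj hk u
  have hFGK0 : FG K0 := by
    have := fg_fieldAdj hFGk1 {y}
    rw [Finset.coe_singleton] at this
    rwa [hK0]
  have hk1K0 : k1 ≤ K0 := by
    rw [hK0]
    exact le_fieldAdj _ _
  have hkk1 : k ≤ k1 := by
    rw [hk1]
    exact le_fieldAdj _ _
  have hkK0 : k ≤ K0 := hkk1.trans hk1K0
  obtain ⟨W1, iX1, iX2, σ1, hσ1g, ι, hιinj, hιe⟩ :=
    h𝒢.desc k1 K0 W _ hFGk1 hFGK0 hk1K0 hgeo1
  obtain ⟨iX3, hσ1c, s', hs'K, hs'l⟩ := h𝒢.arith k K0 W1 σ1 hk hFGK0 hkK0 hσ1g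
  set s2 : Finset Ω := s0 ∪ s' with hs2
  have hs2K : ∀ z ∈ s2, z ∈ K0 := by
    intro z hz
    rcases Finset.mem_union.1 hz with h | h
    · exact hs0K z h
    · rw [hs'K]
      exact mem_fieldAdj h
  have hr1 : ∀ z ∈ ringAdj k (s0 : Set Ω), IsIntegral (ringAdj k (s2 : Set Ω)) z := fun z hz =>
    isIntegral_mem (ringAdj_mono (Finset.coe_subset.2 Finset.subset_union_left) hz)
  have hr2 : ∀ z ∈ ringAdj k (s' : Set Ω), IsIntegral (ringAdj k (s2 : Set Ω)) z := fun z hz =>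
    isIntegral_mem (ringAdj_mono (Finset.coe_subset.2 Finset.subset_union_right) hz)
  have hringK0 : ∀ (w : Finset Ω), (∀ z ∈ w, z ∈ K0) → ∀ z ∈ ringAdj k (w : Set Ω), z ∈ K0 := by
    intro w hw
    have hle : ringAdj k (w : Set Ω) ≤ K0.toSubring := by
      rw [ringAdj_le]
      exact ⟨fun z hz => hkK0 hz, fun z hz => hw z hz⟩
    exact hle
  have hσl2 : Lisse (ringAdj k (s2 : Set Ω)) σ := lisse_mono (hringK0 s0 hs0K) hr1 hs0l
  have hσ1l2 : Lisse (ringAdj k (s2 : Set Ω)) σ1 := by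
    refine lisse_mono (hringK0 s' ?_) hr2 hs'l
    intro z hz
    rw [hs'K]
    exact mem_fieldAdj hz
  obtain ⟨M, iM1, iM2, iM3, τ, inc, hτirr, hincinj, hince, hτ1⟩ :=
    hom_piece hk1K0 σ σ1 hσirr.1 ι hιinj hιe
  have hτc : Cont τ := cont_sub inc hincinj hince (cont_hom hσc hσ1c)
  have hτl : Lisse (ringAdj k (s2 : Set Ω)) τ :=
    lisse_sub inc hincinj hince (lisse_hom hσl2 hσ1l2)
  have hIH : 𝒢 (geo k K0) M (res (le_geo k K0) τ) := by
    subst hK0
    obtain ⟨τ', hτ'1, hτ'2, hτ'3⟩ := descend_rep hyt τ hτ1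
    obtain ⟨s1, hs1, hs1l⟩ := hτ'3 k u s2 hk1 hs2K hτl
    have hτ'irr : Irr τ' := by
      refine ⟨hτirr.1, fun U hU => hτirr.2 U fun g w hw => ?_⟩
      have h1 := hU ⟨g.1, Gam_mono (le_fieldAdj _ _) g.2⟩ w hw
      rw [hτ'1 g] at h1
      exact h1
    have hg : 𝒢 (geo k k1) M (res (le_geo k k1) τ') :=
      hclaim M τ' hτ'irr (hτ'2 hτc) ⟨s1, hs1, hs1l⟩
    have hgk : geo k k1 ≤ geo k (fieldAdj k1 {y}) := geo_mono le_rfl (le_fieldAdj _ _)
    have h1 := h𝒢.restr _ _ hgk M _ hg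
    have h2 : res hgk (res (le_geo k k1) τ') = res (le_geo k (fieldAdj k1 {y})) τ := by
      ext g m
      exact LinearMap.congr_fun (hτ'1 ⟨g.1, Gam_mono (le_geo k _) g.2⟩) m
    rwa [h2] at h1
  have hW1g : 𝒢 (geo k K0) W1 (res (le_geo k K0) σ1) := h𝒢.restr _ _ _ W1 _ hσ1g
  have hHomg := h𝒢.hom k K0 _ _ _ _ hk hFGK0 hkK0 hIH hW1g
  refine h𝒢.sub _ _ _ _ _ (evMap inc)
    (ev_inj σ σ1 τ inc hince hσirr hτirr.1 hincinj) ?_ hHomg
  intro g w
  exact ev_equi σ σ1 τ inc hince ⟨g.1, Gam_mono (le_geo k K0) g.2⟩ w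

/-- the inductive step -/
theorem step [IsAlgClosed Ω] [TopologicalSpace Λ] [IsTopologicalRing Λ] (𝒢 : RepClass Ω Λ)
    (h𝒢 : Known 𝒢) (k : Subfield Ω) (hk : FG k) (u : Finset Ω) (x θ : Ω)
    (hx : Transcendental (fieldAdj k (u : Set Ω)) x)
    (hθ : IsSeparable (fieldAdj (fieldAdj k (u : Set Ω)) {x}) θ)
    (hlines : Lines 𝒢 k (fieldAdj k (u : Set Ω))) (hclaim : Claim 𝒢 k (fieldAdj k (u : Set Ω))) :
    Claim 𝒢 k (fieldAdj (fieldAdj k (u : Set Ω)) {x, θ}) := by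
  classical
  set k1 := fieldAdj k (u : Set Ω) with hk1
  set F := fieldAdj k1 {x, θ} with hF
  intro V _ _ _ ρ hirr hcont hspread
  obtain ⟨s, hFs, hl⟩ := hspread
  have hk1x : fieldAdj k1 {x} ≤ F := fieldAdj_mono (by
    intro z hz
    exact Or.inl hz)
  have hFalg : ∀ z ∈ F, IsAlgebraic (fieldAdj k1 {x}) z := by
    have h1 : F = fieldAdj (fieldAdj k1 {x}) {θ} := by
      rw [fieldAdj_fieldAdj, hF]
      congr 1
    rw [h1]
    refine fieldAdj_alg fun z hz => ?_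
    rw [Set.mem_singleton_iff.1 hz]
    exact hθ.isIntegral.isAlgebraic
  have hsF : ∀ z ∈ s, z ∈ F := by
    intro z hz
    rw [hFs]
    exact mem_fieldAdj hz
  obtain ⟨y, hyx, S, hSk, hS, hyt, hxsep, hsint, hxint, hθint, hine⟩ :=
    curve_line k1 x hx θ hθ s fun z hz => hFalg z (hsF z hz)
  set K0 := fieldAdj k1 {y} with hK0
  have hK0x : fieldAdj K0 {x} = fieldAdj k1 {x} := by
    apply le_antisymm
    · rw [fieldAdj_le, hK0, fieldAdj_le]
      refine ⟨⟨le_fieldAdj _ _, ?_⟩, ?_⟩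
      · intro z hz
        rw [Set.mem_singleton_iff.1 hz]
        exact hyx
      · intro z hz
        exact mem_fieldAdj hz
    · rw [fieldAdj_le]
      exact ⟨(le_fieldAdj _ _).trans (le_fieldAdj _ _), fun z hz => mem_fieldAdj hz⟩
  have hK0F : K0 ≤ F := by
    rw [hK0, fieldAdj_le]
    refine ⟨le_fieldAdj _ _, fun z hz => ?_⟩
    rw [Set.mem_singleton_iff.1 hz]
    exact hk1x hyx
  have hFK0 : F = fieldAdj K0 (({x, θ} : Finset Ω) : Set Ω) := by
    apply le_antisymm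
    · rw [hF, fieldAdj_le]
      refine ⟨(le_fieldAdj k1 {y}).trans (le_fieldAdj _ _), fun z hz => mem_fieldAdj ?_⟩
      simpa using hz
    · rw [fieldAdj_le]
      refine ⟨hK0F, fun z hz => ?_⟩
      rw [hF]
      exact mem_fieldAdj (by simpa using hz)
  have hlineK0 : ∀ z ∈ lineRing k1 y S, z ∈ K0 := by
    have hle : lineRing k1 y S ≤ K0.toSubring := by
      unfold lineRing
      rw [ringAdj_le]
      refine ⟨fun z hz => le_fieldAdj _ _ hz, fun z hz => ?_⟩
      have hyK : y ∈ K0 := mem_fieldAdj rfl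
      rcases Set.mem_insert_iff.1 hz with rfl | ⟨a, ha, rfl⟩
      · exact hyK
      · show _ ∈ K0
        exact inv_mem (sub_mem hyK (le_fieldAdj _ _ (hSk a ha)))
    exact hle
  have hsalg : ∀ z ∈ ({x, θ} : Finset Ω), IsAlgebraic K0 z := by
    intro z hz
    have h1 : IsIntegral (lineRing k1 y S) z := by
      rcases Finset.mem_insert.1 hz with rfl | hz
      · exact hxint
      · rw [Finset.mem_singleton.1 hz]
        exact hθint
    exact alg_of_ring hlineK0 h1.isAlgebraic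
  obtain ⟨W, iW1, iW2, iW3, σ, hσirr, ⟨f, hf, hfe⟩, hσcont, hσl⟩ :=
    exists_induced ({x, θ} : Finset Ω) hsalg hFK0 hK0F ρ hirr
  have hσc := hσcont hcont
  have hRF : ∀ z ∈ ringAdj k (s : Set Ω), z ∈ F := by
    intro z hz
    rw [hFs]
    exact ringAdj_sub_fieldAdj k _ hz
  -- lisse on the line
  have hσline : Lisse (lineRing k1 y S) σ := by
    refine hσl (ringAdj k (s : Set Ω)) (lineRing k1 y S) hRF hlineK0 ?_ ?_ hl
    · refine ringAdj_integral (fun z hz => mem_lineRing_base (le_fieldAdj _ _ hz)) ?_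
      intro z hz
      exact hsint z hz
    · intro P hP g hg hgK
      have hgK' := mem_Gam_fieldAdj.1 hgK
      have h1 := hine P hP g hg hgK'.1 (hgK'.2 y rfl)
      rw [hF, mem_Gam_fieldAdj]
      refine ⟨hgK'.1, fun z hz => ?_⟩
      rcases hz with rfl | hz
      · exact h1.1
      · rw [Set.mem_singleton_iff.1 hz]
        exact h1.2
  -- lisse on a model
  have hmodel : ∃ s0 : Finset Ω, (∀ z ∈ s0, z ∈ K0) ∧ K0 ≤ fieldAdj k (s0 : Set Ω) ∧
      Lisse (ringAdj k (s0 : Set Ω)) σ := by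
    have hfracK0 : FracOf (ringAdj k (insert y (u : Set Ω))) K0 := by
      rw [hK0, hk1, fieldAdj_fieldAdj, Set.union_singleton]
      exact fracOf_adj k _
    obtain ⟨a, ha, ha0, hmod⟩ := curve_model hfracK0 k
      (fun z hz => subset_ringAdj _ _ (Or.inl hz)) (u : Set Ω) x θ (by
        rw [hK0x, hk1, fieldAdj_fieldAdj, Set.union_singleton])
      (fun z hz => subset_ringAdj _ _ (Or.inr (Set.mem_insert_of_mem _ hz))) hxsep
      (by rw [hK0x]; exact hθ) s (fun z hz => by rw [hK0x]; exact hFalg z (hsF z hz))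
    have haK0 : a ∈ K0 := hfracK0.1 a ha
    refine ⟨insert a⁻¹ (insert y u), ?_, ?_, ?_⟩
    · intro z hz
      rcases Finset.mem_insert.1 hz with rfl | hz
      · exact inv_mem haK0
      · rcases Finset.mem_insert.1 hz with rfl | hz
        · exact mem_fieldAdj rfl
        · exact le_fieldAdj _ _ (mem_fieldAdj hz)
    · rw [hK0, fieldAdj_le, hk1, fieldAdj_le]
      refine ⟨⟨le_fieldAdj _ _, fun z hz => mem_fieldAdj ?_⟩, fun z hz => mem_fieldAdj ?_⟩
      · rw [Finset.coe_insert, Finset.coe_insert]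
        exact Set.mem_insert_of_mem _ (Set.mem_insert_of_mem _ hz)
      · rw [Finset.coe_insert, Finset.coe_insert, Set.mem_singleton_iff.1 hz]
        exact Set.mem_insert_of_mem _ (Set.mem_insert _ _)
    · have hmono : ringAdj k (insert y (u : Set Ω)) ≤
          ringAdj k ((insert a⁻¹ (insert y u) : Finset Ω) : Set Ω) := by
        apply ringAdj_mono
        intro z hz
        rw [Finset.coe_insert, Finset.coe_insert]
        exact Set.mem_insert_of_mem _ hz
      obtain ⟨h1, h2⟩ := hmod (ringAdj k ((insert a⁻¹ (insert y u) : Finset Ω) : Set Ω))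
        (fun z hz => isIntegral_mem (hmono hz))
        (isIntegral_mem (subset_ringAdj _ _ (Or.inr (by
          rw [Finset.coe_insert]
          exact Set.mem_insert _ _))))
      have hR0K0 : ∀ z ∈ ringAdj k ((insert a⁻¹ (insert y u) : Finset Ω) : Set Ω), z ∈ K0 := by
        have hle : ringAdj k ((insert a⁻¹ (insert y u) : Finset Ω) : Set Ω) ≤ K0.toSubring := by
          rw [ringAdj_le]
          refine ⟨fun z hz => le_fieldAdj _ _ (le_fieldAdj _ _ hz), fun z hz => ?_⟩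
          rcases Finset.mem_insert.1 (Finset.mem_coe.1 hz) with rfl | hz
          · show _ ∈ K0
            exact inv_mem haK0
          · rcases Finset.mem_insert.1 hz with rfl | hz
            · exact mem_fieldAdj (k := k1) (s := {z}) rfl
            · exact le_fieldAdj _ _ (mem_fieldAdj hz)
        exact hle
      refine hσl (ringAdj k (s : Set Ω)) _ hRF hR0K0 ?_ ?_ hl
      · refine ringAdj_integral (fun z hz => subset_ringAdj _ _ (Or.inl hz)) ?_
        intro z hz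
        exact h1 z hz
      · intro P hP g hg hgK
        have h3 := h2 P hP g hg hgK
        rw [hF, mem_Gam_fieldAdj]
        refine ⟨(mem_Gam_fieldAdj.1 hgK).1, fun z hz => ?_⟩
        rcases hz with rfl | hz
        · exact h3.1
        · rw [Set.mem_singleton_iff.1 hz]
          exact h3.2
  obtain ⟨s0, hs0K, hK0s0, hs0l⟩ := hmodel
  have hkK0 : k ≤ K0 := (le_fieldAdj k _).trans (le_fieldAdj k1 _)
  have hK0s : K0 = fieldAdj k (s0 : Set Ω) :=
    le_antisymm hK0s0 (fieldAdj_le.2 ⟨hkK0, fun z hz => hs0K z hz⟩)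
  have hgeo1 : 𝒢 (geo k1 K0) W (res (le_geo k1 K0) σ) :=
    hlines y hyt S hSk hS W σ hσirr hσc hσline ⟨s0, hK0s, hs0l⟩
  -- descent
  have hσg : 𝒢 (geo k K0) W (res (le_geo k K0) σ) :=
    core_step 𝒢 h𝒢 k hk u k1 K0 hk1 y hyt hK0 hclaim W σ hσirr hσc s0 hs0K hs0l hgeo1
  -- conclusion
  have hgF : geo k K0 ≤ geo k F := geo_mono le_rfl hK0F
  have h1 := h𝒢.restr _ _ hgF W _ hσg
  refine h𝒢.quot _ _ _ _ _ f hf ?_ h1
  intro g w
  exact hfe ⟨g.1, Gam_mono (le_geo k F) g.2⟩ w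

end Pool.Agent.U745.FM
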