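import Pool.Agent.U745.FM.Final2

/-!
# Geometric origin

`ℓ`-adic cohomology with coefficients in `Λ` is the cohomology of the big pro-etale site (Bhatt-Scholze;
the site is Mathlib's `AlgebraicGeometry.Scheme.proetaleTopology`) with coefficients in the sheaf of continuous
functions with values in `Λ`.  A representation of `Gam F = Aut(Ω/F)` is of geometric origin if it is a
subquotient of `H^n(Y_Ω, Λ)`, `Y` a smooth projective scheme over `F`.
-/

set_option autoImplicit false

open CategoryTheory AlgebraicGeometry Limits Opposite CategoryTheory.Abelian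

namespace Pool.Agent.U745.FM

section cohomology

/-- The sheaf `U ↦ C(U, Λ)` (continuous functions) of abelian groups on the big pro-etale site of all schemes. -/
noncomputable def coeffSheaf (Λ : Type) [Field Λ] [TopologicalSpace Λ] [IsTopologicalRing Λ] :
    Sheaf Scheme.proetaleTopology.{0} Ab.{1} :=
  (sheafCompose _ AddCommGrpCat.uliftFunctor.{1}).obj
    ⟨continuousMapPresheafAb.{0} Λ, .of_le Scheme.proetaleTopology_le_fpqcTopology
      (isSheaf_fpqcTopology_continuousMapPresheafAb _)⟩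

noncomputable instance : HasExt.{2} (Sheaf Scheme.proetaleTopology.{0} Ab.{1}) :=
  HasExt.standard _

/-- The free abelian sheaf `ℤ[X]` on the sheaf represented by a scheme `X`. -/
noncomputable def freeSheaf : Scheme.{0} ⥤ Sheaf Scheme.proetaleTopology.{0} Ab.{1} :=
  yoneda ⋙ (Functor.whiskeringRight _ _ _).obj (uliftFunctor.{1, 0} ⋙ AddCommGrpCat.free.{1}) ⋙
    presheafToSheaf _ _

/-- The pro-etale cohomology group `H^n(X, Λ) = Ext^n(ℤ[X], C(-, Λ))`. -/
noncomputable abbrev Coh (Λ : Type) [Field Λ] [TopologicalSpace Λ] [IsTopologicalRing Λ]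
    (n : ℕ) (X : Scheme.{0}) : Type 2 :=
  Ext (freeSheaf.obj X) (coeffSheaf Λ) n

variable {Λ : Type} [Field Λ] [TopologicalSpace Λ] [IsTopologicalRing Λ]

/-- The pull-back map `H^n(Y, Λ) → H^n(X, Λ)` of a morphism `X ⟶ Y`. -/
noncomputable def cohPull (n : ℕ) {X Y : Scheme.{0}} (f : X ⟶ Y) (c : Coh Λ n Y) : Coh Λ n X :=
  (Ext.mk₀ (freeSheaf.map f)).comp c (zero_add n)

/-- The endomorphism of the presheaf `C(-, Λ)` given by multiplication by `a ∈ Λ`. -/
noncomputable def scaleMap (a : Λ) :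
    continuousMapPresheafAb.{0, 0} Λ ⟶ continuousMapPresheafAb.{0, 0} Λ where
  app U := AddCommGrpCat.ofHom (AddMonoidHom.mulLeft (ContinuousMap.const U.unop a))

/-- The endomorphism of the sheaf `C(-, Λ)` given by multiplication by `a ∈ Λ`. -/
noncomputable def coeffScale (a : Λ) : coeffSheaf Λ ⟶ coeffSheaf Λ :=
  (sheafCompose _ AddCommGrpCat.uliftFunctor.{1}).map ⟨scaleMap a⟩

/-- Multiplication by `a ∈ Λ` on `H^n(X, Λ)`. -/
noncomputable def cohScale (n : ℕ) {X : Scheme.{0}} (a : Λ) (c : Coh Λ n X) : Coh Λ n X :=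
  c.comp (Ext.mk₀ (coeffScale a)) (add_zero n)

end cohomology

variable {Ω : Type} [Field Ω]

attribute [local instance] MvPolynomial.gradedAlgebra in
/-- The projective space of dimension `N` over `ℤ`. -/
noncomputable def projectiveSpace (N : ℕ) : Scheme.{0} :=
  Proj (MvPolynomial.homogeneousSubmodule (Fin (N + 1)) ℤ)

/-- `f : Y ⟶ Spec F` is smooth and projective: there is a closed immersion of `Y` in the projective space
`ℙ^N × Spec F` over `F`. -/
def SmoothProjective {F : Subfield Ω} {Y : Scheme.{0}} (f : Y ⟶ Spec (CommRingCat.of F)) : Prop :=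
  Smooth f ∧ ∃ (N : ℕ) (i : Y ⟶ projectiveSpace N), IsClosedImmersion (prod.lift i f)

/-- The geometric point `Spec Ω ⟶ Spec F`. -/
noncomputable def geomPoint (F : Subfield Ω) : Spec (CommRingCat.of Ω) ⟶ Spec (CommRingCat.of F) :=
  Spec.map (CommRingCat.ofHom F.subtype)

/-- The geometric fibre `Y_Ω = Y ×_F Ω`. -/
noncomputable def geomFibre {F : Subfield Ω} {Y : Scheme.{0}} (f : Y ⟶ Spec (CommRingCat.of F)) :
    Scheme.{0} := pullback f (geomPoint F)

/-- The automorphism `id × Spec g` of `Y_Ω = Y ×_F Ω` defined by `g ∈ Aut(Ω/F)`. -/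
noncomputable def fibreAut {F : Subfield Ω} {Y : Scheme.{0}} (f : Y ⟶ Spec (CommRingCat.of F))
    (g : Gam F) : geomFibre f ⟶ geomFibre f :=
  pullback.lift (pullback.fst f (geomPoint F))
    (pullback.snd f (geomPoint F) ≫ Spec.map (CommRingCat.ofHom (g.1 : Ω →+* Ω))) (by
      have h : Spec.map (CommRingCat.ofHom (g.1 : Ω →+* Ω)) ≫ geomPoint F = geomPoint F := by
        unfold geomPoint
        rw [← Spec.map_comp]
        congr 1
        ext x
        exact g.2 x x.2
      rw [Category.assoc, h]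
      exact pullback.condition)

variable {Λ : Type} [Field Λ] [TopologicalSpace Λ] [IsTopologicalRing Λ]

/-- **Geometric origin.**  The representation `ρ` of `Gam F` is a subquotient of `H^n(Y_Ω, Λ)` for a smooth
projective scheme `Y` over `F` and an `n`: the set `R` of pairs is the graph of a surjection onto `V` of a
subgroup of `H^n(Y_Ω, Λ)`, it is stable under `Λ` and under `Gam F`. -/
def Origin (F : Subfield Ω) (V : Type) [AddCommGroup V] [Module Λ V]
    (ρ : Representation Λ (Gam F) V) : Prop :=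
  ∃ (Y : Scheme.{0}) (f : Y ⟶ Spec (CommRingCat.of F)), SmoothProjective f ∧
    ∃ (n : ℕ) (R : AddSubgroup (Coh Λ n (geomFibre f) × V)),
      (∀ v, ∃ c, (c, v) ∈ R) ∧ (∀ v, (0, v) ∈ R → v = 0) ∧
      (∀ (a : Λ) (c v), (c, v) ∈ R → (cohScale n a c, a • v) ∈ R) ∧
      ∀ (g : Gam F) (c v), (c, v) ∈ R → (cohPull n (fibreAut f g) c, ρ g v) ∈ R

theorem origin_quot {F : Subfield Ω} {V W : Type} [AddCommGroup V] [Module Λ V] [AddCommGroup W]
    [Module Λ W] {ρ : Representation Λ (Gam F) V} {ρ' : Representation Λ (Gam F) W}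
    (f : V →ₗ[Λ] W) (hf : Function.Surjective f) (he : Equi ρ ρ' f) (h : Origin F V ρ) :
    Origin F W ρ' := by
  obtain ⟨Y, p, hp, n, R, h1, h2, h3, h4⟩ := h
  refine ⟨Y, p, hp, n, R.map ((AddMonoidHom.id _).prodMap f.toAddMonoidHom), ?_, ?_, ?_, ?_⟩
  · intro w
    obtain ⟨v, rfl⟩ := hf w
    obtain ⟨c, hc⟩ := h1 v
    exact ⟨c, ⟨(c, v), hc, rfl⟩⟩
  · rintro w ⟨⟨c, v⟩, hc, hw⟩
    have e1 : c = 0 := congrArg Prod.fst hw
    have e2 : f v = w := congrArg Prod.snd hw
    subst e1
    rw [← e2, h2 v hc, map_zero]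
  · rintro a c w ⟨⟨c', v⟩, hc, hw⟩
    have e1 : c' = c := congrArg Prod.fst hw
    have e2 : f v = w := congrArg Prod.snd hw
    refine ⟨(cohScale n a c', a • v), h3 a c' v hc, ?_⟩
    rw [← e1, ← e2]
    exact Prod.ext rfl (map_smul f a v)
  · rintro g c w ⟨⟨c', v⟩, hc, hw⟩
    have e1 : c' = c := congrArg Prod.fst hw
    have e2 : f v = w := congrArg Prod.snd hw
    refine ⟨(cohPull n (fibreAut p g) c', ρ g v), h4 g c' v hc, ?_⟩
    rw [← e1, ← e2]
    exact Prod.ext rfl (he g v)

theorem origin_sub {F : Subfield Ω} {V W : Type} [AddCommGroup V] [Module Λ V] [AddCommGroup W]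
    [Module Λ W] {ρ : Representation Λ (Gam F) V} {ρ' : Representation Λ (Gam F) W}
    (f : V →ₗ[Λ] W) (hf : Function.Injective f) (he : Equi ρ ρ' f) (h : Origin F W ρ') :
    Origin F V ρ := by
  obtain ⟨Y, p, hp, n, R, h1, h2, h3, h4⟩ := h
  refine ⟨Y, p, hp, n, R.comap ((AddMonoidHom.id _).prodMap f.toAddMonoidHom), ?_, ?_, ?_, ?_⟩
  · intro v
    obtain ⟨c, hc⟩ := h1 (f v)
    exact ⟨c, hc⟩
  · intro v hv
    apply hf
    rw [map_zero]
    exact h2 _ hv
  · intro a c v hv
    have h5 := h3 a c (f v) hv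
    rw [← map_smul] at h5
    exact h5
  · intro g c v hv
    have h5 := h4 g c (f v) hv
    rw [← he] at h5
    exact h5

end Pool.Agent.U745.FM
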