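import Pool.Agent.U745.FM.Reps

set_option autoImplicit false

namespace Pool.Agent.U745.FM

open Filter Topology

variable {Ω : Type} [Field Ω] {Λ : Type} [Field Λ]

theorem sep_invariant {k1 K0 : Subfield Ω} (h : k1 ≤ K0) (g : Gam K0) (z : Ω) (hz : z ∈ sep k1) :
    g.1 z ∈ sep k1 := by
  have hg1 : g.1 ∈ Gam k1 := Gam_mono h g.2
  have hz' : IsSeparable k1 z := mem_sep.1 hz
  have h1 : minpoly k1 (g.1 z) = minpoly k1 z := by
    let e : Ω ≃ₐ[k1] Ω := AlgEquiv.ofRingEquiv (f := g.1) (fun c => hg1 c c.2)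
    exact minpoly.algEquiv_eq e z
  refine mem_sep.2 ?_
  show (minpoly k1 (g.1 z)).Separable
  rw [h1]
  exact hz'

/-- an irreducible piece of the space of homomorphisms over the geometric generic fibre -/
theorem hom_piece {k1 K0 : Subfield Ω} (h : k1 ≤ K0) {W W1 : Type} [AddCommGroup W] [Module Λ W]
    [FiniteDimensional Λ W] [AddCommGroup W1] [Module Λ W1] [FiniteDimensional Λ W1]
    (σ : Representation Λ (Gam K0) W) (σ1 : Representation Λ (Gam K0) W1)
    (hW : ∃ w : W, w ≠ 0) (ι : W →ₗ[Λ] W1) (hι : Function.Injective ι)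
    (hιe : Equi (res (le_geo k1 K0) σ) (res (le_geo k1 K0) σ1) ι) :
    ∃ (M : Type) (_ : AddCommGroup M) (_ : Module Λ M) (_ : FiniteDimensional Λ M)
      (τ : Representation Λ (Gam K0) M) (inc : M →ₗ[Λ] (W →ₗ[Λ] W1)),
      Irr τ ∧ Function.Injective inc ∧ Equi τ (σ.linHom σ1) inc ∧
      ∀ g : Gam K0, (∀ x ∈ sep k1, g.1 x = x) → τ g = 1 := by
  let τH : Representation Λ (Gam K0) (W →ₗ[Λ] W1) := Representation.linHom σ σ1
  let M : Submodule Λ (W →ₗ[Λ] W1) :=
    { carrier := {φ | ∀ g : Gam K0, (∀ x ∈ sep k1, g.1 x = x) → τH g φ = φ}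
      add_mem' := by
        intro φ φ' h1 h2 g hg
        rw [map_add, h1 g hg, h2 g hg]
      zero_mem' := by
        intro g _
        rw [map_zero]
      smul_mem' := by
        intro c φ h1 g hg
        rw [map_smul, h1 g hg] }
  have hMinv : ∀ g, ∀ φ ∈ M, τH g φ ∈ M := by
    intro g φ hφ n hn
    have h1 : τH n (τH g φ) = τH g (τH (g⁻¹ * n * g) φ) := by
      rw [← Module.End.mul_apply, ← Module.End.mul_apply, ← map_mul, ← map_mul]
      congr 2
      group
    rw [h1]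
    congr 1
    apply hφ
    intro z hz
    show (g.1⁻¹ : RingAut Ω) (n.1 (g.1 z)) = z
    rw [hn _ (sep_invariant h g z hz)]
    exact RingEquiv.symm_apply_apply g.1 z
  have hιM : ι ∈ M := by
    intro g hg
    have hgG : g.1 ∈ Gam (geo k1 K0) := by
      have h1 : geo k1 K0 = Subfield.closure ((K0 : Set Ω) ∪ sep k1) := by
        rw [Subfield.closure_union, Subfield.closure_eq, Subfield.closure_eq]
        rfl
      rw [h1]
      exact mem_Gam_fieldAdj.2 ⟨g.2, hg⟩
    apply LinearMap.ext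
    intro w
    show σ1 g (ι (σ g⁻¹ w)) = ι w
    have h2 := hιe ⟨g.1, hgG⟩ (σ g⁻¹ w)
    have h3 : res (le_geo k1 K0) σ ⟨g.1, hgG⟩ (σ g⁻¹ w) = w := by
      show σ g (σ g⁻¹ w) = w
      rw [← Module.End.mul_apply, ← map_mul, mul_inv_cancel, map_one]
      rfl
    rw [h3] at h2
    exact h2.symm
  have hMne : ∃ m : M, m ≠ 0 := by
    refine ⟨⟨ι, hιM⟩, ?_⟩
    intro h0
    obtain ⟨w, hw⟩ := hW
    apply hw
    apply hι
    rw [map_zero]
    have : ι = 0 := congrArg Subtype.val h0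
    rw [this]
    rfl
  obtain ⟨M0, hM0inv, hM0irr⟩ := exists_irr (subRep τH M hMinv) hMne
  refine ⟨M0, inferInstance, inferInstance, inferInstance, subRep (subRep τH M hMinv) M0 hM0inv,
    M.subtype.comp M0.subtype, hM0irr, ?_, ?_, ?_⟩
  · intro a b hab
    exact Subtype.ext (Subtype.ext hab)
  · intro g m
    rfl
  · intro g hg
    apply LinearMap.ext
    intro m
    apply Subtype.ext
    apply Subtype.ext
    exact m.1.2 g hg

/-- the evaluation map -/
def evMap {W W1 M : Type} [AddCommGroup W] [Module Λ W] [AddCommGroup W1] [Module Λ W1]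
    [AddCommGroup M] [Module Λ M] (inc : M →ₗ[Λ] (W →ₗ[Λ] W1)) : W →ₗ[Λ] (M →ₗ[Λ] W1) :=
  LinearMap.flip inc

theorem ev_equi {F : Subfield Ω} {W W1 M : Type} [AddCommGroup W] [Module Λ W] [AddCommGroup W1]
    [Module Λ W1] [AddCommGroup M] [Module Λ M] (σ : Representation Λ (Gam F) W)
    (σ1 : Representation Λ (Gam F) W1) (τ : Representation Λ (Gam F) M)
    (inc : M →ₗ[Λ] (W →ₗ[Λ] W1)) (h : Equi τ (σ.linHom σ1) inc) :
    Equi σ (τ.linHom σ1) (evMap inc) := by
  intro g w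
  apply LinearMap.ext
  intro m
  show inc m (σ g w) = σ1 g (inc (τ g⁻¹ m) w)
  have h1 : inc (τ g⁻¹ m) = σ.linHom σ1 g⁻¹ (inc m) := h g⁻¹ m
  rw [h1]
  show inc m (σ g w) = σ1 g (σ1 g⁻¹ (inc m (σ (g⁻¹)⁻¹ w)))
  rw [inv_inv, ← Module.End.mul_apply, ← map_mul, mul_inv_cancel, map_one]
  rfl

theorem ev_inj {F : Subfield Ω} {W W1 M : Type} [AddCommGroup W] [Module Λ W] [AddCommGroup W1]
    [Module Λ W1] [AddCommGroup M] [Module Λ M] (σ : Representation Λ (Gam F) W)
    (σ1 : Representation Λ (Gam F) W1) (τ : Representation Λ (Gam F) M)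
    (inc : M →ₗ[Λ] (W →ₗ[Λ] W1)) (h : Equi τ (σ.linHom σ1) inc) (hσ : Irr σ)
    (hM : ∃ m : M, m ≠ 0) (hinc : Function.Injective inc) : Function.Injective (evMap inc) := by
  have he := ev_equi σ σ1 τ inc h
  rcases hσ.2 (LinearMap.ker (evMap inc)) (by
    intro g w hw
    have h1 := he g w
    rw [LinearMap.mem_ker.1 hw, map_zero] at h1
    exact h1) with h1 | h1
  · exact LinearMap.ker_eq_bot.1 h1
  · exfalso
    obtain ⟨m, hm⟩ := hM
    apply hm
    apply hinc
    rw [map_zero]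
    apply LinearMap.ext
    intro w
    have h2 : w ∈ LinearMap.ker (evMap inc) := by
      rw [h1]
      exact Submodule.mem_top
    exact LinearMap.congr_fun h2 m

end Pool.Agent.U745.FM
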