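import Pool.Agent.U745.FM.LiftK

set_option autoImplicit false

namespace Pool.Agent.U745.FM

open Filter Topology

variable {Ω : Type} [Field Ω] {Λ : Type} [Field Λ]

theorem tendsto_inv_nhOne (F : Subfield Ω) : Tendsto (fun g : Gam F => g⁻¹) (nhOne F) (nhOne F) := by
  intro S hS
  obtain ⟨s, hs, hsS⟩ := mem_nhOne.1 hS
  refine mem_nhOne.2 ⟨s, hs, fun g hg => hsS _ fun x hx => ?_⟩
  have h1 := hg x hx
  show (g.1⁻¹ : RingAut Ω) x = x
  show g.1.symm x = x
  rw [RingEquiv.symm_apply_eq]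
  exact h1.symm

theorem cont_sub [TopologicalSpace Λ] {F : Subfield Ω} {V W : Type} [AddCommGroup V] [Module Λ V]
    [AddCommGroup W] [Module Λ W] {ρ : Representation Λ (Gam F) V}
    {ρ' : Representation Λ (Gam F) W} (f : V →ₗ[Λ] W) (hf : Function.Injective f)
    (he : Equi ρ ρ' f) (h : Cont ρ') : Cont ρ := by
  intro v φ
  have hker : LinearMap.ker f = ⊥ := LinearMap.ker_eq_bot.2 hf
  obtain ⟨r, hr⟩ := LinearMap.exists_leftInverse_of_injective f hker
  have h1 : ∀ u, φ u = (φ.comp r) (f u) := by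
    intro u
    have : r (f u) = u := LinearMap.congr_fun hr u
    show φ u = φ (r (f u))
    rw [this]
  rw [h1 v]
  refine (h (f v) (φ.comp r)).congr fun g => ?_
  rw [h1, he]

theorem cont_quot [TopologicalSpace Λ] {F : Subfield Ω} {V W : Type} [AddCommGroup V] [Module Λ V]
    [AddCommGroup W] [Module Λ W] {ρ : Representation Λ (Gam F) V}
    {ρ' : Representation Λ (Gam F) W} (f : V →ₗ[Λ] W) (hf : Function.Surjective f)
    (he : Equi ρ ρ' f) (h : Cont ρ) : Cont ρ' := by
  intro w φ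
  obtain ⟨v, rfl⟩ := hf w
  refine (h v (φ.comp f)).congr fun g => ?_
  show φ (f (ρ g v)) = φ (ρ' g (f v))
  rw [he]

theorem cont_hom [TopologicalSpace Λ] [IsTopologicalRing Λ] {F : Subfield Ω} {V W : Type}
    [AddCommGroup V] [Module Λ V] [FiniteDimensional Λ V] [AddCommGroup W] [Module Λ W]
    [FiniteDimensional Λ W] {ρ : Representation Λ (Gam F) V} {ρ' : Representation Λ (Gam F) W}
    (h : Cont ρ) (h' : Cont ρ') : Cont (Representation.linHom ρ ρ') := by
  intro f φ
  let b := Module.finBasis Λ V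
  let c := Module.finBasis Λ W
  have key : ∀ A : V →ₗ[Λ] W, φ A = ∑ i, ∑ j, (c.coord j (A (b i))) *
      φ ((b.coord i).smulRight (c j)) := by
    intro A
    have h1 : A = ∑ i, ∑ j, (c.coord j (A (b i))) • ((b.coord i).smulRight (c j)) := by
      refine b.ext fun l => ?_
      simp only [LinearMap.sum_apply, LinearMap.smul_apply, LinearMap.smulRight_apply,
        Module.Basis.coord_apply, Module.Basis.repr_self]
      rw [Finset.sum_eq_single l]
      · simp only [Finsupp.single_eq_same, one_smul]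
        exact (c.sum_repr (A (b l))).symm
      · intro i _ hi
        refine Finset.sum_eq_zero fun j _ => ?_
        rw [Finsupp.single_eq_of_ne hi, zero_smul, smul_zero]
      · intro hl
        exact absurd (Finset.mem_univ l) hl
    conv_lhs => rw [h1]
    rw [map_sum]
    refine Finset.sum_congr rfl fun i _ => ?_
    rw [map_sum]
    refine Finset.sum_congr rfl fun j _ => ?_
    rw [map_smul, smul_eq_mul]
  have hone : ∀ {U : Type} [AddCommGroup U] [Module Λ U] {τ : Representation Λ (Gam F) U}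
      (_ : Cont τ) (u : U) (ψ : U →ₗ[Λ] Λ),
      Tendsto (fun g : Gam F => ψ (τ g⁻¹ u)) (nhOne F) (𝓝 (ψ u)) := by
    intro U _ _ τ hτ u ψ
    exact (hτ u ψ).comp (tendsto_inv_nhOne F)
  have hterm : ∀ (i : Fin (Module.finrank Λ V)) (j : Fin (Module.finrank Λ W)),
      Tendsto (fun g : Gam F => c.coord j ((Representation.linHom ρ ρ' g f) (b i))) (nhOne F)
        (𝓝 (c.coord j (f (b i)))) := by
    intro i j
    have h2 : ∀ g : Gam F, c.coord j ((Representation.linHom ρ ρ' g f) (b i)) =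
        ∑ l, (b.coord l (ρ g⁻¹ (b i))) * (c.coord j (ρ' g (f (b l)))) := by
      intro g
      rw [Representation.linHom_apply]
      show c.coord j (ρ' g (f (ρ g⁻¹ (b i)))) = _
      conv_lhs => rw [← b.sum_repr (ρ g⁻¹ (b i))]
      rw [map_sum, map_sum, map_sum]
      refine Finset.sum_congr rfl fun l _ => ?_
      rw [map_smul, map_smul, map_smul, smul_eq_mul]
      rfl
    have h3 : c.coord j (f (b i)) = ∑ l, (b.coord l (b i)) * (c.coord j (f (b l))) := by
      conv_lhs => rw [← b.sum_repr (b i)]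
      rw [map_sum, map_sum]
      refine Finset.sum_congr rfl fun l _ => ?_
      rw [map_smul, map_smul, smul_eq_mul]
      rfl
    rw [h3]
    refine Tendsto.congr (fun g => (h2 g).symm) ?_
    refine tendsto_finsetSum _ fun l _ => ?_
    exact (hone h (b i) (b.coord l)).mul (h' (f (b l)) (c.coord j))
  rw [key f]
  refine Tendsto.congr (fun g => (key _).symm) ?_
  refine tendsto_finsetSum _ fun i _ => tendsto_finsetSum _ fun j _ => ?_
  exact (hterm i j).mul tendsto_const_nhds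

theorem lisse_sub {F : Subfield Ω} {V W : Type} [AddCommGroup V] [Module Λ V]
    [AddCommGroup W] [Module Λ W] {ρ : Representation Λ (Gam F) V}
    {ρ' : Representation Λ (Gam F) W} (f : V →ₗ[Λ] W) (hf : Function.Injective f)
    (he : Equi ρ ρ' f) {R : Subring Ω} (h : Lisse R ρ') : Lisse R ρ := by
  intro P hP g hg
  apply LinearMap.ext
  intro v
  apply hf
  rw [he, h P hP g hg]
  rfl

theorem rep_inv_one {F : Subfield Ω} {V : Type} [AddCommGroup V] [Module Λ V]
    {ρ : Representation Λ (Gam F) V} {g : Gam F} (h : ρ g = 1) : ρ g⁻¹ = 1 := by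
  have h1 : ρ g⁻¹ * ρ g = 1 := by rw [← map_mul, inv_mul_cancel, map_one]
  rwa [h, mul_one] at h1

theorem lisse_hom {F : Subfield Ω} {V W : Type} [AddCommGroup V] [Module Λ V]
    [AddCommGroup W] [Module Λ W] {ρ : Representation Λ (Gam F) V}
    {ρ' : Representation Λ (Gam F) W} {R : Subring Ω} (h : Lisse R ρ) (h' : Lisse R ρ') :
    Lisse R (Representation.linHom ρ ρ') := by
  intro P hP g hg
  apply LinearMap.ext
  intro f
  rw [Representation.linHom_apply, h' P hP g hg, rep_inv_one (h P hP g hg)]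
  rfl

theorem lisse_mono {F : Subfield Ω} {V : Type} [AddCommGroup V] [Module Λ V]
    {ρ : Representation Λ (Gam F) V} {R R' : Subring Ω} (hR : ∀ x ∈ R, x ∈ F)
    (hRR : ∀ x ∈ R, IsIntegral R' x) (h : Lisse R ρ) : Lisse R' ρ := by
  intro P hP g hg
  obtain ⟨Q, hQ, hQg⟩ := inertia_mono hRR hP hg (fun x hx => g.2 x (hR x hx))
  exact h Q hQ g hQg

/-- representations of the group of `k1(y)` which are trivial on the group of `k1^sep(y)` descend -/
theorem descend_rep [IsAlgClosed Ω] [TopologicalSpace Λ] {k1 : Subfield Ω} {y : Ω}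
    (hy : Transcendental k1 y) {V : Type} [AddCommGroup V] [Module Λ V]
    (τ : Representation Λ (Gam (fieldAdj k1 {y})) V)
    (hτ : ∀ g : Gam (fieldAdj k1 {y}), (∀ x ∈ sep k1, g.1 x = x) → τ g = 1) :
    ∃ τ' : Representation Λ (Gam k1) V,
      (∀ g : Gam (fieldAdj k1 {y}), τ' ⟨g.1, Gam_mono (le_fieldAdj _ _) g.2⟩ = τ g) ∧
      (Cont τ → Cont τ') ∧
      ∀ (k : Subfield Ω) (u s0 : Finset Ω), k1 = fieldAdj k (u : Set Ω) →
        (∀ z ∈ s0, z ∈ fieldAdj k1 {y}) → Lisse (ringAdj k (s0 : Set Ω)) τ →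
        ∃ s1 : Finset Ω, k1 = fieldAdj k (s1 : Set Ω) ∧ Lisse (ringAdj k (s1 : Set Ω)) τ' := by
  have hlift : ∀ g : Gam k1, ∃ h : Gam (fieldAdj k1 {y}), ∀ x ∈ alg k1, h.1 x = g.1 x := by
    intro g
    obtain ⟨β, h1, h2⟩ := lift_trans hy g.1 g.2
    refine ⟨⟨β, ?_⟩, h1⟩
    rw [mem_Gam_fieldAdj]
    refine ⟨fun x hx => ?_, fun x hx => ?_⟩
    · rw [h1 x (le_alg k1 hx)]
      exact g.2 x hx
    · rw [Set.mem_singleton_iff.1 hx]
      exact h2
  have hwd : ∀ h h' : Gam (fieldAdj k1 {y}), (∀ x ∈ alg k1, h.1 x = h'.1 x) → τ h = τ h' := by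
    intro h h' hh
    have h1 : τ (h⁻¹ * h') = 1 := by
      apply hτ
      intro x hx
      show (h.1⁻¹ : RingAut Ω) (h'.1 x) = x
      rw [← hh x (sep_le_alg k1 hx)]
      exact RingEquiv.symm_apply_apply h.1 x
    have h2 : τ h * τ (h⁻¹ * h') = τ h' := by
      rw [← map_mul, mul_inv_cancel_left]
    rw [h1, mul_one] at h2
    exact h2
  choose L hL using hlift
  have halg : ∀ (g : Gam k1) (x : Ω), x ∈ alg k1 → g.1 x ∈ alg k1 := fun g x hx =>
    mem_alg.2 (gam_alg g.2 (mem_alg.1 hx))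
  let τ' : Representation Λ (Gam k1) V :=
    { toFun := fun g => τ (L g)
      map_one' := by
        rw [← map_one τ]
        apply hwd
        intro x hx
        rw [hL 1 x hx]
        rfl
      map_mul' := by
        intro g g'
        rw [← map_mul]
        apply hwd
        intro x hx
        rw [hL _ x hx]
        show g.1 (g'.1 x) = (L g).1 ((L g').1 x)
        rw [hL g' x hx, hL g _ (halg g' x hx)] }
  have hτ' : ∀ (g : Gam k1) (h : Gam (fieldAdj k1 {y})), (∀ x ∈ alg k1, h.1 x = g.1 x) →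
      τ' g = τ h := by
    intro g h hh
    apply hwd
    intro x hx
    rw [hL g x hx, hh x hx]
  refine ⟨τ', fun g => hτ' _ g fun x _ => rfl, ?_, ?_⟩
  · intro hc v φ U hU
    obtain ⟨S, hS, hSU⟩ := mem_nhOne.1 (hc v φ hU)
    obtain ⟨S', hS', hlc⟩ := lift_cont hy S hS
    refine mem_nhOne.2 ⟨S', hS', fun g hg => ?_⟩
    obtain ⟨h, hh, hhS, hhg⟩ := hlc g.1 g.2 hg
    show φ (τ' g v) ∈ U
    rw [hτ' g ⟨h, hh⟩ hhg]
    exact hSU ⟨h, hh⟩ hhS
  · intro k u s0 hk1 hs0 hl
    subst hk1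
    obtain ⟨s1, hs1, hlift⟩ := lift_inertia k u y hy s0 hs0
    refine ⟨s1, hs1.symm, fun P hP g hg => ?_⟩
    obtain ⟨h, hh, hhg, Q, hQ, hQh⟩ := hlift P hP g.1 g.2 hg
    rw [hτ' g ⟨h, hh⟩ hhg]
    exact hl Q hQ ⟨h, hh⟩ hQh

end Pool.Agent.U745.FM
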