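import Pool.Agent.U745.FM.Etale

set_option autoImplicit false

namespace Pool.Agent.U745.FM

open Polynomial

variable {Ω : Type} [Field Ω]

/-- `F` is the field of fractions of `R` -/
def FracOf (R : Subring Ω) (F : Subfield Ω) : Prop :=
  (∀ x ∈ R, x ∈ F) ∧ ∀ x ∈ F, ∃ a ∈ R, ∃ b ∈ R, b ≠ 0 ∧ x = a / b

theorem fracOf_adj (k : Subfield Ω) (s : Set Ω) : FracOf (ringAdj k s) (fieldAdj k s) := by
  refine ⟨fun x hx => ringAdj_sub_fieldAdj k s hx, fun x hx => ?_⟩
  unfold fieldAdj at hx
  rw [Subfield.mem_closure_iff] at hx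
  obtain ⟨y, hy, z, hz, h⟩ := hx
  by_cases hz0 : z = 0
  · refine ⟨0, Subring.zero_mem _, 1, Subring.one_mem _, one_ne_zero, ?_⟩
    rw [← h, hz0, div_zero, zero_div]
  · exact ⟨y, hy, z, hz, hz0, h.symm⟩

theorem isAlgebraic_of_frac {R : Subring Ω} {F : Subfield Ω} (h : FracOf R F) {x : Ω}
    (hx : IsAlgebraic F x) : IsAlgebraic R x := by
  have hle : R ≤ F.toSubring := h.1
  letI : Algebra R F := (Subring.inclusion hle).toAlgebra
  haveI : IsScalarTower R F Ω := IsScalarTower.of_algebraMap_eq fun _ => rfl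
  haveI : IsFractionRing R F := by
    refine ⟨?_, ?_, ?_⟩
    · rintro ⟨y, hy⟩
      rw [isUnit_iff_ne_zero]
      intro h0
      have h1 : (y : Ω) = 0 := congrArg Subtype.val h0
      exact (nonZeroDivisors.ne_zero hy) (Subtype.ext h1)
    · intro z
      obtain ⟨a, ha, b, hb, hb0, hz⟩ := h.2 z z.2
      refine ⟨⟨⟨a, ha⟩, ⟨⟨b, hb⟩, ?_⟩⟩, ?_⟩
      · exact mem_nonZeroDivisors_of_ne_zero fun h0 => hb0 (congrArg Subtype.val h0)
      · apply Subtype.ext
        show (z : Ω) * b = a
        rw [hz]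
        field_simp
    · intro y z hyz
      refine ⟨1, ?_⟩
      have h1 : (y : Ω) = z := congrArg (Subtype.val : F → Ω) hyz
      rw [Subtype.ext h1]
  exact (IsFractionRing.isAlgebraic_iff R F Ω).2 hx

/-- a common denominator -/
theorem exists_denom {R : Subring Ω} {F : Subfield Ω} (h : FracOf R F) (s : Finset Ω)
    (hs : ∀ x ∈ s, IsAlgebraic F x) : ∃ a ∈ R, a ≠ 0 ∧ ∀ x ∈ s, IsIntegral R (a * x) := by
  classical
  induction s using Finset.induction_on with
  | empty => exact ⟨1, R.one_mem, one_ne_zero, by simp⟩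
  | insert x s hx ih =>
    obtain ⟨a, ha, ha0, hi⟩ := ih fun y hy => hs y (Finset.mem_insert_of_mem hy)
    obtain ⟨b, hb0, hb⟩ := (isAlgebraic_of_frac h (hs x (Finset.mem_insert_self _ _))).exists_integral_multiple
    have hb1 : (b : Ω) ≠ 0 := fun h0 => hb0 (Subtype.ext h0)
    refine ⟨a * b, R.mul_mem ha b.2, mul_ne_zero ha0 hb1, fun y hy => ?_⟩
    rcases Finset.mem_insert.1 hy with rfl | hy
    · have : a * b * y = a * (b • y) := by
        rw [mul_assoc]
        rfl
      rw [this]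
      exact (isIntegral_algebraMap (R := R) (A := Ω) (x := ⟨a, ha⟩)).mul hb
    · have : a * b * y = b * (a * y) := by ring
      rw [this]
      exact (isIntegral_algebraMap (R := R) (A := Ω) (x := b)).mul (hi y hy)

theorem isIntegral_mem {R : Subring Ω} {x : Ω} (hx : x ∈ R) : IsIntegral R x :=
  isIntegral_algebraMap (R := R) (A := Ω) (x := ⟨x, hx⟩)

theorem isAlgebraic_aeval {F : Subfield Ω} {θ : Ω} (h : IsIntegral F θ) (p : Polynomial F) :
    IsAlgebraic F (aeval θ p) := by
  have h1 : ((aeval (⟨θ, h⟩ : integralClosure F Ω) p : integralClosure F Ω) : Ω) = aeval θ p := by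
    have := Polynomial.aeval_algebraMap_apply Ω (⟨θ, h⟩ : integralClosure F Ω) p
    exact this.symm
  rw [← h1]
  exact (aeval (⟨θ, h⟩ : integralClosure F Ω) p).2.isAlgebraic

/-- spreading out one separable generator and a finite set -/
theorem spread_one {R : Subring Ω} {F : Subfield Ω} (h : FracOf R F) (s : Finset Ω)
    (hs : ∀ x ∈ s, IsAlgebraic F x) (θ : Ω) (hθ : IsSeparable F θ) :
    ∃ a ∈ R, a ≠ 0 ∧ ∀ R' : Subring Ω, (∀ y ∈ R, IsIntegral R' y) → IsIntegral R' a⁻¹ →
      (∀ y ∈ s, IsIntegral R' y) ∧ IsIntegral R' θ ∧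
      ∀ P : Ideal (integralClosure R' Ω), P.IsPrime → ∀ g : RingAut Ω, InInertia R' P g →
        g ∈ Gam F → g θ = θ := by
  classical
  have hθi : IsIntegral F θ := hθ.isIntegral
  set m : Polynomial Ω := (minpoly F θ).map (algebraMap F Ω) with hm
  have hm0 : m.eval θ = 0 := by
    rw [hm, eval_map_algebraMap]
    exact minpoly.aeval F θ
  have hm1 : m.derivative.eval θ ≠ 0 := by
    rw [hm, derivative_map, eval_map_algebraMap]
    exact hθ.aeval_derivative_ne_zero (minpoly.aeval F θ)
  have hF : ∀ x ∈ F, IsAlgebraic F x := fun x hx => isAlgebraic_algebraMap (⟨x, hx⟩ : F)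
  set T : Finset Ω := s ∪ {θ, (m.derivative.eval θ)⁻¹} ∪ m.coeffs with hT
  have hTa : ∀ x ∈ T, IsAlgebraic F x := by
    intro x hx
    rw [hT, Finset.mem_union, Finset.mem_union, Finset.mem_insert, Finset.mem_singleton] at hx
    rcases hx with (hx | hx | hx) | hx
    · exact hs x hx
    · rw [hx]
      exact hθi.isAlgebraic
    · rw [hx, hm, derivative_map, eval_map_algebraMap]
      exact (isAlgebraic_aeval hθi _).inv
    · obtain ⟨i, -, rfl⟩ := Polynomial.mem_coeffs_iff.1 hx
      rw [hm, coeff_map]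
      exact isAlgebraic_algebraMap _
  obtain ⟨a, ha, ha0, hi⟩ := exists_denom h T hTa
  refine ⟨a, ha, ha0, fun R' hR' ha' => ?_⟩
  have key : ∀ x ∈ T, IsIntegral R' x := by
    intro x hx
    have h1 : x = a⁻¹ * (a * x) := by field_simp
    rw [h1]
    exact ha'.mul (integral_trans hR' (hi x hx))
  have hcoef : ∀ i, IsIntegral R' (m.coeff i) := by
    intro i
    by_cases h0 : m.coeff i = 0
    · rw [h0]
      exact isIntegral_zero
    · exact key _ (Finset.mem_union_right _ (Polynomial.coeff_mem_coeffs h0))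
  refine ⟨fun y hy => key y (Finset.mem_union_left _ (Finset.mem_union_left _ hy)),
    key θ (Finset.mem_union_left _ (Finset.mem_union_right _ (Finset.mem_insert_self _ _))),
    fun P hP g hg hgF => ?_⟩
  refine fixes_of_unit hP hg (key θ (Finset.mem_union_left _ (Finset.mem_union_right _
    (Finset.mem_insert_self _ _)))) m hcoef ?_ hm0 (key _ (Finset.mem_union_left _
    (Finset.mem_union_right _ (Finset.mem_insert_of_mem (Finset.mem_singleton_self _))))) hm1
  intro i
  rw [hm, coeff_map]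
  exact hgF _ ((minpoly F θ).coeff i).2

end Pool.Agent.U745.FM
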