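import Pool.Agent.U745.FM.Ind
import Pool.Agent.U745.FM.Ext

set_option autoImplicit false

namespace Pool.Agent.U745.FM

open Polynomial Filter

variable {Ω : Type} [Field Ω]

/-- the action on an invariant subring -/
def act {E : Subfield Ω} (C : Subring Ω) (hC : ∀ n ∈ Gam E, ∀ x ∈ C, n x ∈ C) (n : Gam E) :
    C →+* C where
  toFun x := ⟨n.1 x, hC n.1 n.2 x x.2⟩
  map_one' := Subtype.ext (map_one n.1)
  map_mul' _ _ := Subtype.ext (map_mul n.1 _ _)
  map_zero' := Subtype.ext (map_zero n.1)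
  map_add' _ _ := Subtype.ext (map_add n.1 _ _)

theorem finite_orbit {E : Subfield Ω} {m : ℕ} (c : Fin m → Ω) (hc : ∀ i, IsAlgebraic E (c i)) :
    (Set.range fun n : Gam E => fun i => n.1 (c i)).Finite := by
  classical
  obtain ⟨D, hD⟩ := finite_cosets (Finset.univ.image c) (F0 := E) (by
    intro x hx
    obtain ⟨i, -, rfl⟩ := Finset.mem_image.1 hx
    exact hc i)
  refine ((D.image fun d : Gam E => fun i => (d.1)⁻¹ (c i)).finite_toSet).subset ?_
  rintro _ ⟨n, rfl⟩
  obtain ⟨d, hd, hnd⟩ := hD n⁻¹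
  rw [Finset.mem_coe, Finset.mem_image]
  refine ⟨d, hd, ?_⟩
  funext i
  have h1 := hnd (c i) (mem_fieldAdj (by
    rw [Finset.mem_coe]
    exact Finset.mem_image_of_mem _ (Finset.mem_univ i)))
  have h2 : (n.1)⁻¹ ((d.1)⁻¹ (c i)) = c i := h1
  have h3 : n.1 ((n.1)⁻¹ ((d.1)⁻¹ (c i))) = (d.1)⁻¹ (c i) := RingEquiv.apply_symm_apply n.1 _
  show (d.1)⁻¹ (c i) = n.1 (c i)
  rw [← h3, h2]

/-- the orbit polynomial trick -/
theorem orbit_trick (E : Subfield Ω) (C : Subring Ω) (hC : ∀ n ∈ Gam E, ∀ x ∈ C, n x ∈ C)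
    {m : ℕ} (c : Fin m → C) (hc : ∀ i, IsAlgebraic E (c i : Ω)) :
    ∃ T : Finset C, (∀ t ∈ T, ∀ n ∈ Gam E, n (t : Ω) = t) ∧
      ∀ (κ : Type) [Field κ] (Φ₁ Φ₂ : C →+* κ), (∀ t ∈ T, Φ₁ t = Φ₂ t) →
        ∃ n : Gam E, ∀ i, Φ₂ (c i) = Φ₁ (act C hC n (c i)) := by
  classical
  let p : Polynomial C := ∑ i : Fin m, Polynomial.C (c i) * X ^ (i : ℕ)
  have hpc : ∀ i : Fin m, p.coeff i = c i := by
    intro i
    show (∑ j : Fin m, Polynomial.C (c j) * X ^ (j : ℕ)).coeff i = c i
    rw [finset_sum_coeff]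
    simp only [coeff_C_mul_X_pow]
    rw [Finset.sum_eq_single i]
    · simp
    · intro j _ hj
      rw [if_neg]
      intro h
      exact hj (Fin.ext h.symm)
    · intro h
      exact absurd (Finset.mem_univ i) h
  have hpm : ∀ n : Gam E, p.map (act C hC n) = ∑ i : Fin m,
      Polynomial.C (act C hC n (c i)) * X ^ (i : ℕ) := by
    intro n
    show (∑ j : Fin m, Polynomial.C (c j) * X ^ (j : ℕ)).map (act C hC n) = _
    rw [Polynomial.map_sum]
    refine Finset.sum_congr rfl fun i _ => ?_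
    rw [Polynomial.map_mul, Polynomial.map_C, Polynomial.map_pow, Polynomial.map_X]
  have hfin : (Set.range fun n : Gam E => p.map (act C hC n)).Finite := by
    have h1 := (finite_orbit (fun i => (c i : Ω)) hc)
    refine Set.Finite.of_finite_image (f := fun q : Polynomial C => fun i : Fin m => (q.coeff i : Ω)) ?_ ?_
    · refine h1.subset ?_
      rintro _ ⟨_, ⟨n, rfl⟩, rfl⟩
      refine ⟨n, ?_⟩
      funext i
      show n.1 (c i : Ω) = (((p.map (act C hC n)).coeff i : C) : Ω)
      rw [coeff_map, hpc]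
      rfl
    · rintro _ ⟨n, rfl⟩ _ ⟨n', rfl⟩ h
      show p.map (act C hC n) = p.map (act C hC n')
      rw [hpm, hpm]
      refine Finset.sum_congr rfl fun i _ => ?_
      have h2 : (((p.map (act C hC n)).coeff i : C) : Ω) = ((p.map (act C hC n')).coeff i : C) :=
        congrFun h i
      rw [coeff_map, coeff_map, hpc] at h2
      rw [Subtype.ext h2]
  let O : Finset (Polynomial C) := hfin.toFinset
  have hO : ∀ q, q ∈ O ↔ ∃ n : Gam E, p.map (act C hC n) = q := fun q => by
    show q ∈ hfin.toFinset ↔ _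
    rw [Set.Finite.mem_toFinset]
    exact Iff.rfl
  let P : Polynomial (Polynomial C) := ∏ q ∈ O, (X - Polynomial.C q)
  have hpO : p ∈ O := by
    rw [hO]
    refine ⟨1, ?_⟩
    have : act C hC 1 = RingHom.id C := by
      ext x
      rfl
    rw [this, Polynomial.map_id]
  have hact : ∀ n n' : Gam E, (act C hC n).comp (act C hC n') = act C hC (n * n') := by
    intro n n'
    ext x
    rfl
  have hPinv : ∀ n : Gam E, P.map (mapRingHom (act C hC n)) = P := by
    intro n
    show (∏ q ∈ O, (X - Polynomial.C q)).map (mapRingHom (act C hC n)) = ∏ q ∈ O, (X - Polynomial.C q)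
    rw [Polynomial.map_prod]
    have h1 : ∀ q ∈ O, (X - Polynomial.C q : Polynomial (Polynomial C)).map (mapRingHom (act C hC n)) =
        X - Polynomial.C (q.map (act C hC n)) := by
      intro q _
      rw [Polynomial.map_sub, Polynomial.map_X, Polynomial.map_C]
      rfl
    rw [Finset.prod_congr rfl h1]
    refine Finset.prod_bij (fun q _ => q.map (act C hC n)) ?_ ?_ ?_ ?_
    · intro q hq
      obtain ⟨n', rfl⟩ := (hO q).1 hq
      rw [hO]
      exact ⟨n * n', by rw [Polynomial.map_map, hact]⟩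
    · intro q _ q' _ h
      have h2 := congrArg (Polynomial.map (act C hC n⁻¹)) h
      simp only [Polynomial.map_map, hact, inv_mul_cancel] at h2
      have h3 : act C hC 1 = RingHom.id C := by
        ext x
        rfl
      rwa [h3, Polynomial.map_id, Polynomial.map_id] at h2
    · intro q hq
      obtain ⟨n', rfl⟩ := (hO q).1 hq
      refine ⟨p.map (act C hC (n⁻¹ * n')), (hO _).2 ⟨_, rfl⟩, ?_⟩
      rw [Polynomial.map_map, hact, mul_inv_cancel_left]
    · intro q _
      rfl
  let T : Finset C := (P.support.biUnion fun i => (P.coeff i).coeffs)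
  have hTinv : ∀ i j, ∀ n ∈ Gam E, n (((P.coeff i).coeff j : C) : Ω) = ((P.coeff i).coeff j : C) := by
    intro i j n hn
    have h1 := congrArg (fun Q : Polynomial (Polynomial C) => (Q.coeff i).coeff j) (hPinv ⟨n, hn⟩)
    simp only [coeff_map, coe_mapRingHom] at h1
    exact congrArg Subtype.val h1
  refine ⟨T, ?_, ?_⟩
  · intro t ht n hn
    obtain ⟨i, -, hi⟩ := Finset.mem_biUnion.1 ht
    obtain ⟨j, -, rfl⟩ := Polynomial.mem_coeffs_iff.1 hi
    exact hTinv i j n hn
  · intro κ _ Φ₁ Φ₂ hΦ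
    have hcoef : ∀ i j, Φ₁ ((P.coeff i).coeff j) = Φ₂ ((P.coeff i).coeff j) := by
      intro i j
      by_cases h0 : (P.coeff i).coeff j = 0
      · rw [h0, map_zero, map_zero]
      · apply hΦ
        refine Finset.mem_biUnion.2 ⟨i, ?_, Polynomial.coeff_mem_coeffs h0⟩
        rw [mem_support_iff]
        intro h1
        rw [h1] at h0
        exact h0 rfl
    have hP : P.map (mapRingHom Φ₁) = P.map (mapRingHom Φ₂) := by
      ext i j
      simp only [coeff_map, coe_mapRingHom]
      exact hcoef i j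
    have h0 : P.eval p = 0 := by
      show (∏ q ∈ O, (X - Polynomial.C q)).eval p = 0
      rw [eval_prod]
      refine Finset.prod_eq_zero hpO ?_
      rw [eval_sub, eval_X, eval_C, sub_self]
    have h1 : (P.map (mapRingHom Φ₂)).eval (p.map Φ₂) = 0 := by
      have h2 := Polynomial.eval₂_at_apply (mapRingHom Φ₂) p (p := P)
      rw [h0, map_zero] at h2
      rw [eval_map]
      exact h2
    rw [← hP] at h1
    have h2 : P.map (mapRingHom Φ₁) = ∏ q ∈ O, (X - Polynomial.C (q.map Φ₁)) := by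
      show (∏ q ∈ O, (X - Polynomial.C q)).map (mapRingHom Φ₁) = _
      rw [Polynomial.map_prod]
      refine Finset.prod_congr rfl fun q _ => ?_
      rw [Polynomial.map_sub, Polynomial.map_X, Polynomial.map_C]
      rfl
    rw [h2, eval_prod, Finset.prod_eq_zero_iff] at h1
    obtain ⟨q, hq, hq0⟩ := h1
    obtain ⟨n, rfl⟩ := (hO q).1 hq
    rw [eval_sub, eval_X, eval_C, sub_eq_zero] at hq0
    refine ⟨n, fun i => ?_⟩
    have h3 := congrArg (fun Q : Polynomial κ => Q.coeff i) hq0
    simp only [coeff_map, hpc] at h3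
    exact h3

end Pool.Agent.U745.FM
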